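import Pool.Agent.MP_ed9623_an.R77.Kit

/-! Continuous representatives, jets, potentials and a Morrey bound. -/

open MeasureTheory Filter Topology Set
open scoped ContDiff

namespace Pool.Agent.MP_ed9623_an.R77

open H64 H77

variable {O : Set P} {f g fx fy fz : P → ℝ}

theorem le_of_ae {α : Type} [TopologicalSpace α] [MeasurableSpace α] [OpensMeasurableSpace α]
    {μ : Measure α} [μ.IsOpenPosMeasure] {O : Set α} {u : α → ℝ} {c : ℝ} (hO : IsOpen O)
    (hu : Continuous u) (h : ∀ᵐ p ∂μ, p ∈ O → u p ≤ c) {p : α} (hp : p ∈ O) : u p ≤ c := by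
  by_contra! a
  refine ((hO.inter (isOpen_lt continuous_const hu)).measure_pos μ ⟨p, hp, a⟩).ne'
    (measure_eq_zero_iff_ae_notMem.2 (h.mono fun q b d => (b d.1).not_gt d.2))

theorem eq_of_ae (hO : IsOpen O) (hf : ContinuousOn f O) (hg : ContinuousOn g O)
    (h : ∀ᵐ p, p ∈ O → f p = g p) {p : P} (hp : p ∈ O) : f p = g p :=
  Measure.eqOn_open_of_ae_eq ((ae_restrict_iff' hO.measurableSet).2 h) hO hf hg hp

theorem K2 (a : ℝ) : Mix.K (a - 1) (a + 1) = 5 := by
  rw [Mix.K, show a + 1 - (a - 1) = 2 by ring]; norm_num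

theorem wd_swap {e : P} (h : WD univ e f g) :
    WD univ e.swap (fun p => f p.swap) fun p => g p.swap := fun φ hφ => by
  have sm : ContDiff ℝ ∞ fun p : P => φ p.swap := hφ.1.comp (contDiff_snd.prodMk contDiff_fst)
  have ht : Test univ fun p : P => φ p.swap :=
    ⟨sm, hφ.2.1.comp_homeomorph (Homeomorph.prodComm ℝ ℝ), subset_univ _⟩
  have hd : ∀ p : P, pd e (fun p : P => φ p.swap) p = pd e.swap φ p.swap := fun p => by
    refine HD.pd_eq ?_ (sm_diff sm p)
    exact HD.of_diff (e := e.swap) (sm_diff hφ.1 p.swap)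
  have h3 := h _ ht
  simp only [hd] at h3
  rw [← Ftc.int_swap, ← Ftc.int_swap fun x => g x.swap * φ x]
  simpa only [Prod.swap_swap] using h3

theorem m2_swap (h : M2 f) : M2 fun p => f p.swap := h.comp_measurePreserving Ftc.mp_swap

theorem nm_swap (f : P → ℝ) : nm (fun p => f p.swap) = nm f :=
  congrArg Real.sqrt (Ftc.int_swap fun p => f p ^ 2)

theorem sup_sm (c : Continuous f) (m : M2 f) (mx : M2 fx) (my : M2 fy) (mz : M2 fz)
    (wx : WD univ (ee 0) f fx) (wy : WD univ (ee 1) f fy) (wz : WD univ (ee 0) fy fz) (p : P) :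
    |f p| ≤ 5 * (nm f + nm fx + nm fy + nm fz) := by
  have := le_of_ae (isOpen_Bx (p.1 - 1) (p.1 + 1) (p.2 - 1) (p.2 + 1)) (c.pow 2)
    (Mix.three wSlice m mx my mz (wx.mono (subset_univ _)) (wy.mono (subset_univ _))
      (wz.mono (subset_univ _))) (p := p) (mem_Bx.2 (by simp))
  rw [K2, K2] at this
  have n1 := nm_nonneg f
  have n2 := nm_nonneg fx
  have n3 := nm_nonneg fy
  have n4 := nm_nonneg fz
  refine abs_le.2 (abs_le_of_sq_le_sq' (this.trans ?_) (by positivity))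
  nlinarith [mul_nonneg n1 n2, mul_nonneg n1 n3, mul_nonneg n1 n4, mul_nonneg n2 n3,
    mul_nonneg n2 n4, mul_nonneg n3 n4]

theorem hol_sm (c : Continuous f) (cy : Continuous fy) (my : M2 fy) (mz : M2 fz)
    (wy : WD univ (ee 1) f fy) (wz : WD univ (ee 0) fy fz) (y s s' : ℝ) :
    |f (y, s') - f (y, s)| ≤ 3 * (nm fy + nm fz) * √(dist s' s) := by
  wlog h : s ≤ s' generalizing s s'
  · rw [abs_sub_comm, dist_comm]; exact this _ _ (le_of_not_ge h)
  rcases h.eq_or_lt with rfl | h'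
  · simp
  have l0 := sub_pos.2 h'
  have : (f (y, s') - f (y, s)) ^ 2 ≤ (s' - s) * (5 * (nm fy ^ 2 + nm fz ^ 2)) := by
    refine le_of_ae (μ := volume) (u := fun y => (f (y, s') - f (y, s)) ^ 2)
      (isOpen_Ioo (a := y - 1) (b := y + 1)) (by fun_prop) ?_ (by simp)
    filter_upwards [Mix.one wSlice (a := y - 1) (b := y + 1) (c := s) (d := s') my mz
      (wz.mono (subset_univ _)), Slice.slR my] with z a b hz
    rw [← intervalIntegral.integral_eq_sub_of_hasDerivAt (f := fun σ => f (z, σ))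
      (f' := fun σ => fy (z, σ)) (fun σ _ => cw1 (x := (z, σ)) isOpen_univ c.continuousOn
        cy.continuousOn wy trivial) (Slice.ii b _ _)]
    exact (Slice.cs b h le_rfl le_rfl l0 le_rfl).trans
      (mul_le_mul_of_nonneg_left (K2 y ▸ a hz) l0.le)
  have n1 := nm_nonneg fy
  have n2 := nm_nonneg fz
  refine abs_le.2 (abs_le_of_sq_le_sq' (this.trans ?_) (by positivity))
  rw [mul_pow, Real.sq_sqrt dist_nonneg, Real.dist_eq, abs_of_pos l0, mul_comm]
  exact mul_le_mul_of_nonneg_right (by nlinarith [mul_nonneg n1 n2]) l0.le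

theorem hol2_sm (c : Continuous f) (cx : Continuous fx) (cy : Continuous fy) (mx : M2 fx)
    (my : M2 fy) (mz : M2 fz) (wx : WD univ (ee 0) f fx) (wy : WD univ (ee 1) f fy)
    (wz : WD univ (ee 0) fy fz) (p q : P) :
    |f p - f q| ≤ 6 * (nm fx + nm fy + nm fz) * √(dist p q) := by
  have a := hol_sm c cy my mz wy wz p.1 q.2 p.2
  have b := hol_sm (f := fun p => f p.swap) (fy := fun p => fx p.swap) (fz := fun p => fz p.swap)
    (c.comp continuous_swap) (cx.comp continuous_swap) (m2_swap mx) (m2_swap mz)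
    (wd_swap wx) (wd_swap (wx.comm wy wz)) q.2 q.1 p.1
  rw [nm_swap, nm_swap] at b
  have d1 : √(dist p.1 q.1) ≤ √(dist p q) := Real.sqrt_le_sqrt (le_max_left _ _)
  have d2 : √(dist p.2 q.2) ≤ √(dist p q) := Real.sqrt_le_sqrt (le_max_right _ _)
  have n1 := nm_nonneg fx
  have n2 := nm_nonneg fy
  have n3 := nm_nonneg fz
  have s0 := Real.sqrt_nonneg (dist p q)
  have a' := a.trans (mul_le_mul_of_nonneg_left d2 (by positivity))
  have b' := b.trans (mul_le_mul_of_nonneg_left d1 (by positivity))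
  refine (abs_sub_le _ (f (p.1, q.2)) _).trans ((add_le_add a' b').trans ?_)
  nlinarith [mul_nonneg n1 s0, mul_nonneg n2 s0]

theorem mol_w {k : P → ℝ} {e : P} (hk : Test univ k) (m : M2 f) (w : WD univ e f g) :
    WD univ e (mol k f) (mol k g) := by
  obtain ⟨s, d⟩ := (rowMol1 k hk).1 f m
  have := WD.of_cd (contDiff_infty.1 s 1) univ e
  rwa [d, funext fun x => mol_wd hk w (x := x) fun _ _ => trivial] at this

/-- Continuous representative. -/
theorem rep (m : M2 f) (mx : M2 fx) (my : M2 fy) (mz : M2 fz) (wx : WD univ (ee 0) f fx)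
    (wy : WD univ (ee 1) f fy) (wz : WD univ (ee 0) fy fz) : ∃ F, Hg F ∧ F =ᵐ[volume] f := by
  choose ε k hε hk k1 k2 using Ftc.kernels rowMol2 m mx
  have h3 : ∀ n : ℕ, ∃ ε k, Ker ε k ∧ nm (fun p => mol k f p - f p) ≤ (1 / 2) ^ n ∧
      nm (fun p => mol k fx p - fx p) ≤ (1 / 2) ^ n ∧ nm (fun p => mol k fy p - fy p) ≤ (1 / 2) ^ n
      ∧ nm (fun p => mol k fz p - fz p) ≤ (1 / 2) ^ n := fun n => by
    have hp : (0 : ℝ) < (1 / 2) ^ n := by positivity
    obtain ⟨a, a0, ha⟩ := rowMol2.2.2.2 f m _ hp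
    obtain ⟨b, b0, hb⟩ := rowMol2.2.2.2 fx mx _ hp
    obtain ⟨c, c0, hc⟩ := rowMol2.2.2.2 fy my _ hp
    obtain ⟨d, d0, hd⟩ := rowMol2.2.2.2 fz mz _ hp
    obtain ⟨k, hk⟩ := exists_ker (lt_min (lt_min a0 b0) (lt_min c0 d0))
    exact ⟨_, k, hk, ha _ k (by simp) hk, hb _ k (by simp) hk, hc _ k (by simp) hk,
      hd _ k (by simp) hk⟩
  clear hε hk k1 k2 ε k
  choose ε k hk k1 k2 k3 k4 using h3
  have ct : ∀ n {g}, M2 g → Continuous (mol (k n) g) := fun n g a =>
    ((rowMol1 _ (hk n).test).1 g a).1.continuous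
  have mm : ∀ n {g}, M2 g → M2 (mol (k n) g) := fun n g a => (rowMol2.2.1 _ _ g (hk n) a).1
  have nn : ∀ n {g}, M2 g → nm (mol (k n) g) ≤ nm g := fun n g a => (rowMol2.2.1 _ _ g (hk n) a).2
  have df : ∀ n l {g}, M2 g → nm (fun p => mol (k n) g p - g p) ≤ (1 / 2) ^ n →
      nm (fun p => mol (k l) g p - g p) ≤ (1 / 2) ^ l →
      nm (fun p => mol (k n) g p - mol (k l) g p) ≤ (1 / 2) ^ n + (1 / 2) ^ l := fun n l g a b c => by
    have := nm_sub_le ((mm n a).sub a) ((mm l a).sub a)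
    simp only [sub_sub_sub_cancel_right] at this
    linarith
  have wd : ∀ n l {e g g'}, M2 g → M2 g' → WD univ e g g' → WD univ e
      (fun p => mol (k n) g p - mol (k l) g p) fun p => mol (k n) g' p - mol (k l) g' p :=
    fun n l e g g' a b c => (mol_w (hk n).test a c).sub (mol_w (hk l).test a c) (mm n a) (mm n b)
      (mm l a) (mm l b)
  have g2 := tendsto_pow_atTop_nhds_zero_of_lt_one (r := (1 / 2 : ℝ)) (by norm_num) (by norm_num)
  have cau : ∀ p, CauchySeq fun n => mol (k n) f p := fun p => by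
    refine cauchySeq_of_le_tendsto_0 (fun N => 40 * (1 / 2) ^ N) (fun n l N a b => ?_)
      (by simpa using g2.const_mul 40)
    have := sup_sm (f := fun p => mol (k n) f p - mol (k l) f p) ((ct n m).sub (ct l m)) ((mm n m).sub (mm l m)) ((mm n mx).sub (mm l mx))
      ((mm n my).sub (mm l my)) ((mm n mz).sub (mm l mz)) (wd n l m mx wx) (wd n l m my wy)
      (wd n l my mz wz) p
    have a' : (1 / 2 : ℝ) ^ n ≤ (1 / 2) ^ N := pow_le_pow_of_le_one (by norm_num) (by norm_num) a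
    have b' : (1 / 2 : ℝ) ^ l ≤ (1 / 2) ^ N := pow_le_pow_of_le_one (by norm_num) (by norm_num) b
    refine le_trans this ?_
    linarith [df n l m (k1 n) (k1 l), df n l mx (k2 n) (k2 l), df n l my (k3 n) (k3 l),
      df n l mz (k4 n) (k4 l)]
  choose F hF using fun p => cauchySeq_tendsto_of_complete (cau p)
  have n0 := nm_nonneg f
  have n1 := nm_nonneg fx
  have n2 := nm_nonneg fy
  have n3 := nm_nonneg fz
  refine ⟨F, ⟨6 * (nm f + nm fx + nm fy + nm fz), by positivity, fun p =>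
    ⟨le_of_tendsto' (hF p).abs fun n => ?_, fun q =>
      le_of_tendsto' ((hF p).sub (hF q)).abs fun n => ?_⟩⟩, ?_⟩
  · linarith [sup_sm (ct n m) (mm n m) (mm n mx) (mm n my) (mm n mz) (mol_w (hk n).test m wx)
      (mol_w (hk n).test m wy) (mol_w (hk n).test my wz) p, nn n m, nn n mx, nn n my, nn n mz]
  · refine (hol2_sm (ct n m) (ct n mx) (ct n my) (mm n mx) (mm n my) (mm n mz)
      (mol_w (hk n).test m wx) (mol_w (hk n).test m wy) (mol_w (hk n).test my wz) p q).trans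
      (mul_le_mul_of_nonneg_right ?_ (Real.sqrt_nonneg _))
    linarith [nn n mx, nn n my, nn n mz]
  · have : Tendsto (fun n => MemLp.toLp _ (mm n m)) atTop (𝓝 (MemLp.toLp f m)) := by
      refine tendsto_iff_norm_sub_tendsto_zero.2 (squeeze_zero (fun _ => norm_nonneg _)
        (fun n => ?_) g2)
      rw [← MemLp.toLp_sub]
      exact (nm_toLp ((mm n m).sub m)).trans_le (k1 n)
    obtain ⟨s, hs, h⟩ := (tendstoInMeasure_of_tendsto_Lp this).exists_seq_tendsto_ae
    filter_upwards [h, ae_all_iff.2 fun n => (mm n m).coeFn_toLp, m.coeFn_toLp] with p a b c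
    simp only [b, c] at a
    exact tendsto_nhds_unique ((hF p).comp hs.tendsto_atTop) a

/-- A cut-off function in `H^k(O)` lies in `H^k` of the plane. -/
theorem hb_cut (k : ℕ) : ∀ {f χ : P → ℝ} {R : ℝ}, M2 f → 0 ≤ R → HB O k f R → Test O χ →
    ∃ R', 0 ≤ R' ∧ HB univ k (fun p => χ p * f p) R' := by
  induction k with
  | zero => exact fun m _ _ c => ⟨_, nm_nonneg _, HB.zero (m.tmul c) le_rfl⟩
  | succ k ih =>
    intro f χ R m r0 h c
    obtain ⟨g, hg⟩ := wHb.1 O k f R m r0 h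
    choose A a0 hA using fun i => ih (hg i).1 r0 (hg i).2.2.2 c
    choose B b0 hB using fun i => ih m r0 (h.mono Subset.rfl k.le_succ le_rfl) (c.pd (ee i))
    have n0 := nm_nonneg fun p => χ p * f p
    have := a0 0; have := a0 1; have := b0 0; have := b0 1
    refine ⟨nm (fun p => χ p * f p) + (A 0 + B 0) + (A 1 + B 1), by positivity,
      HB.succ (HB.zero (m.tmul c) (by linarith)) (fun i => (hg i).2.2.1.cut m (hg i).1 c)
        fun i => ((hA i).add (hB i) ((hg i).1.tmul c) (m.tmul (c.pd _))).mono Subset.rfl le_rfl ?_⟩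
    fin_cases i <;> simp only [Fin.zero_eta, Fin.mk_one] <;> linarith

theorem WD.ae {e : P} {f' g' : P → ℝ} (h : WD O e f g) (a : f' =ᵐ[volume] f)
    (b : g' =ᵐ[volume] g) : WD O e f' g' :=
  h.congr (a.mono fun _ c _ => c.symm) (b.mono fun _ c _ => c.symm)

/-- Weak jets. -/
theorem wjet (k : ℕ) : ∀ {f : P → ℝ} {R : ℝ}, M2 f → 0 ≤ R → HB univ k f R → ∃ F : J2,
    F 0 0 = f ∧ (∀ a b, a + b ≤ k → M2 (F a b)) ∧ ∀ a b, a + b < k →
      WD univ (ee 0) (F a b) (F (a + 1) b) ∧ WD univ (ee 1) (F a b) (F a (b + 1)) := by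
  induction k with
  | zero => exact fun {f} _ m _ _ => ⟨fun _ _ => f, rfl, fun _ _ _ => m, fun _ _ c => by omega⟩
  | succ k ih =>
    intro f R m r0 h
    obtain ⟨g, hg⟩ := wHb.1 univ k f R m r0 h
    obtain ⟨X, x0, xm, xw⟩ := ih (hg 0).1 r0 (hg 0).2.2.2
    obtain ⟨Y, y0, ym, yw⟩ := ih (hg 1).1 r0 (hg 1).2.2.2
    have key : ∀ b, b + 1 ≤ k → WD univ (ee 0) (Y 0 b) (X 0 (b + 1)) := fun b => by
      induction b with
      | zero => exact fun c => y0 ▸ (hg 1).2.2.1.comm (hg 0).2.2.1 (x0 ▸ (xw 0 0 (by omega)).2)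
      | succ b ib =>
        exact fun c => (yw 0 b (by omega)).2.comm (ib (by omega)) (xw 0 (b + 1) (by omega)).2
    refine ⟨fun a b => match a, b with
      | 0, 0 => f
      | 0, b + 1 => Y 0 b
      | a + 1, b => X a b, rfl, fun a b c => ?_, fun a b c => ?_⟩
    · match a, b with
      | 0, 0 => exact m
      | 0, b + 1 => exact ym _ _ (by omega)
      | a + 1, b => exact xm _ _ (by omega)
    · match a, b with
      | 0, 0 => exact ⟨show WD univ _ f (X 0 0) from x0 ▸ (hg 0).2.2.1,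
          show WD univ _ f (Y 0 0) from y0 ▸ (hg 1).2.2.1⟩
      | 0, b + 1 => exact ⟨key b (by omega), (yw 0 b (by omega)).2⟩
      | a + 1, b => exact xw a b (by omega)

/-- Jets. -/
theorem jet {k : ℕ} {R : ℝ} (m : M2 f) (r0 : 0 ≤ R) (h : HB univ k f R) :
    ∃ F : J2, Jt k F ∧ F 0 0 =ᵐ[volume] f := by
  obtain ⟨F, f0, fm, fw⟩ := wjet k m r0 h
  have : ∀ a b, ∃ G, (a + b + 2 ≤ k → Hg G) ∧ G =ᵐ[volume] F a b := fun a b => by
    by_cases c : a + b + 2 ≤ k
    · obtain ⟨G, d, e⟩ := rep (fm a b (by omega)) (fm (a + 1) b (by omega))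
        (fm a (b + 1) (by omega)) (fm (a + 1) (b + 1) (by omega)) (fw a b (by omega)).1
        (fw a b (by omega)).2 (fw a (b + 1) (by omega)).1
      exact ⟨G, fun _ => d, e⟩
    · exact ⟨_, fun d => absurd d c, EventuallyEq.rfl⟩
  choose G gc ge using this
  have wx := fun a b c => WD.ae (fw a b c).1 (ge _ _) (ge _ _)
  have wy := fun a b c => WD.ae (fw a b c).2 (ge _ _) (ge _ _)
  exact ⟨G, ⟨fun a b c => (fm a b c).congr (ge a b).symm, wx, wy, gc, fun a b c p =>
    cwF isOpen_univ (gc a b (by omega)).ct.continuousOn (gc _ _ (by omega)).ct.continuousOn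
      (gc _ _ (by omega)).ct.continuousOn (wx a b (by omega)) (wy a b (by omega)) trivial⟩,
    f0 ▸ ge 0 0⟩

/-- Local jets on a smaller square. -/
theorem jetQ {k : ℕ} {R r r' : ℝ} (hr : r' < r) (m : M2 f) (r0 : 0 ≤ R) (h : HB (Q r) k f R) :
    ∃ F : J2, Jt k F ∧ ∀ᵐ p, p ∈ Q r' → F 0 0 p = f p := by
  obtain ⟨χ, hχ, -, c1⟩ := exists_cut (isCompact_closedBall (0 : P) r') (isOpen_Q r)
    (Q_eq_ball r ▸ Metric.closedBall_subset_ball hr)
  obtain ⟨R', a, b⟩ := hb_cut k m r0 h hχ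
  obtain ⟨F, c, d⟩ := jet (m.tmul hχ) a b
  refine ⟨F, c, d.mono fun p e hp => ?_⟩
  simp only [e, c1.self_of_nhdsSet p (Metric.ball_subset_closedBall (Q_eq_ball r' ▸ hp)), one_mul]

end Pool.Agent.MP_ed9623_an.R77
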