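import Pool.Agent.MP_ed9623_an.R77.Jt

/-! Continuous weak derivatives are classical; the telescoping kernel. -/

open MeasureTheory Filter Topology Set
open scoped ContDiff

namespace Pool.Agent.MP_ed9623_an.R77

open H64 H77

variable {O : Set P} {f g k : P → ℝ} {ε : ℝ} {x e : P}

theorem ker_int (hk : Ker ε k) (x : P) : ∫ z, k (x - z) = 1 := by
  rw [integral_sub_left_eq_self k volume x, hk.2.2]

theorem ker_near (hk : Ker ε k) {z : P} (hz : x - z ∈ tsupport k) : dist z x < ε := by
  have := hk.1.2.2 hz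
  rwa [mem_ball_zero_iff, ← dist_eq_norm, dist_comm] at this

theorem exists_ker (h : 0 < ε) : ∃ k, Ker ε k :=
  (rowMol2.1 ε _ Metric.isOpen_ball ⟨0, Metric.mem_ball_self h⟩ Subset.rfl).imp fun _ a => a.1

/-- The mollification is a mean value. -/
theorem mol_near (hk : Ker ε k) (hf : M2 f) {c δ : ℝ}
    (h : ∀ᵐ z, dist z x < ε → |f z - c| ≤ δ) : |mol k f x - c| ≤ δ := by
  have t := hk.test.refl x
  have i0 : Integrable fun z => k (x - z) := t.ct.integrable_of_hasCompactSupport t.2.1
  have i1 := hf.int_mul t.m2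
  have e : mol k f x - c = ∫ z, (f z - c) * k (x - z) := by
    simp only [sub_mul]
    rw [integral_sub i1 (i0.const_mul c), integral_const_mul, ker_int hk, mul_one, mol]
  rw [e, ← mul_one δ, ← ker_int hk x, ← integral_const_mul]
  refine Real.norm_eq_abs _ ▸ norm_integral_le_of_norm_le (i0.const_mul δ) (h.mono fun z hz => ?_)
  rw [Real.norm_eq_abs, abs_mul, abs_of_nonneg (hk.2.1 _)]
  by_cases a : x - z ∈ tsupport k
  · exact mul_le_mul_of_nonneg_right (hz (ker_near hk a)) (hk.2.1 _)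
  · simp [image_eq_zero_of_notMem_tsupport a]

/-- A function continuous on `O` agrees near a point with a compactly supported one. -/
theorem loc_cut (hO : IsOpen O) (hx : x ∈ O) : ∃ r : ℝ, 0 < r ∧ Metric.ball x r ⊆ O ∧
    ∀ f : P → ℝ, ContinuousOn f O → ∃ F : P → ℝ, Continuous F ∧ HasCompactSupport F ∧
      ∀ y ∈ Metric.ball x r, F y = f y := by
  obtain ⟨r, r0, hr⟩ := Metric.nhds_basis_closedBall.mem_iff.1 (hO.mem_nhds hx)
  obtain ⟨χ, hχ, -, c1⟩ := exists_cut (isCompact_closedBall x r) hO hr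
  refine ⟨r, r0, Metric.ball_subset_closedBall.trans hr, fun f hf => ⟨fun p => χ p * f p,
    continuous_iff_continuousAt.2 fun p => ?_, hχ.2.1.mul_right, fun y hy => ?_⟩⟩
  · by_cases hp : p ∈ O
    · exact hχ.ct.continuousAt.mul (hf.continuousAt (hO.mem_nhds hp))
    · have : ∀ᶠ q in 𝓝 p, χ q = 0 := notMem_tsupport_iff_eventuallyEq.1 fun h => hp (hχ.2.2 h)
      exact (continuousAt_const (y := (0 : ℝ))).congr (this.mono fun q hq => by simp [hq])
  · simp only [c1.self_of_nhdsSet y (Metric.ball_subset_closedBall hy), one_mul]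

theorem mol_unif (hf : Continuous f) (hc : HasCompactSupport f) {δ : ℝ} (hδ : 0 < δ) :
    ∃ ε₀ : ℝ, 0 < ε₀ ∧ ∀ ε k, ε ≤ ε₀ → Ker ε k → ∀ x, |mol k f x - f x| ≤ δ := by
  obtain ⟨ε₀, e0, h⟩ := Metric.uniformContinuous_iff.1 (hc.uniformContinuous_of_continuous hf) δ hδ
  exact ⟨ε₀, e0, fun ε k a hk x => mol_near hk (hf.memLp_of_hasCompactSupport hc)
    (Eventually.of_forall fun z b => (h (b.trans_le a)).le)⟩

/-- A continuous weak derivative is a classical directional derivative. -/
theorem cw (hO : IsOpen O) (hf : ContinuousOn f O) (hg : ContinuousOn g O) (h : WD O e f g)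
    (hx : x ∈ O) : HD e x f (g x) := by
  obtain ⟨r, r0, hr, hc⟩ := loc_cut hO hx
  obtain ⟨F, cF, kF, eF⟩ := hc f hf
  obtain ⟨G, cG, kG, eG⟩ := hc g hg
  have mF : M2 F := cF.memLp_of_hasCompactSupport kF
  have mG : M2 G := cG.memLp_of_hasCompactSupport kG
  have w : WD (Metric.ball x r) e F G := (h.mono hr).congr
    (Eventually.of_forall fun y a => (eF y a).symm) (Eventually.of_forall fun y a => (eG y a).symm)
  have cl : Continuous fun s : ℝ => x + s • e := by fun_prop
  obtain ⟨η, η0, hη⟩ := Metric.continuousAt_iff.1 (cl.continuousAt (x := 0)) (r / 2) (half_pos r0)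
  simp only [zero_smul, add_zero, dist_zero_right, Real.norm_eq_abs] at hη
  have key : ∀ s, |s| < η → F (x + s • e) = F x + ∫ σ in (0 : ℝ)..s, G (x + σ • e) := fun s hs => by
    refine sub_eq_zero.1 (abs_nonpos_iff.1 (le_of_forall_pos_le_add fun δ δ0 => ?_))
    have p0 : 0 < δ / (2 + η) := by positivity
    obtain ⟨a, a0, ha⟩ := mol_unif cF kF p0
    obtain ⟨b, b0, hb⟩ := mol_unif cG kG p0
    obtain ⟨k, hk⟩ := exists_ker (lt_min (half_pos r0) (lt_min a0 b0))
    have A := ha _ k ((min_le_right _ _).trans (min_le_left _ _)) hk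
    have B := hb _ k ((min_le_right _ _).trans (min_le_right _ _)) hk
    obtain ⟨sF, dF⟩ := (rowMol1 k hk.test).1 F mF
    have sG := ((rowMol1 k hk.test).1 G mG).1.continuous
    have e1 : ∫ σ in (0 : ℝ)..s, mol k G (x + σ • e) = mol k F (x + s • e) - mol k F (x + (0 : ℝ) • e) := by
      refine intervalIntegral.integral_eq_sub_of_hasDerivAt (f := fun σ => mol k F (x + σ • e))
        (fun σ hσ => ?_) ((sG.comp cl).intervalIntegrable _ _)
      have : |σ| < η := (abs_le_max_abs_abs hσ.1 hσ.2).trans_lt (by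
        rcases le_total 0 s with c | c <;> simp [c, hs, η0])
      rw [← mol_wd hk.test w (x := x + σ • e) fun z hz => ?_, ← dF]
      · exact (sm_diff sF _).hasFDerivAt.comp_hasDerivAt σ
          (by simpa using ((hasDerivAt_id σ).smul_const e).const_add x)
      · have := dist_triangle z (x + σ • e) x
        rw [Metric.mem_ball]
        linarith [ker_near hk hz, hη ‹_›, min_le_left (r / 2) (min a b)]
    have e2 : |(∫ σ in (0 : ℝ)..s, mol k G (x + σ • e)) - ∫ σ in (0 : ℝ)..s, G (x + σ • e)|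
        ≤ δ / (2 + η) * η := by
      rw [← intervalIntegral.integral_sub (f := fun σ => mol k G (x + σ • e))
        (g := fun σ => G (x + σ • e)) ((sG.comp cl).intervalIntegrable _ _)
        ((cG.comp cl).intervalIntegrable _ _)]
      refine (intervalIntegral.norm_integral_le_of_norm_le_const (C := δ / (2 + η))
        (f := fun σ => mol k G (x + σ • e) - G (x + σ • e)) fun σ _ => B _).trans ?_
      rw [sub_zero]
      exact mul_le_mul_of_nonneg_left hs.le p0.le
    rw [e1, zero_smul, add_zero] at e2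
    have q : δ / (2 + η) * η + 2 * (δ / (2 + η)) = δ := by field_simp; ring
    have a1 := abs_le.1 (A (x + s • e))
    have a2 := abs_le.1 (A x)
    have a3 := abs_le.1 e2
    rw [zero_add, abs_le]
    constructor <;> linarith [a1.1, a1.2, a2.1, a2.2, a3.1, a3.2]
  have d := (intervalIntegral.integral_hasDerivAt_right ((cG.comp cl).intervalIntegrable 0 0)
    ((cG.comp cl).stronglyMeasurableAtFilter _ _) (cG.comp cl).continuousAt).const_add (F x)
  simp only [Function.comp_apply, zero_smul, add_zero, eG x (Metric.mem_ball_self r0)] at d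
  refine d.congr_of_eventuallyEq ?_
  filter_upwards [Metric.ball_mem_nhds (0 : ℝ) η0] with s hs
  rw [mem_ball_zero_iff, Real.norm_eq_abs] at hs
  rw [← key s hs, eF _ (Metric.mem_ball.2 ((hη hs).trans (half_lt_self r0)))]

theorem HD_line {f : P → ℝ} {c s : ℝ} (h : HD e (x + s • e) f c) :
    HasDerivAt (fun σ : ℝ => f (x + σ • e)) c s := by
  have := HasDerivAt.comp_sub_const s s (f := fun σ : ℝ => f (x + s • e + σ • e)) (f' := c)
    (by rw [sub_self]; exact h)
  simpa only [sub_smul, add_add_sub_cancel, add_assoc, add_sub_cancel] using this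

theorem cw0 (hO : IsOpen O) (hf : ContinuousOn f O) (hg : ContinuousOn g O)
    (h : WD O (ee 0) f g) (hx : x ∈ O) : HasDerivAt (fun s => f (s, x.2)) (g x) x.1 := by
  have := HD_line (x := (0, x.2)) (e := ee 0) (s := x.1) (f := f) (c := g x)
    (by simpa [ee] using cw hO hf hg h hx)
  simpa [ee] using this

theorem cw1 (hO : IsOpen O) (hf : ContinuousOn f O) (hg : ContinuousOn g O)
    (h : WD O (ee 1) f g) (hx : x ∈ O) : HasDerivAt (fun s => f (x.1, s)) (g x) x.2 := by
  have := HD_line (x := (x.1, 0)) (e := ee 1) (s := x.2) (f := f) (c := g x)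
    (by simpa [ee] using cw hO hf hg h hx)
  simpa [ee] using this

/-- Continuous directional derivatives give the derivative. -/
theorem hasF_of_HD {g₁ g₂ : P → ℝ} (h : ∀ᶠ y in 𝓝 x, ∀ e, HD e y f (lf (g₁ y) (g₂ y) e))
    (h1 : ContinuousAt g₁ x) (h2 : ContinuousAt g₂ x) : HasFDerivAt f (lf (g₁ x) (g₂ x)) x := by
  refine hasFDerivAt_iff_isLittleO_nhds_zero.2 (Asymptotics.isLittleO_iff.2 fun c c0 => ?_)
  obtain ⟨δ, δ0, hδ⟩ := Metric.eventually_nhds_iff.1 (h.and
    ((Metric.tendsto_nhds.1 h1 _ (half_pos c0)).and (Metric.tendsto_nhds.1 h2 _ (half_pos c0))))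
  filter_upwards [Metric.ball_mem_nhds (0 : P) δ0] with v hv
  have m : ∀ s ∈ Icc (0 : ℝ) 1, dist (x + s • v) x < δ := fun s hs => by
    rw [dist_self_add_left, norm_smul, Real.norm_of_nonneg hs.1]
    exact (mul_le_of_le_one_left (norm_nonneg _) hs.2).trans_lt (mem_ball_zero_iff.1 hv)
  have := norm_image_sub_le_of_norm_deriv_le_segment_01'
    (f := fun s : ℝ => f (x + s • v) - s * lf (g₁ x) (g₂ x) v) (C := c * ‖v‖)
    (fun s hs => ((HD_line ((hδ (m s hs)).1 v)).sub
      ((hasDerivAt_id s).mul_const _)).hasDerivWithinAt) fun s hs => by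
      obtain ⟨-, a, b⟩ := hδ (m s (Ico_subset_Icc_self hs))
      rw [Real.dist_eq] at a b
      have v1 : |v.1| ≤ ‖v‖ := norm_fst_le v
      have v2 : |v.2| ≤ ‖v‖ := norm_snd_le v
      rw [lf_apply, lf_apply, one_mul, Real.norm_eq_abs, add_sub_add_comm, ← sub_mul, ← sub_mul]
      refine (abs_add_le _ _).trans ?_
      rw [abs_mul, abs_mul]
      nlinarith [mul_le_mul a.le v1 (abs_nonneg _) (half_pos c0).le,
        mul_le_mul b.le v2 (abs_nonneg _) (half_pos c0).le]
  simpa [sub_sub, add_comm] using this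

theorem pd_dir (φ : P → ℝ) (e p : P) : pd e φ p = e.1 * pd (ee 0) φ p + e.2 * pd (ee 1) φ p := by
  rw [← pd_smul_dir, ← pd_smul_dir, ← pd_add_dir]
  congr 1
  ext <;> simp [ee]

theorem int_on {φ : P → ℝ} (hO : IsOpen O) (hf : ContinuousOn f O) (hφ : Test O φ) :
    Integrable fun x => f x * φ x := by
  refine Continuous.integrable_of_hasCompactSupport (continuous_iff_continuousAt.2 fun p => ?_)
    hφ.2.1.mul_left
  by_cases hp : p ∈ O
  · exact (hf.continuousAt (hO.mem_nhds hp)).mul hφ.ct.continuousAt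
  · have : ∀ᶠ q in 𝓝 p, φ q = 0 := notMem_tsupport_iff_eventuallyEq.1 fun h => hp (hφ.2.2 h)
    exact (continuousAt_const (y := (0 : ℝ))).congr (this.mono fun q hq => by simp [hq])

/-- A continuous weak gradient is the derivative. -/
theorem cwF {g₁ g₂ : P → ℝ} (hO : IsOpen O) (hf : ContinuousOn f O) (h1 : ContinuousOn g₁ O)
    (h2 : ContinuousOn g₂ O) (w1 : WD O (ee 0) f g₁) (w2 : WD O (ee 1) f g₂) (hx : x ∈ O) :
    HasFDerivAt f (lf (g₁ x) (g₂ x)) x := by
  refine hasF_of_HD (mem_of_superset (hO.mem_nhds hx) fun y hy e => ?_)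
    (h1.continuousAt (hO.mem_nhds hx)) (h2.continuousAt (hO.mem_nhds hx))
  refine cw (g := fun y => lf (g₁ y) (g₂ y) e) hO hf ?_ (fun φ hφ => ?_) hy
  · simp only [lf_apply]
    exact (h1.mul continuousOn_const).add (h2.mul continuousOn_const)
  · have a : ∀ p, f p * pd e φ p = e.1 * (f p * pd (ee 0) φ p) + e.2 * (f p * pd (ee 1) φ p) :=
      fun p => by rw [pd_dir]; ring
    have b : ∀ p, lf (g₁ p) (g₂ p) e * φ p = e.1 * (g₁ p * φ p) + e.2 * (g₂ p * φ p) :=
      fun p => by rw [lf_apply]; ring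
    simp only [a, b]
    rw [integral_add ((int_on hO hf (hφ.pd _)).const_mul _) ((int_on hO hf (hφ.pd _)).const_mul _),
      integral_add ((int_on hO h1 hφ).const_mul _) ((int_on hO h2 hφ).const_mul _)]
    simp only [integral_const_mul]
    rw [w1 φ hφ, w2 φ hφ]
    ring

theorem pd_rad {h : ℝ → ℝ} (hh : ContDiff ℝ ∞ h) (i : Fin 2) :
    pd (ee i) (fun x => h (qc 0 x)) = fun x => deriv h (qc 0 x) * (2 * Xc 0 i x) := by
  funext x
  have : HasFDerivAt (fun x => h (qc 0 x)) _ x :=
    (hh.differentiable (by simp) _).hasDerivAt.comp_hasFDerivAt x (sm_diff (sm_qc 0) x).hasFDerivAt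
  rw [← pd_qc, pd, pd, this.fderiv]
  rfl

theorem test_rad {h : ℝ → ℝ} (hh : ContDiff ℝ ∞ h) (h0 : ∀ t, 1 / 2 < t → h t = 0) :
    Test (Metric.ball 0 1) fun x => h (qc 0 x) := by
  have s : tsupport (fun x => h (qc 0 x)) ⊆ {x | qc 0 x ≤ (3 / 4) ^ 2} :=
    closure_minimal (fun x hx => by_contra fun a => hx (h0 _ (by
      rw [mem_setOf_eq, not_le] at a; linarith))) (isClosed_le (sm_qc 0).continuous continuous_const)
  refine ⟨hh.comp (sm_qc 0), (isCompact_disc 0 _).of_isClosed_subset (isClosed_tsupport _) s,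
    fun x hx => ?_⟩
  have := s hx
  simp only [mem_setOf_eq, qc, Prod.fst_zero, Prod.snd_zero, sub_zero] at this
  rw [← Q_eq_ball, mem_Q, ← sq_lt_one_iff_abs_lt_one, ← sq_lt_one_iff_abs_lt_one]
  constructor <;> nlinarith [sq_nonneg x.1, sq_nonneg x.2]

/-- The telescoping kernel. -/
theorem tk : ∃ ρ κ : P → ℝ, Ker 1 ρ ∧ Test (Metric.ball 0 1) κ ∧ ∀ x,
    ρ x - 4 * ρ ((2 : ℝ) • x) = pd (ee 0) (pd (ee 0) κ) x + pd (ee 1) (pd (ee 1) κ) x := by
  set R : ℝ → ℝ := fun t => Real.smoothTransition (4 * t - 1) with hR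
  have sR : ContDiff ℝ ∞ R := Real.smoothTransition.contDiff.comp (by fun_prop)
  have R0 : ∀ t, t ≤ 1 / 4 → R t = 0 := fun t a =>
    Real.smoothTransition.zero_of_nonpos (by linarith)
  have R1 : ∀ t, 1 / 2 ≤ t → R t = 1 := fun t a =>
    Real.smoothTransition.one_of_one_le (by linarith)
  have mR : Monotone R := fun s t a => Real.smoothTransition.monotone (by linarith)
  have sR' : ContDiff ℝ ∞ (deriv R) := (contDiff_infty_iff_deriv.1 sR).2
  have dR := fun t => (sR.differentiable (by simp) t).hasDerivAt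
  have R2 : ∀ t, 1 / 2 < t → deriv R t = 0 := fun t a => by
    have : R =ᶠ[𝓝 t] fun _ => 1 := mem_of_superset (Ioi_mem_nhds a) fun s b => R1 s (le_of_lt b)
    rw [this.deriv_eq, deriv_const]
  set m : ℝ → ℝ := fun t => (R t - R (4 * t)) / (4 * t) with hm
  have sm : ContDiff ℝ ∞ m := contDiff_iff_contDiffAt.2 fun t => by
    rcases eq_or_ne t 0 with rfl | a
    · refine (contDiffAt_const (c := (0 : ℝ))).congr_of_eventuallyEq ?_
      filter_upwards [Iio_mem_nhds (show (0 : ℝ) < 1 / 16 by norm_num)] with s b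
      have b' : s < 1 / 16 := b
      simp [hm, R0 s (by linarith), R0 (4 * s) (by linarith)]
    · exact (sR.sub (sR.comp (by fun_prop))).contDiffAt.div (by fun_prop) (by simpa using a)
  have dm := fun t => (sm.differentiable (by simp) t).hasDerivAt
  have em : ∀ t, 4 * (m t + t * deriv m t) = deriv R t - 4 * deriv R (4 * t) := fun t => by
    have a := ((hasDerivAt_id t).mul (dm t)).const_mul 4
    have b := (dR t).sub ((dR (4 * t)).comp t ((hasDerivAt_id t).const_mul 4))
    have := a.unique (b.congr_of_eventuallyEq (Eventually.of_forall fun s => by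
      rcases eq_or_ne s 0 with rfl | c
      · simp
      · simp only [hm, Pi.mul_apply, id, Pi.sub_apply, Function.comp_apply]; field_simp))
    simp only [id, one_mul, mul_one] at this
    linarith
  set h : ℝ → ℝ := fun t => ∫ u in (1 : ℝ)..t, m u with hh
  have dh : ∀ t, HasDerivAt h (m t) t := fun t => (sm.continuous.integral_hasStrictDerivAt 1 t).hasDerivAt
  have eh : deriv h = m := funext fun t => (dh t).deriv
  have sh : ContDiff ℝ ∞ h :=
    contDiff_infty_iff_deriv.2 ⟨fun t => (dh t).differentiableAt, eh ▸ sm⟩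
  have h0 : ∀ t, 1 / 2 < t → h t = 0 := fun t a => by
    refine (intervalIntegral.integral_congr (g := fun _ => 0) fun u b => ?_).trans (by simp)
    have : 1 / 2 ≤ u := le_trans (le_min (by norm_num) a.le) b.1
    simp [hm, R1 u this, R1 (4 * u) (by linarith)]
  have t1 := test_rad sR' R2
  have p1 : ∀ x : P, 0 ≤ deriv R (qc 0 x) := fun x => mR.deriv_nonneg
  obtain ⟨u, hu, eu⟩ := exists_deriv_eq_slope R (show (1 / 4 : ℝ) < 1 / 2 by norm_num)
    sR.continuous.continuousOn (sR.differentiable (by simp)).differentiableOn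
  have c0 : 0 < ∫ x : P, deriv R (qc 0 x) :=
    t1.ct.integral_pos_of_hasCompactSupport_nonneg_nonzero t1.2.1 p1 (x := (√u, 0)) (by
      rw [show qc 0 ((√u, 0) : P) = u by simp [qc, Real.sq_sqrt (by linarith [hu.1] : 0 ≤ u)], eu,
        R1 _ le_rfl, R0 _ le_rfl]
      norm_num)
  set c := (∫ x : P, deriv R (qc 0 x))⁻¹
  refine ⟨fun x => c * deriv R (qc 0 x), fun x => c * h (qc 0 x), ⟨t1.cmul c, fun x =>
    mul_nonneg (inv_nonneg.2 c0.le) (p1 x), by rw [integral_const_mul, inv_mul_cancel₀ c0.ne']⟩,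
    (test_rad sh h0).cmul c, fun x => ?_⟩
  have e : ∀ i, pd (ee i) (pd (ee i) fun x => c * h (qc 0 x)) x
      = c * (deriv m (qc 0 x) * (2 * Xc 0 i x) ^ 2 + 2 * m (qc 0 x)) := fun i => by
    rw [show (fun x => c * h (qc 0 x)) = fun x => (fun t => c * h t) (qc 0 x) from rfl,
      pd_rad (contDiff_const.mul sh), show (deriv fun t => c * h t) = fun t => c * m t from
        funext fun t => ((dh t).const_mul c).deriv,
      pd_mul (f := fun x => (fun t => c * m t) (qc 0 x)) _
        (sm_diff ((contDiff_const.mul sm).comp (sm_qc 0)) x) (sm_diff (contDiff_const.mul (sm_Xc 0 i)) x), pd_rad (contDiff_const.mul sm),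
      pd_const_mul _ _ (sm_diff (sm_Xc 0 i) x), pd_Xc, if_pos rfl]
    simp only [((dm _).const_mul c).deriv]
    ring
  have q : qc 0 ((2 : ℝ) • x) = 4 * qc 0 x := by simp [qc]; ring
  simp only [e, q]
  have := qc_eq 0 x
  rw [Fin.sum_univ_two] at this
  linear_combination (-c) * em (qc 0 x) + 4 * c * deriv m (qc 0 x) * this

end Pool.Agent.MP_ed9623_an.R77
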