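import Pool.Agent.MP_ed9623_an.R77.Lk
import Pool.Agent.MP_ed9623_an.R1.Spec

/-! The determinant of the Hessian is of class `C¹`. -/

open MeasureTheory Filter Topology Set
open scoped ContDiff

namespace Pool.Agent.MP_ed9623_an.R77

open H64 H77

/-- A Morrey class. -/
def Mo (F : P → ℝ) : Prop := M2 F ∧ ∃ C : ℝ, 0 ≤ C ∧ ∀ (x : P) (s : ℝ), 0 < s → s ≤ 1 →
  ∫ p in Metric.ball x s, |F p| ≤ C * (s * √s)

variable {O : Set P} {F G h k : P → ℝ} {x : P} {s : ℝ} {n n' : ℕ} {f g : J2}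

theorem int_ball (h : M2 F) (x : P) (s : ℝ) : IntegrableOn F (Metric.ball x s) :=
  (h.loc.integrableOn_isCompact (isCompact_closedBall x s)).mono_set Metric.ball_subset_closedBall

theorem Mo.add (h : Mo F) (h' : Mo G) : Mo fun p => F p + G p := by
  obtain ⟨m, C, a, b⟩ := h
  obtain ⟨m', C', a', b'⟩ := h'
  refine ⟨m.add m', C + C', add_nonneg a a', fun x s c d => (integral_mono
    (int_ball (m.add m') x s).abs ((int_ball m x s).abs.add (int_ball m' x s).abs)
    fun p => abs_add_le _ _).trans ?_⟩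
  simp only [Pi.add_apply]
  rw [integral_add (int_ball m x s).abs (int_ball m' x s).abs]
  linarith [b x s c d, b' x s c d]

theorem Mo.hmul (h : Mo F) (h' : Hg G) : Mo fun p => G p * F p := by
  obtain ⟨m, C, a, b⟩ := h
  obtain ⟨M, m0, hM⟩ := id h'
  refine ⟨h'.mul2 m, M * C, by positivity, fun x s c d => (integral_mono
    (int_ball (h'.mul2 m) x s).abs ((int_ball m x s).abs.const_mul M) fun p => ?_).trans ?_⟩
  · simp only [abs_mul]
    exact mul_le_mul_of_nonneg_right (hM p).1 (abs_nonneg _)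
  · rw [integral_const_mul, mul_assoc]
    exact mul_le_mul_of_nonneg_left (b x s c d) m0

theorem Mo.cmul (h : Mo F) (c : ℝ) : Mo fun p => c * F p := h.hmul (Hg.const c)

theorem Mo.sub (h : Mo F) (h' : Mo G) : Mo fun p => F p - G p := by
  simpa only [neg_one_mul, sub_eq_add_neg] using h.add (h'.cmul (-1))

theorem Jt.mor (h : Jt n f) {a b : ℕ} (e : a + b < n) : ∃ C : ℝ, 0 ≤ C ∧ ∀ (x : P) (s : ℝ), 0 < s →
    s ≤ 1 → ∫ p in Metric.ball x s, f a b p ^ 2 ≤ C * (s * √s) :=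
  R77.mor (h.m _ _ e.le) (h.m _ _ (by omega)) (h.m _ _ (by omega)) (h.x _ _ e) (h.y _ _ e)

theorem Jt.mo2 (h : Jt n f) (h' : Jt n' g) {a b a' b' : ℕ} (e : a + b < n) (e' : a' + b' < n') :
    Mo fun p => f a b p * g a' b' p := by
  obtain ⟨C, c0, hC⟩ := h.mor e
  obtain ⟨D, d0, hD⟩ := h'.mor e'
  have i1 := fun x s => (h.m _ _ e.le).int_sq.integrableOn (s := Metric.ball x s)
  have i2 := fun x s => (h'.m _ _ e'.le).int_sq.integrableOn (s := Metric.ball x s)
  refine ⟨h.mul2 h' e e', C + D, by positivity, fun x s c d => (integral_mono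
    (int_ball (h.mul2 h' e e') x s).abs ((i1 x s).add (i2 x s)) fun p => abs_le.2 ?_).trans ?_⟩
  · simp only [Pi.add_apply]
    constructor <;> nlinarith [sq_nonneg (f a b p + g a' b' p), sq_nonneg (f a b p - g a' b' p)]
  · simp only [Pi.add_apply]
    rw [integral_add (i1 x s) (i2 x s)]
    linarith [hC x s c d, hD x s c d]

theorem Jt.mo1 (h : Jt n f) {a b : ℕ} (e : a + b < n) : Mo (f a b) := by
  obtain ⟨C, c0, hC⟩ := h.mor e
  have m := h.m _ _ e.le
  refine ⟨m, C + 4, by positivity, fun x s c d => ?_⟩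
  have i1 := m.int_sq.integrableOn (s := Metric.ball x s)
  have i2 : IntegrableOn (fun _ => (1 : ℝ)) (Metric.ball x s) :=
    integrableOn_const measure_ball_lt_top.ne
  refine (integral_mono (int_ball m x s).abs (i1.add i2) fun p => abs_le.2 ?_).trans ?_
  · simp only [Pi.add_apply]
    constructor <;> nlinarith [sq_nonneg (f a b p + 1), sq_nonneg (f a b p - 1)]
  · simp only [Pi.add_apply]
    rw [integral_add i1 i2, setIntegral_const, ball_eq_Bx, Bx, Measure.volume_eq_prod,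
      measureReal_prod_prod, Real.volume_real_Ioo_of_le (by linarith),
      Real.volume_real_Ioo_of_le (by linarith), smul_eq_mul, ← Measure.volume_eq_prod, ← Bx,
      ← ball_eq_Bx]
    have : s ≤ √s := Real.le_sqrt_of_sq_le (by nlinarith)
    nlinarith [hC x s c d]

theorem test_sc (hk : Test (Metric.ball 0 1) k) (hs : 0 < s) :
    Test (Metric.ball 0 s) fun z => k (s⁻¹ • z) := by
  refine ⟨hk.1.comp (contDiff_const_smul _), hk.2.1.comp_homeomorph
    (Homeomorph.smulOfNeZero s⁻¹ (inv_ne_zero hs.ne')), fun z hz => ?_⟩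
  have := hk.2.2 (closure_minimal (t := (fun z : P => s⁻¹ • z) ⁻¹' tsupport k)
    (fun z a => subset_tsupport k a) ((isClosed_tsupport k).preimage (by fun_prop)) hz)
  rwa [mem_ball_zero_iff, norm_smul, norm_inv, Real.norm_of_nonneg hs.le, inv_mul_lt_iff₀ hs,
    mul_one, ← mem_ball_zero_iff] at this

theorem pd_sc (hk : ContDiff ℝ ∞ k) (c : ℝ) (e : P) :
    pd e (fun z => k (c • z)) = fun z => c * pd e k (c • z) := funext fun z => by
  rw [← pd_smul_dir]
  exact congrArg (fun L : P →L[ℝ] ℝ => L e)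
    ((sm_diff hk _).hasFDerivAt.comp z ((hasFDerivAt_id z).const_smul c)).fderiv

theorem ker_sc (hk : Ker 1 k) (hs : 0 < s) : Ker s fun z => s⁻¹ ^ 2 * k (s⁻¹ • z) :=
  ⟨(test_sc hk.1 hs).cmul _, fun z => mul_nonneg (sq_nonneg _) (hk.2.1 _), by
    rw [integral_const_mul, Measure.integral_comp_smul, hk.2.2]
    simp [abs_of_pos, hs, hs.ne']⟩

theorem mol_bd (hk : Test (Metric.ball 0 s) k) {B : ℝ} (hB : ∀ z, |k z| ≤ B) (m : M2 F) (y : P) :
    |mol k F y| ≤ B * ∫ p in Metric.ball y s, |F p| := by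
  rw [← integral_const_mul, ← integral_indicator Metric.isOpen_ball.measurableSet]
  refine Real.norm_eq_abs _ ▸ norm_integral_le_of_norm_le ((integrable_indicator_iff
    Metric.isOpen_ball.measurableSet).2 ((int_ball m y s).abs.const_mul B))
    (Eventually.of_forall fun z => ?_)
  by_cases a : z ∈ Metric.ball y s
  · rw [indicator_of_mem a, Real.norm_eq_abs, abs_mul, mul_comm]
    exact mul_le_mul_of_nonneg_right (hB _) (abs_nonneg _)
  · rw [indicator_of_notMem a, hk.off (x := y - z) (by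
      rwa [mem_ball_zero_iff, ← dist_eq_norm, dist_comm]), mul_zero, norm_zero]

theorem norm_fderiv_le {u : P → ℝ} {y : P} {B : ℝ} (h : ∀ i, |pd (ee i) u y| ≤ B) :
    ‖fderiv ℝ u y‖ ≤ 2 * B := by
  have b0 := (abs_nonneg _).trans (h 0)
  refine ContinuousLinearMap.opNorm_le_bound _ (by positivity) fun e => ?_
  have v1 : |e.1| ≤ ‖e‖ := norm_fst_le e
  have v2 : |e.2| ≤ ‖e‖ := norm_snd_le e
  refine (congrArg abs (pd_dir u e y)).trans_le ((abs_add_le _ _).trans ?_)
  rw [abs_mul, abs_mul]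
  linarith [mul_le_mul v1 (h 0) (abs_nonneg _) (norm_nonneg _),
    mul_le_mul v2 (h 1) (abs_nonneg _) (norm_nonneg _)]

/-- A function whose Laplacian is in the Morrey class is `C¹`. -/
theorem c1L {a a' b b' : P → ℝ} (hO : IsOpen O) (ch : Continuous h) (mh : M2 h)
    (w0 : WD O (ee 0) h a) (w0' : WD O (ee 0) a a') (w1 : WD O (ee 1) h b) (w1' : WD O (ee 1) b b')
    (ma : M2 a') (mb : M2 b') (hF : Mo F) (e : ∀ᵐ p, p ∈ O → a' p + b' p = F p) (hx : x ∈ O) :
    ContDiffAt ℝ (1 : ℕ) h x := by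
  obtain ⟨ρ, κ, hρ, hκ, hk⟩ := tk
  obtain ⟨mF, C, c0, hC⟩ := hF
  obtain ⟨B0, b0, hB0⟩ := (hκ.pd (ee 0)).bd
  obtain ⟨B1, b1, hB1⟩ := (hκ.pd (ee 1)).bd
  have hB : ∀ i z, |pd (ee i) κ z| ≤ B0 + B1 :=
    Fin.forall_fin_two.2 ⟨fun z => by linarith [hB0 z], fun z => by linarith [hB1 z]⟩
  obtain ⟨R, R0, hR⟩ := Metric.isOpen_iff.1 hO x hx
  obtain ⟨r, r0, r1, r2⟩ : ∃ r : ℝ, 0 < r ∧ r ≤ 1 ∧ r ≤ R / 2 :=
    ⟨_, lt_min one_pos (half_pos R0), min_le_left _ _, min_le_right _ _⟩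
  set u : ℝ → P → ℝ := fun s => mol (fun z => s⁻¹ ^ 2 * ρ (s⁻¹ • z)) h with hu
  have su : ∀ s, 0 < s → ContDiff ℝ ∞ (u s) := fun s a =>
    ((rowMol1 _ (ker_sc hρ a).test).1 h mh).1
  have key : ∀ s, 0 < s → s ≤ r → ∀ y ∈ Metric.ball x r,
      ‖fderiv ℝ (u s) y - fderiv ℝ (u (s / 2)) y‖ ≤ 2 * ((B0 + B1) * C * √s) := fun s s0 s1 y hy => by
    have t := test_sc hκ s0
    obtain ⟨d1, d2⟩ := (rowMol1 _ t.top).1 F mF
    have : (fun y => u s y - u (s / 2) y) =ᶠ[𝓝 y] mol (fun z => κ (s⁻¹ • z)) F := by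
      filter_upwards [Metric.isOpen_ball.mem_nhds hy] with y hy
      have sub : ∀ {k}, Test (Metric.ball 0 s) k → ∀ z, y - z ∈ tsupport k → z ∈ O :=
        fun c z d => hR (by
          have := c.2.2 d
          rw [mem_ball_zero_iff, ← dist_eq_norm] at this
          rw [Metric.mem_ball] at hy ⊢
          linarith [dist_triangle z y x, dist_comm y z])
      have i := fun {k f} (c : Test univ k) (d : M2 f) => d.int_mul (c.refl y).m2
      rw [← mol_congr (sub t) e, mol]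
      simp only [add_mul]
      rw [integral_add (i t.top ma) (i t.top mb)]
      change _ = mol (fun z => κ (s⁻¹ • z)) a' y + mol (fun z => κ (s⁻¹ • z)) b' y
      rw [← mol_wd t.top w0' (sub t),
        ← mol_wd t.top w1' (sub t), ← mol_wd (t.pd _).top w0 (sub (t.pd _)),
        ← mol_wd (t.pd _).top w1 (sub (t.pd _))]
      simp only [hu, mol]
      rw [← integral_sub (i (ker_sc hρ s0).test mh) (i (ker_sc hρ (half_pos s0)).test mh),
        ← integral_add (i ((t.pd _).pd _).top mh) (i ((t.pd _).pd _).top mh)]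
      refine integral_congr_ae (Eventually.of_forall fun z => ?_)
      have q : ∀ i, pd (ee i) (pd (ee i) fun z => κ (s⁻¹ • z)) (y - z)
          = s⁻¹ ^ 2 * pd (ee i) (pd (ee i) κ) (s⁻¹ • (y - z)) := fun i => by
        rw [pd_sc hκ.1, pd_const_mul _ _ (sm_diff (test_sc (hκ.pd _) s0).1 _), pd_sc (hκ.pd _).1]
        ring
      simp only [q]
      rw [show (s / 2)⁻¹ = 2 * s⁻¹ by field_simp, mul_smul]
      linear_combination h z * s⁻¹ ^ 2 * hk (s⁻¹ • (y - z))
    rw [← fderiv_fun_sub (sm_diff (su s s0) y) (sm_diff (su _ (half_pos s0)) y), this.fderiv_eq]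
    refine norm_fderiv_le fun i => ?_
    rw [d2]
    refine (mol_bd (t.pd _) (B := s⁻¹ * (B0 + B1)) (fun z => ?_) mF y).trans
      ((mul_le_mul_of_nonneg_left (hC y s s0 (s1.trans r1)) (by positivity)).trans_eq (by field_simp))
    rw [pd_sc hκ.1, abs_mul, abs_of_pos (inv_pos.2 s0)]
    exact mul_le_mul_of_nonneg_left (hB i _) (by positivity)
  have p0 : ∀ n : ℕ, 0 < r * (1 / 2) ^ n := fun n => by positivity
  have geo : ∀ y ∈ Metric.ball x r, ∀ n : ℕ, dist (fderiv ℝ (u (r * (1 / 2) ^ n)) y)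
      (fderiv ℝ (u (r * (1 / 2) ^ (n + 1))) y) ≤ 2 * ((B0 + B1) * C) * (3 / 4) ^ n := fun y hy n => by
    rw [dist_eq_norm, pow_succ, ← mul_assoc, mul_one_div, mul_assoc]
    refine (key _ (p0 n) (mul_le_of_le_one_right r0.le (pow_le_one₀ (by norm_num) (by norm_num)))
      y hy).trans (mul_le_mul_of_nonneg_left (mul_le_mul_of_nonneg_left (Real.sqrt_le_iff.2
        ⟨by positivity, ?_⟩) (by positivity)) two_pos.le)
    rw [← pow_mul, mul_comm n, pow_mul]
    exact (mul_le_of_le_one_left (by positivity) r1).trans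
      (pow_le_pow_left₀ (by norm_num) (by norm_num) n)
  have q : (3 / 4 : ℝ) < 1 := by norm_num
  choose! L hL using fun y hy => cauchySeq_tendsto_of_complete
    (cauchySeq_of_le_geometric _ _ q (geo y hy))
  have un : TendstoUniformlyOn (fun n : ℕ => fderiv ℝ (u (r * (1 / 2) ^ n))) L atTop
      (Metric.ball x r) := Metric.tendstoUniformlyOn_iff.2 fun ε ε0 => by
    have := ((tendsto_pow_atTop_nhds_zero_of_lt_one (by norm_num) q).const_mul
      (2 * ((B0 + B1) * C))).div_const (1 - 3 / 4)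
    rw [mul_zero, zero_div] at this
    filter_upwards [this.eventually (gt_mem_nhds ε0)] with n a y hy
    exact dist_comm _ (L y) ▸ (dist_le_of_le_geometric_of_tendsto _ _ q (geo y hy) (hL y hy)
      n).trans_lt a
  refine contDiffAt_one_iff.2 ⟨L, _, Metric.ball_mem_nhds x r0, un.continuousOn
    (Frequently.of_forall fun n => ((su _ (p0 n)).continuous_fderiv (by simp)).continuousOn),
    fun y hy => hasFDerivAt_of_tendstoUniformlyOn Metric.isOpen_ball un
      (fun n z _ => (sm_diff (su _ (p0 n)) z).hasFDerivAt) (fun z _ => ?_) hy⟩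
  refine Metric.tendsto_nhds.2 fun ε ε0 => ?_
  obtain ⟨δ, δ0, hδ⟩ := Metric.continuousAt_iff.1 (ch.continuousAt (x := z)) _ (half_pos ε0)
  have := (tendsto_pow_atTop_nhds_zero_of_lt_one (r := (1 / 2 : ℝ)) (by norm_num)
    (by norm_num)).const_mul r
  rw [mul_zero] at this
  filter_upwards [this.eventually (gt_mem_nhds δ0)] with n a
  exact (mol_near (ker_sc hρ (p0 n)) mh (Eventually.of_forall fun w b =>
    (hδ (b.trans a)).le)).trans_lt (half_lt_self ε0)

/-- The jet of the first partial derivative. -/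
def sx (f : J2) : J2 := fun a b => f (a + 1) b

/-- The jet of the second partial derivative. -/
def sy (f : J2) : J2 := fun a b => f a (b + 1)

theorem Jt.sx (h : Jt (n + 1) f) : Jt n (sx f) := h.der 1 0 le_rfl

theorem Jt.sy (h : Jt (n + 1) f) : Jt n (sy f) := h.der 0 1 le_rfl

theorem h1_cf (hf : Jt 4 f) (hg : Jt 3 g) : H1 (fun _ => 0) (cf f g)
    ![fun p => cf (sx f) g p + cf f (sx g) p, fun p => cf (sy f) g p + cf f (sy g) p] :=
  (((h1_mul hf hg le_rfl le_rfl).sub ((h1_mul hf hg le_rfl le_rfl).cmul 2) Gam.zero).add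
    (h1_mul hf hg le_rfl le_rfl) Gam.zero).congr EventuallyEq.rfl (Fin.forall_fin_two.2
      ⟨ae_of_all _ fun p => by simp [cf, sx]; ring, ae_of_all _ fun p => by simp [cf, sy]; ring⟩)

theorem h1_br (hf : Jt 3 f) (hg : Jt 3 g) {a b : ℕ} (c : a + b = 1) : H1 (fun _ => 0) (br f g a b)
    ![fun p => br (sx f) g a b p + br f g (a + 1) b p,
      fun p => br (sy f) g a b p + br f g a (b + 1) p] :=
  ((h1_mul hf hg le_rfl (by omega)).sub (h1_mul hf hg le_rfl (by omega)) Gam.zero).congr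
    EventuallyEq.rfl (Fin.forall_fin_two.2
      ⟨ae_of_all _ fun p => by simp [br, sx]; ring, ae_of_all _ fun p => by simp [br, sy]; ring⟩)

theorem mo_cf (hf : Jt 3 f) (hg : Jt 3 g) : Mo (cf f g) :=
  ((hf.mo2 hg (by omega) (by omega)).sub ((hf.mo2 hg (by omega) (by omega)).cmul 2)).add
    (hf.mo2 hg (by omega) (by omega))

theorem mo_br (hf : Jt n f) (hg : Jt n' g) {a b : ℕ} (c : 1 < n) (c' : a + b + 1 < n') :
    Mo (br f g a b) := (hf.mo2 hg (by omega) (by omega)).sub (hf.mo2 hg (by omega) (by omega))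

theorem h1_uniq {d d' : Vf} (hO : IsOpen O) (h : H1 (fun _ => 0) F d) (h' : H1 (fun _ => 0) G d')
    (e : ∀ᵐ p, p ∈ O → F p = G p) (i : Fin 2) : ∀ᵐ p, p ∈ O → d i p = d' i p :=
  WD.uniq hO ((((H1O.zero_iff.1 h).2 i).2.mono (subset_univ _)).congr e (ae_of_all _ fun _ _ => rfl))
    (((H1O.zero_iff.1 h').2 i).2.mono (subset_univ _)) (h.md i) (h'.md i)

variable {ps al pr : ℕ → J2}

theorem Tj.e0 (h : Tj O ps al pr) {a b : ℕ} (c : a + b = 1) : ∀ᵐ p, p ∈ O → lp (ps 0) a b p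
    = ps 1 a b p + (br (al 0) (ps 0) a b p + br (ps 0) (al 0) a b p) := by
  simpa using h.e1 0 a b c

theorem dt_c1 (h : Tj O ps al pr) (hO : IsOpen O) (hx : x ∈ O) :
    ContDiffAt ℝ (1 : ℕ) (dt (ps 0)) x := by
  have j4 := h.jp 0
  have j3 : Jt 3 (ps 0) := j4.mono (by omega)
  have j1 := h.jp 1
  have g3 := h.j0
  have w := fun {F d} (c : H1 (fun _ => 0) F d) i => ((H1O.zero_iff.1 c).2 i).2.mono (subset_univ O)
  have a := (h1_cf j4 j3).cmul (1 / 2)
  have e : (fun p => 1 / 2 * cf (ps 0) (ps 0) p) = dt (ps 0) :=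
    funext fun p => by simp only [cf, dt]; ring
  have k := fun {a b} (c : a + b = 1) => h1_uniq hO (j4.lp.h1 (by omega)) ((j1.h1 (by omega)).add
    ((h1_br g3 j3 c).add (h1_br j3 g3 c) Gam.zero) Gam.zero) (h.e0 c)
  have l := h1_uniq hO (h1_cf j4 g3) ((h1_cf j4 g3).cmul 0) (by simpa using h.l 0)
  have c := fun {a b} (e : a + b + 2 ≤ 4) => j4.c a b e
  have T := fun {f g : J2} {a b a' b'} (c1 : Jt 2 g) (c2 : Jt 3 f) (d : a + b = 1)
      (d' : a' + b' = 2) => (j1.mo1 (a := a') (b := b') (by omega)).add (((mo_br c1 j4 (a := a)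
        (b := b) (by omega) (by omega)).add (mo_br g3 j4 (a := a') (b := b') (by omega)
        (by omega))).add (mo_br c2 g3 (a := a) (b := b) (by omega) (by omega)))
  rw [e] at a
  refine c1L hO ?_ a.m ((w a 0).congr (ae_of_all _ fun _ _ => rfl) (ae_of_all _ fun p _ => ?_))
    (w (h1_cf j4 j4.sx) 0) ((w a 1).congr (ae_of_all _ fun _ _ => rfl) (ae_of_all _ fun p _ => ?_))
    (w (h1_cf j4 j4.sy) 1) ((h1_cf j4 j4.sx).md 0) ((h1_cf j4 j4.sy).md 1)
    ((((((mo_cf j4.sx j4.sx).add (mo_cf j4.sy j4.sy)).add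
      ((T (a := 1) (b := 0) (a' := 2) (b' := 0) g3.sx j4.sx rfl rfl).hmul (c (a := 0) (b := 2) le_rfl))).sub
      (((T (a := 1) (b := 0) (a' := 1) (b' := 1) g3.sy j4.sy rfl rfl).hmul
        (c (a := 1) (b := 1) le_rfl)).cmul 2)).add
      ((T (a := 0) (b := 1) (a' := 0) (b' := 2) g3.sy j4.sy rfl rfl).hmul (c (a := 2) (b := 0) le_rfl))).add
      (((mo_cf j4.sx g3).hmul (c (a := 0) (b := 1) (by omega))).sub
        ((mo_cf j4.sy g3).hmul (c (a := 1) (b := 0) (by omega))))) ?_ hx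
  · exact ((j4.ct le_rfl).mul (j4.ct le_rfl)).sub ((j4.ct le_rfl).pow 2)
  · simp [cf, sx]; ring
  · simp [cf, sy]; ring
  · filter_upwards [k (a := 1) (b := 0) rfl 0, k (a := 1) (b := 0) rfl 1, k (a := 0) (b := 1) rfl 1,
      l 0, l 1] with p a b c d e hp
    have a := a hp
    have b := b hp
    have c := c hp
    have d := d hp
    have e := e hp
    simp only [Matrix.cons_val_zero, Matrix.cons_val_one, cf, sx, sy, br, lp, zero_add,
      Nat.reduceAdd] at a b c d e ⊢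
    linear_combination ps 0 0 2 p * a - 2 * ps 0 1 1 p * b + ps 0 2 0 p * c
      - ps 0 0 1 p * d + ps 0 1 0 p * e

theorem c1_of {g₁ g₂ : P → ℝ} (hO : IsOpen O) (hd : ∀ y ∈ O, HasFDerivAt F (lf (g₁ y) (g₂ y)) y)
    (h1 : ContinuousOn g₁ O) (h2 : ContinuousOn g₂ O) (hx : x ∈ O) : ContDiffAt ℝ (1 : ℕ) F x :=
  contDiffAt_one_iff.2 ⟨_, O, hO.mem_nhds hx,
    (h1.smul continuousOn_const).add (h2.smul continuousOn_const), hd⟩

/-- Functions of class `C^n` on `O` agree near a point with global ones. -/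
theorem cutC {E : Type} [NormedAddCommGroup E] [NormedSpace ℝ E] (hO : IsOpen O) (hx : x ∈ O) :
    ∃ r : ℝ, 0 < r ∧ Metric.ball x r ⊆ O ∧ ∀ (n : ℕ) (f : P → E),
      (∀ y ∈ O, ContDiffAt ℝ n f y) → ∃ F, ContDiff ℝ n F ∧ ∀ y ∈ Metric.ball x r, F y = f y := by
  obtain ⟨r, r0, hr⟩ := Metric.nhds_basis_closedBall.mem_iff.1 (hO.mem_nhds hx)
  obtain ⟨χ, hχ, -, c1⟩ := exists_cut (isCompact_closedBall x r) hO hr
  refine ⟨r, r0, Metric.ball_subset_closedBall.trans hr, fun n f hf => ⟨fun p => χ p • f p,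
    contDiff_iff_contDiffAt.2 fun p => ?_, fun y hy => ?_⟩⟩
  · by_cases hp : p ∈ O
    · exact (contDiff_infty.1 hχ.1 n).contDiffAt.smul (hf p hp)
    · have : ∀ᶠ q in 𝓝 p, χ q = 0 := notMem_tsupport_iff_eventuallyEq.1 fun h => hp (hχ.2.2 h)
      exact (contDiffAt_const (c := (0 : E))).congr_of_eventuallyEq
        (this.mono fun q hq => by simp [hq])
  · simp only [c1.self_of_nhdsSet y (Metric.ball_subset_closedBall hy), one_smul]

theorem Tj.dG (h : Tj O ps al pr) (hO : IsOpen O) : ∀ y ∈ O, HasFDerivAt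
    (fun p => 1 / 2 * (lp (ps 0) 0 0 p - ps 1 0 0 p + br (al 0) (ps 0) 0 0 p))
    (lf (br (al 0) (ps 0) 1 0 y) (br (al 0) (ps 0) 0 1 y)) y := fun y hy => by
  have j4 := h.jp 0
  have g3 := h.j0
  have cb : ∀ a b, a + b ≤ 1 → Continuous (br (al 0) (ps 0) a b) := fun a b c =>
    ((g3.ct le_rfl).mul (j4.ct (by omega))).sub ((g3.ct le_rfl).mul (j4.ct (by omega)))
  have w := (H1O.zero_iff.1 ((((j4.lp.h1 (a := 0) (b := 0) (by omega)).sub ((h.jp 1).h1 (a := 0)
    (b := 0) (by omega)) Gam.zero).add ((h1_mul g3 j4 (a := 1) (b := 0) (a' := 0) (b' := 1) le_rfl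
      (by omega)).sub (h1_mul g3 j4 (a := 0) (b := 1) (a' := 1) (b' := 0) le_rfl (by omega))
      Gam.zero) Gam.zero).cmul (1 / 2))).2
  refine cwF hO (continuous_const.mul (((j4.lp.ct le_rfl).sub ((h.jp 1).ct (by omega))).add
    (cb 0 0 (by omega)))).continuousOn (cb 1 0 le_rfl).continuousOn (cb 0 1 le_rfl).continuousOn
    (((w 0).2.mono (subset_univ _)).congr (ae_of_all _ fun _ _ => rfl)
      ((h.e0 (a := 1) (b := 0) rfl).mono fun p a b => ?_))
    (((w 1).2.mono (subset_univ _)).congr (ae_of_all _ fun _ _ => rfl)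
      ((h.e0 (a := 0) (b := 1) rfl).mono fun p a b => ?_)) hy <;>
  · simp only [Matrix.cons_val_zero, Matrix.cons_val_one, a b, br, zero_add, Nat.reduceAdd]
    ring

theorem rowJetS : R1.JetS := fun O ps al pr x hO hx h => by
  obtain ⟨r, r0, hr, hc⟩ := cutC (E := ℝ) hO hx
  have j4 := h.jp 0
  have g3 := h.j0
  have cb : ∀ a b, a + b ≤ 1 → Continuous (br (al 0) (ps 0) a b) := fun a b c =>
    ((g3.ct le_rfl).mul (j4.ct (by omega))).sub ((g3.ct le_rfl).mul (j4.ct (by omega)))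
  obtain ⟨f, f1, f2⟩ := hc 1 _ fun y hy => dt_c1 h hO hy
  obtain ⟨G, g1, g2⟩ := hc 1 _ fun y hy => c1_of hO (h.dG hO) (cb 1 0 le_rfl).continuousOn
    (cb 0 1 le_rfl).continuousOn hy
  have d0 := fun a b (c : a + b = 1) y => pd0_of (j4.d a b (by omega) y)
  have d1 := fun a b (c : a + b = 1) y => pd1_of (j4.d a b (by omega) y)
  refine ⟨_, G, f, Metric.mem_ball_self r0, hr, Metric.isOpen_ball, Fin.forall_fin_two.2
    ⟨j4.cd1 le_rfl, j4.cd1 le_rfl⟩, g3.cd1 le_rfl, g1, f1, fun y _ => ?_, fun y hy => ?_,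
    fun y hy => ?_⟩
  · exact (d1 1 0 rfl y).trans (d0 0 1 rfl y).symm
  · simp only [f2 y hy, U81.Jc, Matrix.cons_val_zero, Matrix.cons_val_one, d0, d1, dt]
    ring
  · have := (h.dG hO y (hr hy)).congr_of_eventuallyEq
      (mem_of_superset (Metric.isOpen_ball.mem_nhds hy) g2)
    refine Fin.forall_fin_two.2 ⟨(pd0_of this).trans ?_, (pd1_of this).trans ?_⟩ <;>
    · simp only [Matrix.cons_val_zero, Matrix.cons_val_one, d0, d1, pd0_of (g3.d 0 0 le_rfl y),
        pd1_of (g3.d 0 0 le_rfl y), br]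
      ring

theorem rowJet : R1.OfJet := fun _ => rowJetS

end Pool.Agent.MP_ed9623_an.R77
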