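import Pool.Agent.MP_ed9623_an.R77.Eqs
import Pool.Agent.MP_ed9623_an.R1.Defs

/-! Time jets exist near every interior point. -/

open MeasureTheory Filter Topology Set
open scoped ContDiff

namespace Pool.Agent.MP_ed9623_an.R77

open H64 H77

/-- On `O`, `f` is a stream function of `v`. -/
def St (O : Set P) (v : Vf) (f : J2) : Prop :=
  ∀ᵐ p, p ∈ O → f 1 0 p = v 1 p ∧ f 0 1 p = -v 0 p

/-- The pairing of the rotated gradient with a field. -/
noncomputable def pg (e : J2) (ζ : Vf) : ℝ := (∫ x, e 1 0 x * ζ 1 x) - ∫ x, e 0 1 x * ζ 0 x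

/-- The first order terms are square integrable. -/
def M1 (e : J2) : Prop := M2 (e 1 0) ∧ M2 (e 0 1)

variable {O : Set P} {k k' : ℕ} {r r' : ℝ} {V W φ : P → ℝ} {u v ζ : Vf} {du dv : Gf}
  {e e' f g : J2}

theorem potJ (h0 : 0 < r') (h1 : r' < r) (hV : Hk (Q r) (k + 1) V) (hW : Hk (Q r) (k + 1) W)
    (hc : ∀ θ, Test (Q r) θ → ∫ x, V x * pd (ee 1) θ x = ∫ x, W x * pd (ee 0) θ x) :
    ∃ F, Jt (k + 2) F ∧ ∀ᵐ p, p ∈ Q r' → F 1 0 p = V p ∧ F 0 1 p = W p := by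
  obtain ⟨s, s1, s2⟩ := exists_between h1
  obtain ⟨a, ha⟩ := hV.der
  obtain ⟨b, hb⟩ := hW.der
  obtain ⟨π, m, w0, w1⟩ := pot (h0.trans s1) s2 hV.1 hW.1 (ha 1).2.1 (hb 0).2.1 (ha 1).1 (hb 0).1
    (ae_eq_of_int (isOpen_Q r) (hb 0).2.1 (ha 1).2.1 fun θ t => neg_injective (by
      rw [← (ha 1).1 θ t, ← (hb 0).1 θ t, hc θ t]))
  obtain ⟨-, R, r0, hR⟩ := Hk.succ (g := ![V, W]) m (Fin.forall_fin_two.2 ⟨w0, w1⟩)
    (Fin.forall_fin_two.2 ⟨hV.mono (Q_mono s2.le) le_rfl, hW.mono (Q_mono s2.le) le_rfl⟩)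
  obtain ⟨F, c, d⟩ := jetQ s1 m r0 hR
  refine ⟨F, c, ?_⟩
  filter_upwards [WD.uniq (isOpen_Q r') (((c.x 0 0 (by omega)).mono (subset_univ _)).congr d
    (ae_of_all _ fun _ _ => rfl)) (w0.mono (Q_mono s1.le)) (c.m _ _ (by omega)) hV.1,
    WD.uniq (isOpen_Q r') (((c.y 0 0 (by omega)).mono (subset_univ _)).congr d
    (ae_of_all _ fun _ _ => rfl)) (w1.mono (Q_mono s1.le)) (c.m _ _ (by omega)) hW.1] with p x y hp
  exact ⟨x hp, y hp⟩

theorem stream (h0 : 0 < r') (h1 : r' < r) (hv : VF (fun _ => 0) v dv)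
    (h : ∀ j i, Hk (Q r) k (dv j i)) : ∃ F, Jt (k + 2) F ∧ St (Q r') v F := by
  refine potJ h0 h1 (vf_val hv h 1) (by simpa using (vf_val hv h 0).cmul (-1)) fun θ t => ?_
  rw [vf_w hv _ 1 1 θ t, (vf_w hv _ 0 0).neg θ t]
  exact congrArg _ (integral_congr_ae (hv.dv.mono fun p a => by
    simp only [eq_neg_of_add_eq_zero_right a]))

theorem pg_add (h : M1 e) (h' : M1 e') (hζ : ∀ j, M2 (ζ j)) :
    pg (fun a b p => e a b p + e' a b p) ζ = pg e ζ + pg e' ζ := by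
  simp only [pg, add_mul]
  rw [integral_add (h.1.int_mul (hζ 1)) (h'.1.int_mul (hζ 1)),
    integral_add (h.2.int_mul (hζ 0)) (h'.2.int_mul (hζ 0))]
  ring

theorem pg_cmul (c : ℝ) (e : J2) (ζ : Vf) : pg (fun a b p => c * e a b p) ζ = c * pg e ζ := by
  simp only [pg, mul_assoc, integral_const_mul, mul_sub]

theorem M1.add (h : M1 e) (h' : M1 e') : M1 fun a b p => e a b p + e' a b p :=
  ⟨h.1.add h'.1, h.2.add h'.2⟩

theorem pg_sum {s : Finset ℕ} {c : ℕ → ℝ} {e e' : ℕ → J2} (h : ∀ i, M1 (e i)) (h' : ∀ i, M1 (e' i)) :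
    M1 (fun a b p => ∑ i ∈ s, c i * (e i a b p + e' i a b p)) ∧ ∀ ζ, (∀ j, M2 (ζ j)) →
      pg (fun a b p => ∑ i ∈ s, c i * (e i a b p + e' i a b p)) ζ
        = ∑ i ∈ s, c i * (pg (e i) ζ + pg (e' i) ζ) := by
  induction s using Finset.induction_on with
  | empty => exact ⟨⟨M2.zero, M2.zero⟩, fun _ _ => by simp [pg]⟩
  | insert a s ha ih =>
    simp only [Finset.sum_insert ha]
    have m : M1 fun x y p => c a * (e a x y p + e' a x y p) :=
      ⟨((h a).add (h' a)).1.cmul _, ((h a).add (h' a)).2.cmul _⟩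
    exact ⟨m.add ih.1, fun ζ b => by rw [pg_add m ih.1 b, ih.2 ζ b, pg_cmul, pg_add (h a) (h' a) b]⟩

theorem ae_of_pg (hO : IsOpen O) (h : M1 e) (h' : M1 e')
    (he : ∀ ζ, (∀ j, Test O (ζ j)) → pg e ζ = pg e' ζ) {a b : ℕ} (c : a + b = 1) :
    ∀ᵐ p, p ∈ O → e a b p = e' a b p := by
  obtain ⟨rfl, rfl⟩ | ⟨rfl, rfl⟩ := one_cases c
  · exact ae_eq_of_int hO h.1 h'.1 fun φ t => by simpa [pg] using he _ (test_single t 1)
  · exact ae_eq_of_int hO h.2 h'.2 fun φ t => by simpa [pg] using he _ (test_single t 0)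

theorem Jt.m1 (h : Jt k f) (c : 1 ≤ k) : M1 f := ⟨h.m _ _ c, h.m _ _ c⟩

theorem Jt.lp (h : Jt (k + 2) f) : Jt k (lp f) := (h.der 2 0 le_rfl).add (h.der 0 2 le_rfl)

theorem m1_br (hf : Jt 3 f) (hg : Jt 3 g) : M1 (br f g) :=
  ⟨((hf.c _ _ le_rfl).mul2 (hg.m _ _ (by omega))).sub ((hf.c _ _ le_rfl).mul2 (hg.m _ _ (by omega))),
    ((hf.c _ _ le_rfl).mul2 (hg.m _ _ (by omega))).sub
      ((hf.c _ _ le_rfl).mul2 (hg.m _ _ (by omega)))⟩

theorem h1_mul (hf : Jt k f) (hg : Jt k' g) {a b a' b' : ℕ} (c : a + b + 2 ≤ k)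
    (c' : a' + b' + 1 ≤ k') : H1 (fun _ => 0) (fun p => f a b p * g a' b' p)
      ![fun p => f (a + 1) b p * g a' b' p + f a b p * g (a' + 1) b' p,
        fun p => f a (b + 1) p * g a' b' p + f a b p * g a' (b' + 1) p] :=
  H1O.zero_iff.2 ⟨(hf.c _ _ c).mul2 (hg.m _ _ (by omega)), Fin.forall_fin_two.2
    ⟨⟨(hf.mul2 hg (by omega) c').add ((hf.c _ _ c).mul2 (hg.m _ _ (by omega))),
      wPrd.1 _ _ _ _ _ _ isOpen_univ (hf.m _ _ (by omega)) (hf.m _ _ (by omega))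
        (hg.m _ _ (by omega)) (hg.m _ _ (by omega)) (hf.x _ _ (by omega)) (hg.x _ _ c')⟩,
    (hf.mul2 hg (by omega) c').add ((hf.c _ _ c).mul2 (hg.m _ _ (by omega))),
      wPrd.1 _ _ _ _ _ _ isOpen_univ (hf.m _ _ (by omega)) (hf.m _ _ (by omega))
        (hg.m _ _ (by omega)) (hg.m _ _ (by omega)) (hf.y _ _ (by omega)) (hg.y _ _ c')⟩⟩

theorem hk_h1 {d : Vf} (h : H1 (fun _ => 0) V d) : Hk O 1 V :=
  Hk.succ h.m (fun i => ((H1O.zero_iff.1 h).2 i).2.mono (subset_univ _)) fun i => Hk.zero (h.md i)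

theorem Hk.sub (h : Hk O k V) (h' : Hk O k W) : Hk O k fun p => V p - W p := by
  simpa only [neg_one_mul, sub_eq_add_neg] using h.add (h'.cmul (-1))

theorem Hk.sum {s : Finset ℕ} {F : ℕ → P → ℝ} (h : ∀ i, Hk O k (F i)) :
    Hk O k fun p => ∑ i ∈ s, F i p := by
  induction s using Finset.induction_on with
  | empty => exact ⟨M2.zero, 0, le_rfl, fun _ _ _ _ => by simp⟩
  | insert a s ha ih => simpa only [Finset.sum_insert ha] using (h a).add ih

theorem hk_br (hf : Jt 3 f) (hg : Jt 3 g) {a b : ℕ} (c : a + b = 1) : Hk O 1 (br f g a b) :=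
  (hk_h1 (h1_mul hf hg le_rfl (by omega))).sub (hk_h1 (h1_mul hf hg le_rfl (by omega)))

theorem m2_cf (hf : Jt 3 f) (hg : Jt 3 g) : M2 (cf f g) :=
  ((hf.mul2 hg (by omega) (by omega)).sub ((hf.mul2 hg (by omega) (by omega)).cmul 2)).add
    (hf.mul2 hg (by omega) (by omega))

theorem pg_grad (h : Jt 2 f) (t : Test univ φ) : pg f (grad (fun _ => 0) φ) = 0 := by
  simp only [pg, grad, dd_zero]
  rw [h.y 1 0 (by omega) φ t, h.x 0 1 (by omega) φ t, sub_self]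

theorem pg_br (hf : Jt 3 f) (hg : Jt 3 g) (t : Test univ φ) :
    pg (br f g) (grad (fun _ => 0) φ) = ∫ x, cf f g x * φ x := by
  have a := (H1O.zero_iff.1 ((h1_mul hf hg (a := 1) (b := 0) (a' := 1) (b' := 1) le_rfl le_rfl).sub
    (h1_mul hf hg (a := 0) (b := 1) (a' := 2) (b' := 0) le_rfl le_rfl) Gam.zero)).2 1
  have b := (H1O.zero_iff.1 ((h1_mul hf hg (a := 1) (b := 0) (a' := 0) (b' := 2) le_rfl le_rfl).sub
    (h1_mul hf hg (a := 0) (b := 1) (a' := 1) (b' := 1) le_rfl le_rfl) Gam.zero)).2 0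
  simp only [pg, grad, dd_zero]
  refine (congrArg₂ _ (a.2 φ t) (b.2 φ t)).trans ?_
  rw [neg_sub_neg, ← integral_sub (b.1.int_mul t.m2) (a.1.int_mul t.m2)]
  refine integral_congr_ae (Eventually.of_forall fun p => ?_)
  simp [cf]
  ring

theorem St.ip (h : St O v f) (hζ : ∀ j, Test O (ζ j)) : ip v ζ = pg f ζ := by
  rw [H77.ip, pg, Fin.sum_univ_two, int_test_congr (fun _ => (hζ 1).off) (h.mono fun _ a b => (a b).1),
    int_test_congr (fun _ => (hζ 0).off) (h.mono fun _ a b => (a b).2)]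
  simp only [neg_mul, integral_neg]
  ring

theorem St.d (h : St O v f) (hO : IsOpen O) (hv : VF (fun _ => 0) v dv) (hf : Jt 3 f) :
    ∀ᵐ p, p ∈ O → f 2 0 p = dv 1 0 p ∧ f 1 1 p = dv 1 1 p ∧ f 1 1 p = -dv 0 0 p ∧
      f 0 2 p = -dv 0 1 p := by
  have a := h.mono fun _ a b => (a b).1
  have b := h.mono fun _ a b => (a b).2
  have m := fun j => (hv.h1 j).md
  filter_upwards [WD.uniq hO (((hf.x 1 0 (by omega)).mono (subset_univ _)).congr a
      (ae_of_all _ fun _ _ => rfl)) (vf_w hv O 1 0) (hf.m _ _ (by omega)) (m 1 0),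
    WD.uniq hO (((hf.y 1 0 (by omega)).mono (subset_univ _)).congr a
      (ae_of_all _ fun _ _ => rfl)) (vf_w hv O 1 1) (hf.m _ _ (by omega)) (m 1 1),
    WD.uniq hO (((hf.x 0 1 (by omega)).mono (subset_univ _)).congr b
      (ae_of_all _ fun _ _ => rfl)) (vf_w hv O 0 0).neg (hf.m _ _ (by omega)) (m 0 0).neg,
    WD.uniq hO (((hf.y 0 1 (by omega)).mono (subset_univ _)).congr b
      (ae_of_all _ fun _ _ => rfl)) (vf_w hv O 0 1).neg (hf.m _ _ (by omega)) (m 0 1).neg] with p a b c d hp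
  exact ⟨a hp, b hp, c hp, d hp⟩

theorem St.di (h : St O v f) (hO : IsOpen O) (hv : VF (fun _ => 0) v dv) (hf : Jt 3 f)
    (hζ : ∀ j, Test O (ζ j)) : di (fun _ => 0) dv ζ = -pg (lp f) ζ := by
  have d := h.d hO hv hf
  have o := fun j i x => ((hζ j).pd (ee i)).off (x := x)
  have a1 := int_test_congr (o 1 0) (d.mono fun _ a b => (a b).1)
  have a2 := int_test_congr (o 1 1) (d.mono fun _ a b => (a b).2.1)
  have a3 := int_test_congr (o 0 0) (d.mono fun _ a b => (a b).2.2.1)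
  have a4 := int_test_congr (o 0 1) (d.mono fun _ a b => (a b).2.2.2)
  rw [hf.x 2 0 (by omega) _ (hζ 1).top] at a1
  rw [hf.y 1 1 (by omega) _ (hζ 1).top] at a2
  rw [hf.x 1 1 (by omega) _ (hζ 0).top] at a3
  rw [hf.y 0 2 (by omega) _ (hζ 0).top] at a4
  simp only [H77.di, pg, lp, Fin.sum_univ_two, dd_zero, add_mul, neg_mul, integral_neg] at a3 a4 ⊢
  rw [integral_add ((hf.m _ _ le_rfl).int_mul (hζ 1).m2) ((hf.m _ _ le_rfl).int_mul (hζ 1).m2),
    integral_add ((hf.m _ _ le_rfl).int_mul (hζ 0).m2) ((hf.m _ _ le_rfl).int_mul (hζ 0).m2)]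
  simp only [Nat.reduceAdd, zero_add] at a1 a2 a3 a4 ⊢
  linarith

theorem St.tl (h' : St O u g) (h : St O v f) (hO : IsOpen O) (hu : VF (fun _ => 0) u du)
    (hv : VF (fun _ => 0) v dv) (hf : Jt 3 f) (hζ : ∀ j, Test O (ζ j)) :
    tl (fun _ => 0) u v ζ = -pg (br g f) ζ := by
  rw [wPrd.2 _ _ _ _ _ _ Gam.zero hu hv.h1 fun j => (hζ j).top, St.ip (f := br g f) ?_ hζ]
  filter_upwards [h', h.d hO hv hf] with p a b hp
  obtain ⟨a1, a2⟩ := a hp
  obtain ⟨b1, b2, b3, b4⟩ := b hp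
  simp only [br, Fin.sum_univ_two, Nat.reduceAdd, zero_add, a1, a2, b1, b4]
  exact ⟨by rw [b2]; ring, by rw [b3]; ring⟩

theorem Eqs.jets {A W : ℕ → Vf} {dA dW : ℕ → Gf} (h : Eqs (Q r) A W dA dW) (h0 : 0 < r')
    (h1 : r' < r) : ∃ ps al pr, Tj (Q r') ps al pr ∧
      ∀ j, St (Q r') (W j) (ps j) ∧ St (Q r') (A j) (al j) := by
  obtain ⟨s, s1, s2⟩ := exists_between h1
  obtain ⟨ρ, r1, r2⟩ := exists_between s1
  have s0 := h0.trans s1
  have r0 := h0.trans r1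
  choose ps jp sp using fun j => stream r0 r2 (h.vw j) (h.h2 s0 s2 j).2
  have : ∀ j, ∃ F, (Jt 3 F ∧ (0 < j → Jt 4 F)) ∧ St (Q ρ) (A j) F := fun j => by
    cases j with
    | zero => exact (stream r0 r2 (h.va 0) (h.h1 0 s s0 s2).1).imp fun F a =>
        ⟨⟨a.1, fun b => absurd b (lt_irrefl 0)⟩, a.2⟩
    | succ j => exact (stream r0 r2 (h.va _) (h.h2 s0 s2 j).1).imp fun F a =>
        ⟨⟨a.1.mono (by omega), fun _ => a.1⟩, a.2⟩
  choose al ja sa using this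
  have j3 := fun j => (ja j).1
  have j4 := fun j => (ja (j + 1)).2 j.succ_pos
  have p3 := fun j => (jp j).mono (show 3 ≤ 2 + 2 by omega)
  have h' := h.mono (Q_mono (r2.trans s2).le)
  have o := isOpen_Q ρ
  have ew : ∀ m ζ, (∀ j, Test (Q ρ) (ζ j)) → pg (lp (ps m)) ζ = pg (ps (m + 1)) ζ +
      ∑ i ∈ Finset.range (m + 1), (m.choose i : ℝ) *
        (pg (br (al i) (ps (m - i))) ζ + pg (br (ps (m - i)) (al i)) ζ) := fun m ζ t => by
    have := h'.ew m ζ t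
    simp only [(sp _).di o (h.vw _) (p3 _) t, (sp _).ip t,
      fun i j => (sa i).tl (sp j) o (h.va _) (h.vw _) (p3 _) t,
      fun i j => (sp i).tl (sa j) o (h.vw _) (h.va _) (j3 _) t, ← neg_add, mul_neg,
      Finset.sum_neg_distrib] at this
    linarith
  have nm := fun m => pg_sum (s := Finset.range (m + 1)) (c := fun i => (m.choose i : ℝ))
    (fun i => m1_br (j3 i) (j3 (m - i))) fun i => m1_br (p3 i) (p3 (m - i))
  have hk : ∀ m a b, a + b = 1 → Hk (Q ρ) 1 fun p => lp (al (m + 1)) a b p + -1 *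
      (al (m + 2) a b p + nl ps al (m + 1) a b p) := fun m a b c =>
    (hk_h1 ((j4 m).lp.h1 (by omega))).add (((hk_h1 ((j3 _).h1 (by omega))).add (Hk.sum fun i =>
      ((hk_br (j3 _) (j3 _) c).add (hk_br (p3 _) (p3 _) c)).cmul _)).cmul _)
  choose pr jr sr using fun m => potJ h0 r1 ((hk m 0 1 rfl).cmul (-1)) (hk m 1 0 rfl) fun θ t => by
    have t' := t.perp Gam.zero
    have m' := fun j => (t' j).m2
    have n := ((j3 (m + 2)).m1 (by omega)).add (nm (m + 1)).1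
    have e := pg_add ((j4 m).lp.m1 (by omega)) (e' := fun a b p => -1 *
      (al (m + 2) a b p + nl ps al (m + 1) a b p)) ⟨n.1.cmul _, n.2.cmul _⟩ m'
    have := h'.ea m θ t
    simp only [(sa _).di o (h.va _) (j3 _) t', (sa _).ip t',
      fun i j => (sa i).tl (sa j) o (h.va _) (h.va _) (j3 _) t',
      fun i j => (sp i).tl (sp j) o (h.vw _) (h.vw _) (p3 _) t', ← neg_add, mul_neg,
      Finset.sum_neg_distrib] at this
    rw [pg_cmul, show pg (fun a b p => al (m + 2) a b p + nl ps al (m + 1) a b p) _ = _ from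
      (pg_add ((j3 _).m1 (by omega)) (nm (m + 1)).1 m').trans
        (congrArg _ ((nm (m + 1)).2 _ m'))] at e
    replace e := e.trans (c := 0) (by linarith)
    simp only [pg, perp, dd_zero, Matrix.cons_val_zero, Matrix.cons_val_one, mul_neg,
      integral_neg] at e
    simp only [mul_assoc (-1 : ℝ), integral_const_mul]
    linarith
  have sub := Q_mono r1.le
  refine ⟨ps, al, pr, ⟨jp, j3 0, j4, jr, fun j a b c => ?_, fun j => (sr j).mono fun p a hp => ?_,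
    fun j => ?_⟩, fun j => ⟨(sp j).mono fun _ a b => a (sub b), (sa j).mono fun _ a b => a (sub b)⟩⟩
  · have n := pg_sum (s := Finset.range (j + 1)) (c := fun i => (j.choose i : ℝ))
      (fun i => m1_br (j3 i) (p3 (j - i))) fun i => m1_br (p3 (j - i)) (j3 i)
    exact (ae_of_pg o ((jp j).lp.m1 (by omega)) (((p3 (j + 1)).m1 (by omega)).add n.1) (fun ζ t => by
      rw [pg_add ((p3 _).m1 (by omega)) n.1 fun j => (t j).m2, n.2 _ fun j => (t j).m2, ew j ζ t])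
      c).mono fun _ a b => a (sub b)
  · constructor <;> linarith [(a hp).1, (a hp).2]
  · refine (van_of_int o (Hk.sum (O := univ) fun i =>
      (Hk.zero (m2_cf (p3 _) (j3 _))).cmul _).1.loc fun φ t => ?_).mono sub
    have := ew j _ fun i => t.dd Gam.zero i
    have e : ∀ f g, cf f g = cf g f := fun f g => funext fun p => by simp only [cf]; ring
    erw [pg_grad (jp j).lp t.top, pg_grad ((jp _).mono (by omega)) t.top] at this
    simp only [Finset.sum_mul, mul_assoc]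
    rw [integral_finsetSum _ fun i _ => ((m2_cf (p3 _) (j3 _)).int_mul t.m2).const_mul _]
    refine mul_left_cancel₀ two_ne_zero (((Finset.mul_sum _ _ _).trans
      (Finset.sum_congr rfl fun i _ => ?_)).trans (((zero_add _).symm.trans this.symm).trans
        (mul_zero _).symm))
    erw [pg_br (j3 _) (p3 _) t.top, pg_br (p3 _) (j3 _) t.top]
    rw [integral_const_mul, e (al i)]
    ring

theorem rowLk : R1.LkS := fun Ω g R a w hΩ h x hx => by
  obtain ⟨r, r0, hr⟩ := Metric.isOpen_iff.1 hΩ x hx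
  have u : ((1, 0) : P).1 ^ 2 + ((1, 0) : P).2 ^ 2 = 1 := by simp
  have m : ∀ x p : P, mo x (1, 0) p = x + p := Th_tr
  have s : ∀ p ∈ Q r, x + p ∈ Ω := fun p hp => hr (by simpa [Q_eq_ball] using hp)
  choose ps al pr hj hs using fun t => (((eqs_of h t).rot x u).mono (O' := Q r) fun p hp => by
    rw [mem_preimage, Th_tr]; exact s p hp).jets (half_pos r0) (half_lt_self r0)
  have k : ∀ {v F}, St (Q (r / 2)) (tv x (1, 0) (fun _ => 0) (vl v)) F →
      St2 (mo (-x) (1, 0) ⁻¹' Q (r / 2)) v (rot (-x) (1, 0) F) := fun c =>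
    (ae_mo (x := -x) u c).mono fun p d hp => by
      simpa [rot10, rot01, tv, Rm, Th_tr, m] using d hp
  exact ⟨_, _, _, _, by simp [m, Q_eq_ball, r0], fun p hp => by
    simpa [m] using s _ (Q_mono (half_le_self r0.le) hp), (isOpen_Q _).preimage (ct_mo _ _),
    fun t => (hj t).rot (-x) u, fun t j => k (hs t j).1, fun t j => k (hs t j).2⟩

end Pool.Agent.MP_ed9623_an.R77
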