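import Pool.Agent.MP_ed9623_an.R77.Rd1

/-! Degenerate pieces of the boundary of the zone: third derivatives, and closed fields. -/

open Filter Topology Set

namespace Pool.Agent.MP_ed9623_an.R77

open H64 H77 R1

variable {n : ℝ} {O W Z : Set P} {ps al pr : ℝ → ℕ → J2} {x p : P} {w w₁ w₂ v₁ v₂ : P → ℂ}

theorem Ad.ext (a : Ad W Z w w₁ w₂) (hW : IsOpen W) (hZ : IsOpen Z)
    (z : ∀ p ∈ W ∩ closure Z, p ∉ Z → w p = 0 ∧ w₁ p = 0 ∧ w₂ p = 0) (hp : p ∈ W) :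
    HasFDerivAt (Z.indicator w) (lc (Z.indicator w₁ p) (Z.indicator w₂ p)) p ∧
      ContinuousAt (Z.indicator w₁) p ∧ ContinuousAt (Z.indicator w₂) p := by
  have e : lc 0 0 = 0 := by ext <;> simp
  have c : ∀ {v : P → ℂ}, ContinuousOn v (W ∩ closure Z) → p ∈ Z → ContinuousAt v p := fun c d =>
    c.continuousAt (mem_of_superset ((hW.inter hZ).mem_nhds ⟨hp, d⟩) fun _ f =>
      ⟨f.1, subset_closure f.2⟩)
  refine ⟨(ext_der hW hZ a.d (fun q b c d => ⟨Ad.tz a.c hW ⟨b, c⟩ (z q ⟨b, c⟩ d).1,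
    (cd_lc.continuous.tendsto' (0, 0) 0 e).comp (f := fun y => (w₁ y, w₂ y))
      ((Ad.tz a.c1 hW ⟨b, c⟩ (z q ⟨b, c⟩ d).2.1).prodMk_nhds
        (Ad.tz a.c2 hW ⟨b, c⟩ (z q ⟨b, c⟩ d).2.2))⟩) hp).congr_fderiv ?_,
    ext_ct hZ (c a.c1) fun b d => Ad.tz a.c1 hW ⟨hp, b⟩ (z p ⟨hp, b⟩ d).2.1,
    ext_ct hZ (c a.c2) fun b d => Ad.tz a.c2 hW ⟨hp, b⟩ (z p ⟨hp, b⟩ d).2.2⟩
  by_cases b : p ∈ Z
  · simp only [indicator_of_mem b]
  · simp only [indicator_of_notMem b, e]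

theorem Ad.congr (a : Ad W Z w w₁ w₂) (c1 : ContinuousOn v₁ (W ∩ closure Z))
    (c2 : ContinuousOn v₂ (W ∩ closure Z)) (e : ∀ p ∈ W ∩ Z, w₁ p = v₁ p ∧ w₂ p = v₂ p) :
    Ad W Z w v₁ v₂ := ⟨a.c, c1, c2, fun p b => (e p b).1 ▸ (e p b).2 ▸ a.d p b⟩

/-- Unique continuation for a closed field which vanishes to first order on the boundary. -/
theorem potV {g₁ g₂ a b d : P → ℂ} {C : ℝ} (hW : IsOpen W) (cW : Convex ℝ W) (hZ : IsOpen Z)
    (A1 : Ad W Z g₁ a b) (A2 : Ad W Z g₂ b d) (z : ∀ p ∈ W ∩ closure Z, p ∉ Z →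
      (g₁ p = 0 ∧ a p = 0 ∧ b p = 0) ∧ g₂ p = 0 ∧ b p = 0 ∧ d p = 0) (C0 : 0 ≤ C)
    (L : ∀ p ∈ W ∩ Z, ‖a p + d p‖ ≤ C * (‖g₁ p‖ + ‖g₂ p‖)) (hx : x ∈ W) (xn : x ∉ closure Z) :
    ∀ p ∈ W ∩ Z, g₁ p = 0 ∧ g₂ p = 0 := by
  have e1 := fun p => A1.ext (p := p) hW hZ fun p c e => (z p c e).1
  have e2 := fun p => A2.ext (p := p) hW hZ fun p c e => (z p c e).2
  obtain ⟨κ, hκ⟩ := cW.exists_forall_hasFDerivWithinAt_of_hasFDerivWithinAt_symmetric (𝕜 := ℝ)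
    (ω := fun p => lc (Z.indicator g₁ p) (Z.indicator g₂ p)) (fun p c =>
      (((ContinuousLinearMap.smulRightL ℝ P ℂ _).hasFDerivAt.comp p (e1 p c).1).add
        ((ContinuousLinearMap.smulRightL ℝ P ℂ _).hasFDerivAt.comp p (e2 p c).1)).hasFDerivWithinAt)
    fun p _ u _ v _ => by simp; ring
  have dκ : ∀ p ∈ W, HasFDerivAt (fun y => κ y - κ x) (lc (Z.indicator g₁ p) (Z.indicator g₂ p)) p :=
    fun p c => ((hκ p c).hasFDerivAt (hW.mem_nhds c)).sub_const _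
  have c1 : ∀ {g a b : P → ℂ}, (∀ p ∈ W, HasFDerivAt g (lc (a p) (b p)) p ∧ ContinuousAt a p ∧
      ContinuousAt b p) → ∀ p ∈ W, ContDiffAt ℝ (1 : ℕ) g p := fun e p c =>
    contDiffAt_one_iff.2 ⟨_, W, hW.mem_nhds c, fun y f => (cd_lc.continuous.continuousAt.comp
      ((e y f).2.1.prodMk (e y f).2.2)).continuousWithinAt, fun y f => (e y f).1⟩
  have := ucC (ι := Unit) (f := fun _ y => κ y - κ x) (c := C) hW cW.isPreconnected
    (fun _ p c => (contDiffAt_succ_iff_hasFDerivAt (n := 1)).2 ⟨_, ⟨W, hW.mem_nhds c, dκ⟩,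
      (cd_lc.of_le le_top).contDiffAt.comp p ((c1 e1 p c).prodMk (c1 e2 p c))⟩)
    (fun _ p c => ?_) hx ?_ ()
  · intro p c
    have := (dκ p c.1).unique ((hasFDerivAt_const 0 p).congr_of_eventuallyEq
      (mem_of_superset (hW.mem_nhds c.1) this))
    rw [indicator_of_mem c.2, indicator_of_mem c.2] at this
    simpa using And.intro (congrArg (fun L : P →L[ℝ] ℂ => L (1, 0)) this)
      (congrArg (fun L : P →L[ℝ] ℂ => L (0, 1)) this)
  · rw [lapC, (cd_congr _ (mem_of_superset (hW.mem_nhds c) fun y f => cd0_of (dκ y f))).eq_of_nhds,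
      (cd_congr _ (mem_of_superset (hW.mem_nhds c) fun y f => cd1_of (dκ y f))).eq_of_nhds,
      cd0_of (e1 p c).1, cd1_of (e2 p c).1, Fintype.sum_unique, cd0_of (dκ p c), cd1_of (dκ p c)]
    by_cases f : p ∈ Z
    · simp only [indicator_of_mem f]
      exact (L p ⟨c, f⟩).trans (mul_le_mul_of_nonneg_left (by linarith [norm_nonneg (κ p - κ x)]) C0)
    · simp only [indicator_of_notMem f, add_zero, norm_zero]
      positivity
  · refine (loc_const (f := fun y => κ y - κ x) ?_).mono fun y c _ => c.trans (sub_self _)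
    filter_upwards [ind_out g₁ xn, ind_out g₂ xn, hW.mem_nhds hx] with y c e f
    exact (dκ y f).congr_fderiv (by rw [c, e]; ext <;> simp)

/-- The case in which the gradient of the determinant vanishes on the boundary; `T`, `T'` are the
mixed derivatives of order three of the amplitude. -/
structure C2 (n : ℝ) (W Z : Set P) (ps al pr : ℝ → ℕ → J2) (T T' : P → ℂ) : Prop
    extends Bad n W Z ps al pr where
  u : ∀ p ∈ W, cz n ps 0 2 p ≠ 0
  e : ∀ p ∈ W, cz n ps 2 0 p + cz n ps 0 2 p ≠ 0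
  a20 : Ad W Z (cz n ps 2 0) (fun p => Complex.I * √n * cz n ps 1 0 p - T p) T'
  a11 : Ad W Z (cz n ps 1 1) T' T
  a02 : Ad W Z (cz n ps 0 2) T fun p => Complex.I * √n * cz n ps 0 1 p - T' p
  s : ∀ p ∈ W ∩ closure Z, p ∉ Z → ∃ (l : ℝ) (β : ℂ), cz n ps 1 1 p = l * cz n ps 0 2 p ∧
    cz n ps 2 0 p = l ^ 2 * cz n ps 0 2 p ∧ T p - l * (Complex.I * √n * cz n ps 0 1 p - T' p) = β ∧
    T' p - l * T p = l * β ∧ Complex.I * √n * cz n ps 1 0 p - T p - l * T' p = l ^ 2 * β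

theorem C2.mono {T T' : P → ℂ} (h : C2 n O Z ps al pr T T') (o : IsOpen W) (hW : W ⊆ O) :
    C2 n W Z ps al pr T T' :=
  ⟨h.toBad.mono o hW, fun p a => h.u p (hW a), fun p a => h.e p (hW a), h.a20.mono hW,
    h.a11.mono hW, h.a02.mono hW, fun p a => h.s p ⟨hW a.1, a.2⟩⟩

theorem Bad.c2 (b : Bad n O Z ps al pr) (hz' : CzS) (ha : AnZS)
    (d : ∀ p ∈ O ∩ closure Z, p ∉ Z → ∀ t e, pd e (dt (ps t 0)) p = 0)
    (hx : x ∈ O ∩ closure Z) (xn : x ∉ Z) (u : cz n ps 0 2 x ≠ 0) :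
    ∃ W T T', x ∈ W ∧ C2 n W Z ps al pr T T' := by
  have c := fun i j (e : i + j ≤ 2) => cz_ct (n := n) b.j4 e
  have c20 := c 2 0 le_rfl
  have c11 := c 1 1 le_rfl
  have c02 := c 0 2 le_rfl
  have c10 := c 1 0 one_le_two
  have c01 := c 0 1 one_le_two
  obtain ⟨W, hW, oW, xW⟩ := eventually_nhds_iff.1 (((c02.continuousAt.eventually_ne u).and
    ((c20.add c02).continuousAt.eventually_ne (b.tr hz' hx xn u))).and
    (((show Continuous fun x => (cz n ps 2 0 x - cz n ps 0 2 x) ^ 2 + (2 * cz n ps 1 1 x) ^ 2 by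
      fun_prop).continuousAt.eventually_ne (y := 0) fun e => pow_ne_zero 2 (b.tr hz' hx xn u)
        (by linear_combination e + 4 * b.del hz' hx xn)).and (b.oO.mem_nhds hx.1)))
  have WO : W ⊆ O := fun p a => (hW p a).2.2
  have f := fun t => (ad_real (Z := Z) fun p => dt_c1 (x := p) (b.tj t) b.oO).mono WO
  obtain ⟨D₁, D₂, A, z⟩ : ∃ D₁ D₂ : P → ℂ, Ad W Z (fun p => cz n ps 2 0 p * cz n ps 0 2 p
      - cz n ps 1 1 p * cz n ps 1 1 p) D₁ D₂ ∧ ∀ p ∈ W ∩ closure Z, p ∉ Z → D₁ p = 0 ∧ D₂ p = 0 :=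
    have A := ((f 0).sub (f (Real.pi / (2 * √n)))).add ((((f 0).add (f (Real.pi / (2 * √n)))).sub
      ((f (Real.pi / (4 * √n))).cmul 2)).cmul Complex.I)
    ⟨_, _, ⟨((c20.mul c02).sub (c11.mul c11)).continuousOn, A.c1, A.c2, fun p a =>
      (A.d p a).congr_of_eventuallyEq (mem_of_superset ((oW.inter b.oZ).mem_nhds a) fun y e =>
        (b.dt3 hz' ⟨WO e.1, subset_closure e.2⟩).2)⟩,
      fun p a e => by simp [d p ⟨WO a.1, a.2⟩ e]⟩
  obtain ⟨T, T', cT, cT', e⟩ : ∃ T T' : P → ℂ, ContinuousOn T (W ∩ closure Z) ∧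
      ContinuousOn T' (W ∩ closure Z) ∧ ∀ p ∈ W, ∀ X Y : ℂ, (X = T p ∧ Y = T' p) ↔
        (Complex.I * √n * cz n ps 1 0 p - X) * cz n ps 0 2 p + cz n ps 2 0 p * X
          - (Y * cz n ps 1 1 p + cz n ps 1 1 p * Y) = D₁ p ∧ Y * cz n ps 0 2 p + cz n ps 2 0 p
          * (Complex.I * √n * cz n ps 0 1 p - Y) - (X * cz n ps 1 1 p + cz n ps 1 1 p * X) = D₂ p := by
    have k1 := A.c1.sub ((continuous_const (y := Complex.I * √n).mul c10).mul c02).continuousOn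
    have k2 := A.c2.sub ((continuous_const (y := Complex.I * √n).mul c01).mul c20).continuousOn
    have cA := (c20.sub c02).continuousOn (s := W ∩ closure Z)
    have cB := (continuous_const (y := (2 : ℂ)).mul c11).continuousOn (s := W ∩ closure Z)
    have cM := (cA.pow 2).add (cB.pow 2)
    refine ⟨_, _, ((cA.mul k1).sub (cB.mul k2)).div cM fun p a => (hW p a.1).2.1,
      ((cB.mul k1).neg.sub (cA.mul k2)).div cM fun p a => (hW p a.1).2.1, fun p a X Y => ?_⟩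
    have m := (hW p a).2.1
    simp only [Pi.add_apply, Pi.sub_apply, Pi.mul_apply, Pi.div_apply, Pi.neg_apply,
      Pi.pow_apply] at m ⊢
    rw [eq_div_iff m, eq_div_iff m]
    exact ⟨fun ⟨g, k⟩ => ⟨mul_left_cancel₀ m (by
      linear_combination (cz n ps 2 0 p - cz n ps 0 2 p) * g - 2 * cz n ps 1 1 p * k),
      mul_left_cancel₀ m (by
        linear_combination -(2 * cz n ps 1 1 p) * g - (cz n ps 2 0 p - cz n ps 0 2 p) * k)⟩,
      fun ⟨g, k⟩ => ⟨by linear_combination (cz n ps 2 0 p - cz n ps 0 2 p) * g - 2 * cz n ps 1 1 p * k,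
        by linear_combination -(2 * cz n ps 1 1 p) * g - (cz n ps 2 0 p - cz n ps 0 2 p) * k⟩⟩
  have key : ∀ p ∈ W ∩ Z, HasFDerivAt (cz n ps 2 0) (lc (Complex.I * √n * cz n ps 1 0 p - T p) (T' p)) p
      ∧ HasFDerivAt (cz n ps 1 1) (lc (T' p) (T p)) p ∧
      HasFDerivAt (cz n ps 0 2) (lc (T p) (Complex.I * √n * cz n ps 0 1 p - T' p)) p := fun p a => by
    have an := fun i j e => ((ha n O Z ps al pr b.l0 p ⟨WO a.1, a.2⟩).1 i j e).1
    have h20 := hasF_cd (an 2 0 (Or.inr rfl)).differentiableAt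
    have h11 := hasF_cd (an 1 1 (Or.inr rfl)).differentiableAt
    have h02 := hasF_cd (an 0 2 (Or.inr rfl)).differentiableAt
    have s1 := cd_comm (ee 1) (ee 0) (an 1 0 (Or.inl rfl)).contDiffAt
    have s2 := cd_comm (ee 0) (ee 1) (an 0 1 (Or.inl rfl)).contDiffAt
    rw [cd0_cz b.j4 (a := 1) le_rfl, cd1_cz b.j4 (a := 1) le_rfl] at s1
    rw [cd0_cz b.j4 (b := 1) le_rfl, cd1_cz b.j4 (b := 1) le_rfl] at s2
    have hE := ((b.adE ha).d p ⟨WO a.1, a.2⟩).unique (h20.add h02)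
    have t1 := congrArg (fun L : P →L[ℝ] ℂ => L (1, 0)) hE
    have t2 := congrArg (fun L : P →L[ℝ] ℂ => L (0, 1)) hE
    simp at t1 t2
    rw [s1, eq_sub_of_add_eq t1.symm, s2] at h20
    rw [s2, eq_sub_of_add_eq' t2.symm, s1] at h02
    have hD := ((h20.mul h02).sub (h11.mul h11)).unique (A.d p a)
    have r1 := congrArg (fun L : P →L[ℝ] ℂ => L (1, 0)) hD
    have r2 := congrArg (fun L : P →L[ℝ] ℂ => L (0, 1)) hD
    simp at r1 r2
    obtain ⟨g1, g2⟩ := (e p a.1 (cd (ee 1) (cz n ps 1 1) p) (cd (ee 0) (cz n ps 1 1) p)).2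
      ⟨by linear_combination r1, by linear_combination r2⟩
    rw [g1, g2] at h20 h11 h02
    exact ⟨h20, h11, h02⟩
  refine ⟨W, T, T', xW, b.mono oW WO, fun p a => (hW p a).1.1, fun p a => (hW p a).1.2,
    ⟨c20.continuousOn, (continuous_const.mul c10).continuousOn.sub cT, cT', fun p a => (key p a).1⟩,
    ⟨c11.continuousOn, cT', cT, fun p a => (key p a).2.1⟩,
    ⟨c02.continuousOn, cT, (continuous_const.mul c01).continuousOn.sub cT', fun p a => (key p a).2.2⟩,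
    fun p a g => ?_⟩
  obtain ⟨l, l1, l2⟩ := b.lam hz' ⟨WO a.1, a.2⟩ g (hW p a.1).1.1
  obtain ⟨r1, r2⟩ := (e p a.1 _ _).1 ⟨rfl, rfl⟩
  rw [(z p a g).1, l1, l2] at r1
  rw [(z p a g).2, l1, l2] at r2
  exact ⟨l, _, l1, l2, rfl, mul_left_cancel₀ (hW p a.1).1.1 (by linear_combination r2),
    mul_left_cancel₀ (hW p a.1).1.1 (by linear_combination r1 + l * r2)⟩

end Pool.Agent.MP_ed9623_an.R77
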