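import Pool.Agent.MP_ed9623_an.R77.Rd2
import Pool.Agent.MP_ed9623_an.R77.Rd3

/-! The determinant does not vanish identically on a piece of the boundary of the zone. -/

open Filter Topology Set

namespace Pool.Agent.MP_ed9623_an.R77

open H64 H77 R1

/-- The direction `v` is tangent at `y` to the boundary of `Z`, in a weak sense. -/
def Sv (W Z : Set P) (y v : P) : Prop := ∀ w w₁ w₂, Ad W Z w w₁ w₂ →
  (∀ᶠ p in 𝓝 y, p ∈ W ∩ closure Z → p ∉ Z → (w p).im = 0) → (v.1 * w₁ y + v.2 * w₂ y).im = 0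

variable {n : ℝ} {O W Z : Set P} {ps al pr : ℝ → ℕ → J2} {x p τ : P} {T T' : P → ℂ}

theorem C2.ex (b : C2 n W Z ps al pr T T') (ha : AnZS) : ∃ Λ Λ₁ Λ₂ L L₁ L₂ N N₁ N₂ : P → ℂ,
    Ad W Z Λ Λ₁ Λ₂ ∧ Ad W Z L L₁ L₂ ∧ Ad W Z N N₁ N₂ ∧ ∀ y ∈ W ∩ closure Z, y ∉ Z → ∃ l : ℝ,
      cz n ps 1 1 y = l * cz n ps 0 2 y ∧ cz n ps 2 0 y = l ^ 2 * cz n ps 0 2 y ∧ Λ y = l ∧
      Λ₁ y = l * L y ∧ Λ₂ y = L y ∧ L₁ y = -L y * (L y + 2 * l * N y) ∧ L₂ y = -2 * L y * N y ∧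
      N₁ y = Complex.I * √n * l / (1 + l ^ 2) - N y * (l * N y + L y) ∧
      N₂ y = Complex.I * √n / (1 + l ^ 2) - N y ^ 2 ∧
      (L y = 0 → cz n ps 1 0 y = l * cz n ps 0 1 y) := by
  have aΛ := b.a11.div b.a02 b.u
  refine ⟨_, _, _, _, _, _, _, _, _, aΛ, (((b.ad W (a := 1) (b := 0) le_rfl).sub (aΛ.mul
    (b.ad W (a := 0) (b := 1) le_rfl))).cmul (Complex.I * √n)).div (b.adE ha) b.e,
    ((b.ad W (a := 0) (b := 1) le_rfl).cmul (Complex.I * √n)).div (b.adE ha) b.e, fun y a e => ?_⟩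
  obtain ⟨l, β, l1, l2, r1, r2, r3⟩ := b.s y a e
  have u := b.u y a.1
  have c := b.toLz.c0
  have m : (1 + l ^ 2 : ℂ) ≠ 0 := by exact_mod_cast (by positivity : 1 + l ^ 2 ≠ 0)
  have E : cz n ps 2 0 y + cz n ps 0 2 y = (1 + l ^ 2) * cz n ps 0 2 y := by rw [l2]; ring
  generalize Complex.I * √n = k at c r1 r3 ⊢
  have q : cz n ps 1 0 y = l * cz n ps 0 1 y + (1 + l ^ 2) * β / k := by
    field_simp; linear_combination r1 + r3
  have t : T y = (β * (1 - l ^ 2) + l * k * cz n ps 0 1 y) / (1 + l ^ 2) := by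
    field_simp; linear_combination r1 - l * r2
  refine ⟨l, l1, l2, ?_⟩
  simp only [E, Nat.reduceAdd, zero_add]
  rw [eq_add_of_sub_eq r2, l1, l2, q, t]
  refine ⟨?_, ?_, ?_, ?_, ?_, ?_, ?_, fun z => ?_⟩
  iterate 7 · field_simp <;> ring
  field_simp at z
  have : β = 0 := by simpa [m] using z
  simp [this]

theorem C2.mu (b : C2 n W Z ps al pr T T') (ha : AnZS) (hs : ∀ y ∈ W ∩ closure Z, y ∉ Z →
    ∃ v : P, Sv W Z y v ∧ v.1 * cz n ps 1 1 y + v.2 * cz n ps 0 2 y ≠ 0)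
    (hp : p ∈ W ∩ closure Z) (pn : p ∉ Z) :
    cz n ps 1 0 p * cz n ps 0 2 p = cz n ps 1 1 p * cz n ps 0 1 p := by
  obtain ⟨Λ, Λ₁, Λ₂, L, L₁, L₂, N, N₁, N₂, aΛ, aL, aN, K⟩ := b.ex ha
  have ne : ∀ {y v : P} {l : ℝ}, cz n ps 1 1 y = l * cz n ps 0 2 y →
      v.1 * cz n ps 1 1 y + v.2 * cz n ps 0 2 y ≠ 0 → v.1 * l + v.2 ≠ 0 := fun e c d => c (by
    have := congrArg Complex.ofReal d
    push_cast at this
    rw [e, ← mul_assoc, ← add_mul, this, zero_mul])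
  have A : ∀ y ∈ W ∩ closure Z, y ∉ Z → (L y).im = 0 := fun y a e => by
    obtain ⟨v, s, c⟩ := hs y a e
    obtain ⟨l, l1, -, -, k1, k2, -⟩ := K y a e
    have := s _ _ _ aΛ (Eventually.of_forall fun q f g => by
      obtain ⟨l, -, -, k, -⟩ := K q f g
      rw [k, Complex.ofReal_im])
    rw [k1, k2] at this
    exact mul_left_cancel₀ (ne l1 c) (by simp at this; linear_combination this)
  have B : ∀ y ∈ W ∩ closure Z, y ∉ Z → L y ≠ 0 → (N y).im = 0 := fun y a e f => by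
    obtain ⟨v, s, c⟩ := hs y a e
    obtain ⟨l, l1, -, -, -, -, k1, k2, -⟩ := K y a e
    have := s _ _ _ aL (Eventually.of_forall A)
    rw [k1, k2] at this
    exact mul_left_cancel₀ (mul_ne_zero (ne l1 c) fun g => f (Complex.ext g (A y a e))) (by
      simp [A y a e] at this; linear_combination -this / 2)
  obtain ⟨v, s, c⟩ := hs p hp pn
  obtain ⟨l, l1, -, -, -, -, -, -, k1, k2, k3⟩ := K p hp pn
  rw [k3 (by_contra fun f => ?_), l1]
  · ring
  have := s _ _ _ aN ((eventually_nhdsWithin_iff.1 ((aL.c p hp).eventually_ne f)).mono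
    fun y a e g => B y e g (a e))
  rw [k1, k2, show ∀ a b : ℂ, v.1 * (Complex.I * √n * l / (1 + l ^ 2) - a) + v.2 * (Complex.I * √n
    / (1 + l ^ 2) - b) = Complex.I * (√n * (v.1 * l + v.2) / (1 + l ^ 2) : ℝ) - (v.1 * a + v.2 * b)
      from fun a b => by push_cast; ring, Complex.sub_im, Complex.I_mul_im, Complex.ofReal_re] at this
  exact div_ne_zero (mul_ne_zero (Real.sqrt_pos.2 b.n0).ne' (ne l1 c))
    (by positivity : 1 + l ^ 2 ≠ 0) (by simpa [sq, A p hp pn, B p hp pn f] using this)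

theorem C2.fin (b : C2 n W Z ps al pr T T') (hz' : CzS) (ha : AnZS) (hs : ∀ y ∈ W ∩ closure Z,
    y ∉ Z → ∃ v : P, Sv W Z y v ∧ v.1 * cz n ps 1 1 y + v.2 * cz n ps 0 2 y ≠ 0)
    (hx : x ∈ W ∩ closure Z) (xn : x ∉ Z) : False := by
  obtain ⟨y, hy, yn, q⟩ : ∃ y ∈ W ∩ closure Z, y ∉ Z ∧ cz n ps 0 1 y ≠ 0 := by
    by_contra! z
    obtain ⟨v, s, c⟩ := hs x hx xn
    have := s _ _ _ ((b.ad W (a := 0) (b := 1) le_rfl).cmul (Complex.I / (v.1 * cz n ps 1 1 x
      + v.2 * cz n ps 0 2 x))) (Eventually.of_forall fun y a e => by simp [z y a e])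
    rw [mul_left_comm, mul_left_comm (v.2 : ℂ), ← mul_add, div_mul_cancel₀ _ c] at this
    simp at this
  have c01 := (cz_ct (n := n) b.j4 (a := 0) (b := 1) one_le_two).continuousAt (x := y)
  have bd := fun i j (e : i + j ≤ 2) => (((cz_ct (n := n) b.j4 e).continuousAt.div c01 q).norm
    ).eventually_lt continuousAt_const (lt_add_one _)
  obtain ⟨r, r0, hr⟩ := Metric.eventually_nhds_iff_ball.1 (((bd 1 1 le_rfl).and (bd 0 2 le_rfl)).and
    ((c01.eventually_ne q).and (b.oO.mem_nhds hy.1)))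
  have sub : Metric.ball y r ⊆ W := fun p a => (hr p a).2.2
  have q0 := fun p a => (hr p a).2.1
  have a10 := b.ad (Metric.ball y r) (a := 1) (b := 0) le_rfl
  have a01 := b.ad (Metric.ball y r) (a := 0) (b := 1) le_rfl
  have ak := a10.div a01 q0
  have qq := fun p a => mul_ne_zero (q0 p a) (q0 p a)
  have A1 := (((b.a20.mono sub).mul a01).sub (a10.mul (b.a11.mono sub))).div (a01.mul a01) qq
  have A2 := (((b.a11.mono sub).mul a01).sub (a10.mul (b.a02.mono sub))).div (a01.mul a01) qq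
  simp only [Nat.reduceAdd, zero_add, sq (cz n ps 0 1 _)] at ak A1 A2
  obtain ⟨x', x1, x2⟩ := b.out hy.1 yn (Metric.ball_mem_nhds y r0)
  have k : ∀ p ∈ Metric.ball y r ∩ closure Z, p ∉ Z → ∃ l : ℝ, cz n ps 1 0 p = l * cz n ps 0 1 p ∧
      cz n ps 1 1 p = l * cz n ps 0 2 p ∧ cz n ps 2 0 p = l ^ 2 * cz n ps 0 2 p ∧ T' p = l * T p ∧
      T p * (1 + l ^ 2) = l * (Complex.I * √n * cz n ps 0 1 p) := fun p a e => by
    obtain ⟨l, β, l1, l2, r1, r2, r3⟩ := b.s p ⟨sub a.1, a.2⟩ e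
    have f : cz n ps 1 0 p = l * cz n ps 0 1 p := mul_right_cancel₀ (b.u p (sub a.1)) (by
      rw [b.mu ha hs ⟨sub a.1, a.2⟩ e, l1]; ring)
    have : β = 0 := mul_left_cancel₀ (by exact_mod_cast (by positivity : 1 + l ^ 2 ≠ 0) :
      (1 + l ^ 2 : ℂ) ≠ 0) (by linear_combination Complex.I * √n * f - r1 - r3)
    rw [this] at r1 r2
    exact ⟨l, f, l1, l2, by linear_combination r2, by linear_combination r1 - l * r2⟩
  have g := potV (C := 2 * (‖cz n ps 1 1 y / cz n ps 0 1 y‖ + 1 + (‖cz n ps 0 2 y / cz n ps 0 1 y‖ + 1)))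
    Metric.isOpen_ball (convex_ball y r) b.oZ A1 (A2.congr A1.c2 A2.c2 fun p _ => ⟨by ring, rfl⟩)
    (fun p a e => ?_) (by positivity) (fun p a => ?_) x1 x2
  · have A : Ad (Metric.ball y r) Z (fun p => ((cz n ps 1 0 p / cz n ps 0 1 p).im : ℂ)) (fun _ => 0)
        fun _ => 0 := ⟨(Complex.continuous_ofReal.comp Complex.continuous_im).comp_continuousOn ak.c,
      continuousOn_const, continuousOn_const, fun p a => ((Complex.ofRealCLM.comp
        Complex.imCLM).hasFDerivAt.comp p (ak.d p a)).congr_fderiv (by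
          rw [(g p a).1, (g p a).2]; ext <;> simp)⟩
    have d := fun p a => (A.ext (p := p) Metric.isOpen_ball b.oZ (fun p a e => ⟨by
      obtain ⟨l, f, -⟩ := k p a e
      rw [f, mul_div_cancel_right₀ _ (q0 p a.1), Complex.ofReal_im, Complex.ofReal_zero],
        rfl, rfl⟩) a).1
    obtain ⟨p, a⟩ := mem_closure_iff_nhds.1 hy.2 _ (Metric.ball_mem_nhds y r0)
    have i := Metric.isOpen_ball.is_const_of_fderiv_eq_zero (𝕜 := ℝ) (convex_ball y r).isPreconnected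
      (fun p a => (d p a).differentiableAt.differentiableWithinAt)
      (fun p a => (d p a).fderiv.trans (by ext <;> simp)) a.1 x1
    rw [indicator_of_mem a.2, indicator_of_notMem fun c => x2 (subset_closure c),
      Complex.ofReal_eq_zero] at i
    have v : ∀ᶠ z in 𝓝 p, z ∈ Metric.ball y r ∩ Z := (Metric.isOpen_ball.inter b.oZ).mem_nhds a
    refine b.wl hz' (e := (1, -(cz n ps 1 0 p / cz n ps 0 1 p).re)) (by simp) ⟨sub a.1, a.2⟩ ?_
    filter_upwards [v, loc_const (v.mono fun z c => (ak.d z c).congr_fderiv (by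
      rw [(g z c).1, (g z c).2]; ext <;> simp))] with z c e
    rw [← Complex.re_add_im (cz n ps 1 0 p / _), i, Complex.ofReal_zero, zero_mul, add_zero,
      div_eq_iff (q0 z c.1)] at e
    obtain ⟨g1, g2⟩ := g z c
    rw [div_eq_zero_iff, or_iff_left (qq z c.1), e] at g1 g2
    refine mul_left_cancel₀ (q0 z c.1) ?_
    simp only [hz]
    push_cast
    linear_combination g1 - (cz n ps 1 0 p / cz n ps 0 1 p).re * g2
  · obtain ⟨l, f1, f2, f3, f4, f5⟩ := k p a e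
    rw [f1, f2, f3, f4]
    exact ⟨⟨by ring, div_eq_zero_iff.2 (Or.inl (by linear_combination -cz n ps 0 1 p ^ 3 * f5)),
      by ring⟩, by ring, by ring, div_eq_zero_iff.2 (Or.inl (by
        linear_combination cz n ps 0 1 p ^ 3 * f5))⟩
  · obtain ⟨⟨c, d⟩, e, -⟩ := hr p a.1
    refine (congrArg norm (show _ = -2 * (cz n ps 1 1 p / cz n ps 0 1 p * ((cz n ps 2 0 p
      * cz n ps 0 1 p - cz n ps 1 0 p * cz n ps 1 1 p) / (cz n ps 0 1 p * cz n ps 0 1 p))
      + cz n ps 0 2 p / cz n ps 0 1 p * ((cz n ps 1 1 p * cz n ps 0 1 p - cz n ps 1 0 p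
      * cz n ps 0 2 p) / (cz n ps 0 1 p * cz n ps 0 1 p))) by field_simp; ring)).trans_le ?_
    rw [norm_mul, norm_neg, Complex.norm_two, mul_assoc, mul_add]
    refine mul_le_mul_of_nonneg_left ((norm_add_le _ _).trans (add_le_add ?_ ?_)) zero_le_two <;>
    rw [norm_mul]
    · exact mul_le_mul_of_nonneg_right (c.le.trans (le_add_of_nonneg_right (by positivity)))
        (norm_nonneg _)
    · exact mul_le_mul_of_nonneg_right (d.le.trans (le_add_of_nonneg_left (by positivity)))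
        (norm_nonneg _)

theorem C2.no (b : C2 n W Z ps al pr T T') (hz' : CzS) (ha : AnZS) (hw : ZwS)
    (hx : x ∈ W ∩ closure Z) (xn : x ∉ Z) : False := by
  by_cases ar : ∃ σ h s, (s, h s) ∈ W ∧ Ar Z σ h s
  swap
  · refine b.fin hz' ha (fun y a e => ⟨(0, 1), fun w w₁ w₂ A z => by_contra fun c => ?_,
      by simpa using b.u y a.1⟩) hx xn
    obtain ⟨N, hN, oN, yN⟩ := eventually_nhds_iff.1 z
    obtain ⟨σ, h, s, m, d⟩ := cf_arc (b.oO.inter oN) b.oZ (A.mono inter_subset_left)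
      (fun p c d => hN p c.2 ⟨c.1, d⟩) (fun p c => b.mem c.1) ⟨a.1, yN⟩ a.2 e (by simpa using c)
    exact ar ⟨σ, h, s, m.1, d⟩
  obtain ⟨σ, h, s, m, a⟩ := ar
  have v := a.ev.and (a.ct.eventually_mem (b.oO.mem_nhds m))
  by_cases e : ∀ᶠ r in 𝓝 s, cz n ps 1 1 (r, h r) + deriv h r * cz n ps 0 2 (r, h r) = 0
  · obtain ⟨Λ, Λ₁, Λ₂, L, L₁, L₂, N, N₁, N₂, aΛ, -, -, K⟩ := b.ex ha
    have k : ∀ᶠ r in 𝓝 s, Λ (r, h r) = -deriv h r ∧ Λ₁ (r, h r) + deriv h r * Λ₂ (r, h r) = 0 ∧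
        cz n ps 2 0 (r, h r) + deriv h r * cz n ps 1 1 (r, h r) = 0 := (v.and e).mono fun r c => by
      obtain ⟨l, l1, l2, k0, k1, k2, -⟩ := K _ ⟨c.1.2, c.1.1.cl⟩ c.1.1.nm
      have : (l : ℂ) = -deriv h r := mul_right_cancel₀ (b.u _ c.1.2) (by linear_combination c.2 - l1)
      rw [k0, k1, k2, l1, l2, this]
      exact ⟨rfl, by ring, by ring⟩
    refine b.str hw a m (k := deriv h s) ?_
    filter_upwards [e, k, loc_const' ((v.and k).mono fun r c =>
      (c.1.1.td b.oO aΛ c.1.2).congr_deriv c.2.2.1)] with r c d f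
    rw [d.1, k.self_of_nhds.1, neg_inj, Complex.ofReal_inj] at f
    exact ⟨f, f ▸ d.2.2, f ▸ c⟩
  · obtain ⟨r, c, a, m⟩ := ((not_eventually.1 e).and_eventually v).exists
    have cd : ContinuousAt (deriv h) r := (a.2.1.derivWithin (m := 0) le_rfl).continuousAt.congr
      (by simp)
    obtain ⟨V, hV, oV, xV⟩ := eventually_nhds_iff.1 ((a.bd.and (b.oO.mem_nhds m)).and
      ((continuous_fst.continuousAt.eventually (show ∀ᶠ r in 𝓝 ((r, h r) : P).1, _ from a.ev)).and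
      (((cz_ct (n := n) b.j4 (a := 1) (b := 1) le_rfl).continuousAt.add
        ((Complex.continuous_ofReal.continuousAt.comp (ContinuousAt.comp (g := deriv h)
          (f := Prod.fst) (x := (r, h r)) cd continuousAt_fst)).mul (cz_ct (n := n) b.j4 (a := 0)
            (b := 2) le_rfl).continuousAt)).eventually_ne (y := 0) c)))
    refine (b.mono oV fun p c => (hV p c).1.2).fin hz' ha (fun y d e => ⟨(1, deriv h y.1),
      fun w w₁ w₂ A z => ?_, by simpa using (hV y d.1).2.2⟩) ⟨xV, a.cl⟩ a.nm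
    have f : y = (y.1, h y.1) := Prod.ext rfl ((hV y d.1).1.1 d.2 e)
    have g := (hV y d.1).2.1
    rw [f] at z d ⊢
    simpa using (Complex.imCLM.hasFDerivAt.comp_hasDerivAt _ (g.td oV A d.1)).unique
      ((hasDerivAt_const _ (0 : ℝ)).congr_of_eventuallyEq (by
        filter_upwards [g.ct.eventually z, g.ev, g.ct.eventually_mem (oV.mem_nhds d.1)] with s i j k
        exact i ⟨k, j.cl⟩ j.nm))

theorem Bad.c1r (b : Bad n O Z ps al pr) (hz' : CzS) (hv : U81.VtS) (hk : U81.VkS)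
    (hx : x ∈ O ∩ closure Z) (xn : x ∉ Z) (hτ : τ.1 ^ 2 + τ.2 ^ 2 = 1)
    (u : hz n ps (-τ.2, τ.1) (-τ.2, τ.1) x ≠ 0) (t : ℝ) :
    -τ.2 * pd (ee 0) (dt (ps t 0)) x + τ.1 * pd (ee 1) (dt (ps t 0)) x = 0 := by
  have := (b.rot x hτ).c1 hz' hv hk (x := 0) (by simpa [mo_closure hτ, mo_zero] using hx)
    (by simpa [mo_zero] using xn) (by rwa [cz_rot02, mo_zero]) t
  rwa [funext (dt_rot hτ), pd1_of (hasF_comp (by
    rw [mo_zero]; exact hasF_pd ((b.dc t x hx.1).differentiableAt (by simp))))] at this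

theorem rowRd (hv : U81.VtS) (hk : U81.VkS) (hz' : CzS) (ha : AnZS) (hw : ZwS) : RdS := by
  intro n O Z ps al pr h x hx xn
  by_contra! k
  have b : Bad n O Z ps al pr := ⟨h, k⟩
  refine b.c0 hz' ha hw (fun y hy yn => by_contra fun e => ?_) hx xn
  replace b := b.mono (b.oO.inter (isOpen_ne_fun ((cz_ct (n := n) b.j4 (a := 2) (b := 0) le_rfl).add
    (cz_ct (n := n) b.j4 (a := 0) (b := 2) le_rfl)) (continuous_const (y := 0)))) inter_subset_left
  have d : ∀ p ∈ _ ∩ closure Z, p ∉ Z → ∀ t, HasFDerivAt (dt (ps t 0)) (lf 0 0) p := fun p a c t => by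
    have k := fun τ e u => b.c1r hz' hv hk (τ := τ) a c e u t
    have k1 := k (1, 0) (by simp)
    have k2 := k (0, 1) (by simp)
    have k3 := k (3 / 5, 4 / 5) (by norm_num)
    have l := b.del hz' a c
    have m : cz n ps 2 0 p + cz n ps 0 2 p ≠ 0 := a.1.2
    simp only [hz] at k1 k2 k3
    have : pd (ee 0) (dt (ps t 0)) p = 0 ∧ pd (ee 1) (dt (ps t 0)) p = 0 := by
      by_cases u : cz n ps 0 2 p = 0 <;> by_cases v : cz n ps 2 0 p = 0 <;> simp_all
    simpa only [this.1, this.2] using hasF_pd ((b.dc t p a.1).differentiableAt (by simp))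
  have z : ∀ τ : P, τ.1 ^ 2 + τ.2 ^ 2 = 1 → hz n ps (-τ.2, τ.1) (-τ.2, τ.1) y = 0 := fun τ hτ =>
    by_contra fun u => by
      have m : (0 : P) ∈ closure (mo y τ ⁻¹' Z) := by simpa [mo_closure hτ, mo_zero] using hy.2
      have m' : (0 : P) ∉ mo y τ ⁻¹' Z := by simpa [mo_zero] using yn
      obtain ⟨W, T, T', c, f⟩ := (b.rot y hτ).c2 hz' ha (fun p a c t e => by
        rw [funext (dt_rot hτ), pd_lf (hasF_comp (d _ ⟨a.1, (mo_closure hτ Z).subset a.2⟩ c t))]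
        simp) ⟨by rw [mem_preimage, mo_zero]; exact ⟨hy.1, e⟩, m⟩ m' (by rwa [cz_rot02, mo_zero])
      exact f.no hz' ha hw ⟨c, m⟩ m'
  have z1 := z (1, 0) (by simp)
  have z2 := z (0, 1) (by simp)
  simp [hz] at z1 z2
  exact e (by rw [z1, z2, add_zero])

end Pool.Agent.MP_ed9623_an.R77
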