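import Pool.Agent.MP_ed9623_an.R77.Ext

/-! A one-sided implicit function theorem, and derivatives along an arc. -/

open Filter Topology Set

namespace Pool.Agent.MP_ed9623_an.R77

open H64 H77

/-- Differentiable in `Z`, and continuous with its gradient up to the boundary. -/
structure Ad (W Z : Set P) (w w₁ w₂ : P → ℂ) : Prop where
  c : ContinuousOn w (W ∩ closure Z)
  c1 : ContinuousOn w₁ (W ∩ closure Z)
  c2 : ContinuousOn w₂ (W ∩ closure Z)
  d : ∀ p ∈ W ∩ Z, HasFDerivAt w (lc (w₁ p) (w₂ p)) p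

/-- Near `(s, h s)` the set `Z` is one side of the graph of `h`. -/
def Ar (Z : Set P) (σ : ℝ) (h : ℝ → ℝ) (s : ℝ) : Prop :=
  σ ^ 2 = 1 ∧ ContDiffAt ℝ (1 : ℕ) h s ∧ ∀ᶠ p in 𝓝 ((s, h s) : P), p ∈ Z ↔ σ * (p.2 - h p.1) < 0

variable {W W' Z B : Set P} {w w₁ w₂ v v₁ v₂ : P → ℂ} {x y p : P} {σ s : ℝ} {h : ℝ → ℝ}

theorem Ad.mono (a : Ad W Z w w₁ w₂) (hW : W' ⊆ W) : Ad W' Z w w₁ w₂ :=
  have s := inter_subset_inter_left (closure Z) hW
  ⟨a.c.mono s, a.c1.mono s, a.c2.mono s, fun p b => a.d p ⟨hW b.1, b.2⟩⟩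

theorem Ad.add (a : Ad W Z w w₁ w₂) (b : Ad W Z v v₁ v₂) :
    Ad W Z (fun p => w p + v p) (fun p => w₁ p + v₁ p) fun p => w₂ p + v₂ p :=
  ⟨a.c.add b.c, a.c1.add b.c1, a.c2.add b.c2, fun p c => ((a.d p c).add (b.d p c)).congr_fderiv
    (by ext <;> simp)⟩

theorem Ad.mul (a : Ad W Z w w₁ w₂) (b : Ad W Z v v₁ v₂) : Ad W Z (fun p => w p * v p)
    (fun p => w₁ p * v p + w p * v₁ p) fun p => w₂ p * v p + w p * v₂ p :=
  ⟨a.c.mul b.c, (a.c1.mul b.c).add (a.c.mul b.c1), (a.c2.mul b.c).add (a.c.mul b.c2),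
    fun p c => ((a.d p c).mul (b.d p c)).congr_fderiv (by ext <;> simp <;> ring)⟩

theorem Ad.cmul (a : Ad W Z w w₁ w₂) (k : ℂ) :
    Ad W Z (fun p => k * w p) (fun p => k * w₁ p) fun p => k * w₂ p :=
  ⟨continuousOn_const.mul a.c, continuousOn_const.mul a.c1, continuousOn_const.mul a.c2,
    fun p c => ((a.d p c).const_mul k).congr_fderiv (by ext <;> simp)⟩

theorem Ad.sub (a : Ad W Z w w₁ w₂) (b : Ad W Z v v₁ v₂) :
    Ad W Z (fun p => w p - v p) (fun p => w₁ p - v₁ p) fun p => w₂ p - v₂ p := by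
  simpa only [neg_one_mul, sub_eq_add_neg] using a.add (b.cmul (-1))

theorem Ad.div (a : Ad W Z w w₁ w₂) (b : Ad W Z v v₁ v₂) (n : ∀ p ∈ W, v p ≠ 0) :
    Ad W Z (fun p => w p / v p) (fun p => (w₁ p * v p - w p * v₁ p) / v p ^ 2)
      fun p => (w₂ p * v p - w p * v₂ p) / v p ^ 2 :=
  ⟨a.c.div b.c fun p c => n p c.1,
    ((a.c1.mul b.c).sub (a.c.mul b.c1)).div (b.c.pow 2) fun p c => pow_ne_zero 2 (n p c.1),
    ((a.c2.mul b.c).sub (a.c.mul b.c2)).div (b.c.pow 2) fun p c => pow_ne_zero 2 (n p c.1),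
    fun p c => ((a.d p c).mul (((hasDerivAt_inv (n p c.1)).hasFDerivAt.restrictScalars ℝ).comp p
      (b.d p c))).congr_fderiv (by have := n p c.1; ext <;> simp <;> field_simp <;> ring)⟩

theorem prop_dn (hZ : IsOpen Z) (a : Ad W Z w w₁ w₂) (hB : Convex ℝ B) (sub : B ⊆ W)
    (h0 : ∀ p ∈ W, p ∈ closure Z → p ∉ Z → (w p).im = 0) (hy : y ∈ B ∩ Z) (hp : p ∈ B)
    (hg : (w y).im ≤ 0) (he : ∀ q ∈ B ∩ Z,
      (p.1 - y.1) * (w₁ q).im + (p.2 - y.2) * (w₂ q).im < 0) : p ∈ Z ∧ (w p).im < 0 := by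
  have cl : Continuous fun s : ℝ => y + s • (p - y) := by fun_prop
  have m : ∀ s ∈ Icc (0 : ℝ) 1, y + s • (p - y) ∈ B := fun s => hB.add_smul_sub_mem hy.1 hp
  have key : ∀ b : ℝ, 0 < b → b ≤ 1 → (∀ s ∈ Ico 0 b, y + s • (p - y) ∈ Z) →
      y + b • (p - y) ∈ closure Z ∧ (w (y + b • (p - y))).im < 0 := fun b b0 b1 hb => by
    have c : MapsTo (fun s : ℝ => y + s • (p - y)) (Icc 0 b) (closure Z) :=
      closure_Ico b0.ne ▸ MapsTo.closure hb cl
    have := strictAntiOn_of_deriv_neg (convex_Icc 0 b) (f := fun s => (w (y + s • (p - y))).im)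
      (Complex.continuous_im.comp_continuousOn (a.c.comp cl.continuousOn fun s d =>
        ⟨sub (m s (Icc_subset_Icc_right b1 d)), c d⟩)) (fun s d => by
        rw [interior_Icc] at d
        have k : y + s • (p - y) ∈ B ∩ Z := ⟨m s ⟨d.1.le, d.2.le.trans b1⟩, hb s ⟨d.1.le, d.2⟩⟩
        have := Complex.imCLM.hasFDerivAt.comp_hasDerivAt s ((a.d _ ⟨sub k.1, k.2⟩).comp_hasDerivAt
          (f := fun s : ℝ => y + s • (p - y)) s (((hasDerivAt_id s).smul_const (p - y)).const_add y))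
        exact this.deriv.trans_lt (by simpa using he _ k))
      ⟨le_rfl, b0.le⟩ ⟨b0.le, le_rfl⟩ b0
    exact ⟨c ⟨b0.le, le_rfl⟩, this.trans_le (by simpa using hg)⟩
  set S := Icc (0 : ℝ) 1 ∩ (fun s : ℝ => y + s • (p - y)) ⁻¹' Zᶜ
  have bd : BddBelow S := bddBelow_Icc.mono inter_subset_left
  have e : ∀ s ∈ Icc (0 : ℝ) 1, y + s • (p - y) ∈ Z := fun s hs => by_contra fun d => by
    obtain ⟨⟨s0, s1⟩, s2⟩ := (isClosed_Icc.inter (hZ.isClosed_compl.preimage cl)).csInf_mem ⟨s, hs, d⟩ bd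
    have := key _ (s0.lt_of_ne fun z => s2 (by rw [← z]; simpa using hy.2)) s1 fun s hs =>
      by_contra fun d => (csInf_le bd ⟨⟨hs.1, hs.2.le.trans s1⟩, d⟩).not_gt hs.2
    exact this.2.ne (h0 _ (sub (m _ ⟨s0, s1⟩)) this.1 s2)
  simpa using And.intro (e 1 (by simp)) (key 1 one_pos le_rfl fun s d => e s ⟨d.1, d.2.le⟩).2

theorem cf_low (hW : IsOpen W) (hZ : IsOpen Z) (a : Ad W Z w w₁ w₂)
    (h0 : ∀ p ∈ W, p ∈ closure Z → p ∉ Z → (w p).im = 0)
    (mx : ∀ p ∈ W, (∀ᶠ q in 𝓝 p, q ∈ closure Z) → p ∈ Z) (hx : x ∈ W)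
    (xc : x ∈ closure {y | y ∈ Z ∧ (w y).im ≤ 0}) (xn : x ∉ Z) (h2 : 0 < (w₂ x).im) :
    ∃ h s, (s, h s) ∈ W ∧ Ar Z 1 h s := by
  have c1 := Complex.continuous_im.comp_continuousOn a.c1
  have c2 := Complex.continuous_im.comp_continuousOn a.c2
  have cone : ∀ x ∈ W ∩ closure Z, ∀ k ε : ℝ, 0 < (w₂ x).im →
      |(w₁ x).im + k * (w₂ x).im| < ε * (w₂ x).im → ∃ r : ℝ, 0 < r ∧ Metric.ball x r ⊆ W ∧
      (∀ q ∈ Metric.ball x r ∩ closure Z, 0 < (w₂ q).im) ∧ ∀ y ∈ Metric.ball x r ∩ Z, (w y).im ≤ 0 →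
      ∀ p ∈ Metric.ball x r, p.2 - y.2 < k * (p.1 - y.1) - ε * |p.1 - y.1| →
        p ∈ Z ∧ (w p).im < 0 := fun x b k ε c d => by
    obtain ⟨r, r0, hr⟩ := Metric.eventually_nhds_iff.1 ((eventually_nhdsWithin_iff.1
      ((continuousWithinAt_const.eventually_lt (c2 x b) c).and
        (((c1 x b).add ((c2 x b).const_mul k)).abs.eventually_lt ((c2 x b).const_mul ε) d))).and
      (hW.mem_nhds b.1))
    refine ⟨r, r0, fun q e => (hr e).2, fun q e => ((hr e.1).1 ⟨(hr e.1).2, e.2⟩).1,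
      fun y e e' p f f' => prop_dn hZ a (convex_ball x r) (fun q e => (hr e).2) h0 e f e'
        fun q g => ?_⟩
    obtain ⟨g1, g2⟩ := (hr g.1).1 ⟨(hr g.1).2, subset_closure g.2⟩
    simp only [Function.comp_apply, Pi.add_apply] at g1 g2
    nlinarith [mul_le_mul_of_nonneg_left g2.le (abs_nonneg (p.1 - y.1)), abs_mul (p.1 - y.1)
      ((w₁ q).im + k * (w₂ q).im), le_abs_self ((p.1 - y.1) * ((w₁ q).im + k * (w₂ q).im))]
  have xz : x ∈ closure Z := closure_mono (fun _ b => b.1) xc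
  obtain ⟨K, K0, hK⟩ : ∃ K : ℝ, 0 < K ∧ |(w₁ x).im + 0 * (w₂ x).im| < K * (w₂ x).im :=
    ⟨|(w₁ x).im| / (w₂ x).im + 1, by positivity, by field_simp; simpa using h2⟩
  obtain ⟨r, r0, rW, r2, hr⟩ := cone x ⟨hx, xz⟩ 0 K h2 hK
  simp only [zero_mul, zero_sub] at hr
  have mb : ∀ {s t : ℝ}, |s - x.1| < r → |t - x.2| < r → (s, t) ∈ Metric.ball x r := fun b c =>
    max_lt b c
  have mb2 : ∀ {p : P}, p ∈ Metric.ball x r → |p.1 - x.1| < r ∧ |p.2 - x.2| < r := fun b =>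
    max_lt_iff.1 b
  set L : ℝ → Set ℝ := fun s => {t | (s, t) ∈ Metric.ball x r ∩ Z ∧ (w (s, t)).im ≤ 0} with hL
  have up : ∀ s, ∀ t ∈ L s, t ≤ x.2 + K * |s - x.1| := fun s t b => by_contra fun c =>
    xn (hr _ b.1 b.2 x (Metric.mem_ball_self r0) (by rw [abs_sub_comm]; linarith)).1
  have bd : ∀ s, BddAbove (L s) := fun s => ⟨_, up s⟩
  have dn : ∀ s t, (s, t) ∈ Metric.ball x r → t < x.2 - K * |s - x.1| → t ∈ L s := fun s t b c => by
    obtain ⟨y, ⟨y1, y2⟩, y3⟩ := mem_closure_iff_nhds.1 xc _ (inter_mem (Metric.ball_mem_nhds x r0)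
      ((show Continuous fun y : P => t - y.2 by fun_prop).continuousAt.eventually_lt
        (show Continuous fun y : P => -(K * |s - y.1|) by fun_prop).continuousAt (by linarith)))
    exact ⟨⟨b, (hr y ⟨y1, y3.1⟩ y3.2 _ b y2).1⟩, (hr y ⟨y1, y3.1⟩ y3.2 _ b y2).2.le⟩
  set δ := r / (2 * K + 2) with hδ
  have δ0 : 0 < δ := by positivity
  have δ1 : (2 * K + 2) * δ = r := by rw [hδ]; field_simp
  have sm : ∀ {s : ℝ}, |s - x.1| < δ → K * |s - x.1| < r / 2 ∧ |s - x.1| < r := fun b =>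
    ⟨by nlinarith, by nlinarith⟩
  have ne : ∀ {s}, |s - x.1| < δ → (L s).Nonempty := fun b => ⟨x.2 - r / 2, dn _ _
    (mb (sm b).2 (by rw [sub_sub_cancel_left, abs_neg, abs_of_pos] <;> linarith))
    (by linarith [(sm b).1])⟩
  set h : ℝ → ℝ := fun s => sSup (L s) with hh
  have gr : ∀ {s}, |s - x.1| < δ → (s, h s) ∈ Metric.ball x r := fun {s} b =>
    mb (sm b).2 (abs_lt.2 ⟨by
      have := le_csSup (bd s) (dn s (x.2 - r / 2) (mb (sm b).2 (by
        rw [sub_sub_cancel_left, abs_neg, abs_of_pos] <;> linarith)) (by linarith [(sm b).1]))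
      linarith, by linarith [csSup_le (ne b) (up s), (sm b).1]⟩)
  have lo : ∀ {s t}, |s - x.1| < δ → (s, t) ∈ Metric.ball x r → t < h s → t ∈ L s := fun b c d => by
    obtain ⟨u, e, f⟩ := exists_lt_of_lt_csSup (ne b) d
    have := hr _ e.1 e.2 _ c (by simpa using f)
    exact ⟨⟨c, this.1⟩, this.2.le⟩
  have ev : ∀ {s : ℝ} (c : ℝ) {N : Set P}, N ∈ 𝓝 ((s, h s) : P) →
      ∀ᶠ η in 𝓝[>] (0 : ℝ), (s, h s + c * η) ∈ N := fun {s} c N b => nhdsWithin_le_nhds
    ((show Continuous fun η : ℝ => ((s, h s + c * η) : P) by fun_prop).continuousAt.eventually_mem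
      (by simpa using b))
  have lip : ∀ (k ε : ℝ) (N : Set P), IsOpen N → (∀ y ∈ N ∩ Z, (w y).im ≤ 0 → ∀ p ∈ N,
      p.2 - y.2 < k * (p.1 - y.1) - ε * |p.1 - y.1| → p ∈ Z ∧ (w p).im < 0) → ∀ s s',
      |s - x.1| < δ → |s' - x.1| < δ → (s, h s) ∈ N → (s', h s') ∈ N →
      |h s' - h s - (s' - s) * k| ≤ ε * |s' - s| := fun k ε N o b => by
    have : ∀ s s', |s - x.1| < δ → |s' - x.1| < δ → (s, h s) ∈ N → (s', h s') ∈ N →
        k * (s' - s) - ε * |s' - s| ≤ h s' - h s := fun s s' c c' d d' => by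
      by_contra! e
      obtain ⟨η, ⟨⟨f1, f2⟩, f3, f4⟩, f5, f6⟩ := (((ev (-1) (inter_mem (o.mem_nhds d)
        (Metric.isOpen_ball.mem_nhds (gr c)))).and (ev 1 (inter_mem (o.mem_nhds d')
          (Metric.isOpen_ball.mem_nhds (gr c'))))).and (Ioo_mem_nhdsGT
            (half_pos (sub_pos.2 e)))).exists
      have g := lo c f2 (by linarith)
      have g' := b _ ⟨f1, g.1.2⟩ g.2 _ f3 (by simp only; linarith)
      linarith [le_csSup (bd s') (show h s' + 1 * η ∈ L s' from ⟨⟨f4, g'.1⟩, g'.2.le⟩)]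
    intro s s' c c' d d'
    have e := this s' s c' c d' d
    rw [abs_sub_comm] at e
    exact abs_le.2 ⟨by linarith [this s s' c c' d d'], by linarith⟩
  have oI : IsOpen {s : ℝ | |s - x.1| < δ} := isOpen_lt (by fun_prop) continuous_const
  have ch : ∀ s, |s - x.1| < δ → ContinuousAt h s := fun s b => by
    refine tendsto_iff_dist_tendsto_zero.2 (squeeze_zero' (Eventually.of_forall fun _ => dist_nonneg)
      (mem_of_superset (oI.mem_nhds b) fun s' c => by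
        simpa [Real.dist_eq] using lip 0 K _ Metric.isOpen_ball (by simpa using hr) s s' b c (gr b) (gr c)) ?_)
    simpa using (show Continuous fun s' : ℝ => K * |s' - s| by fun_prop).tendsto s
  have gc : ∀ {s}, |s - x.1| < δ → (s, h s) ∈ closure Z := fun {s} b =>
    mem_closure_iff_nhds.2 fun N c => by
      obtain ⟨η, ⟨d, e⟩, f⟩ := ((ev (-1) (inter_mem c (Metric.isOpen_ball.mem_nhds (gr b)))).and
        (eventually_mem_nhdsWithin.mono fun _ => mem_Ioi.1)).exists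
      exact ⟨_, d, (lo b e (by linarith)).1.2⟩
  obtain ⟨q, q1, q2, q3⟩ := ((not_eventually.1 fun b => xn (mx x hx b)).and_eventually
    (Eventually.and (Metric.ball_mem_nhds x r0)
      (continuous_fst.continuousAt.eventually_mem (oI.mem_nhds (by simpa using δ0))))).exists
  have q4 : h q.1 < q.2 := lt_of_le_of_ne (not_lt.1 fun b => q1 (subset_closure (lo q3 q2 b).1.2))
    fun b => q1 (by simpa [b] using gc q3)
  have c3 : ∀ s, |s - x.1| < δ → ContinuousAt (fun s => ((s, h s) : P)) s := fun s b =>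
    continuousAt_id.prodMk (ch s b)
  refine ⟨h, q.1, rW (gr q3), one_pow 2, ?_, ?_⟩
  · refine contDiffAt_one_iff.2 ⟨fun s => ContinuousLinearMap.toSpanSingleton ℝ
      (-(w₁ (s, h s)).im / (w₂ (s, h s)).im), _, oI.mem_nhds q3, ?_, fun s b => ?_⟩
    · have m : MapsTo (fun s => ((s, h s) : P)) {s : ℝ | |s - x.1| < δ} (W ∩ closure Z) :=
        fun s b => ⟨rW (gr b), gc b⟩
      have k := continuousOn_of_forall_continuousAt c3
      exact (ContinuousLinearMap.toSpanSingletonCLE (𝕜 := ℝ) (E := ℝ)).continuous.comp_continuousOn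
        ((c1.comp k m).neg.div (c2.comp k m) fun s b => (r2 _ ⟨gr b, gc b⟩).ne')
    · refine HasDerivAt.hasFDerivAt (hasDerivAt_iff_isLittleO.2 (Asymptotics.isLittleO_iff.2
        fun ε ε0 => ?_))
      have p2 := r2 _ ⟨gr b, gc b⟩
      obtain ⟨ρ, ρ0, -, -, e⟩ := cone _ ⟨rW (gr b), gc b⟩ (-(w₁ (s, h s)).im / (w₂ (s, h s)).im) ε p2
        (by rw [div_mul_cancel₀ _ p2.ne']; simpa using mul_pos ε0 p2)
      filter_upwards [oI.mem_nhds b, (c3 s b).eventually_mem (Metric.ball_mem_nhds _ ρ0)] with s' c d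
      exact lip _ ε _ Metric.isOpen_ball e s s' b c (Metric.mem_ball_self ρ0) d
  · have t : Tendsto (fun p : P => ((p.1, q.2) : P)) (𝓝 (q.1, h q.1)) (𝓝 q) :=
      Continuous.tendsto' (by fun_prop) _ _ rfl
    filter_upwards [Metric.isOpen_ball.mem_nhds (gr q3), continuous_fst.continuousAt.eventually_mem
      (oI.mem_nhds q3), continuous_snd.continuousAt.eventually_lt continuousAt_const q4,
      t.eventually_mem (isClosed_closure.isOpen_compl.mem_nhds q1),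
      t.eventually_mem (Metric.isOpen_ball.mem_nhds q2)] with p b c d e f
    have k : ∀ u, h p.1 < u → u < q.2 → (p.1, u) ∈ Metric.ball x r → (p.1, u) ∉ Z :=
      fun u g g' i j => e (subset_closure (prop_dn hZ (a.cmul (-1)) (convex_ball x r) rW
        (fun p k l m => by simp [h0 p k l m]) ⟨i, j⟩ f (by
          simpa using (not_le.1 fun k => (le_csSup (bd _) ⟨⟨i, j⟩, k⟩).not_gt g).le) fun y k => by
          simpa using mul_pos (sub_pos.2 g') (r2 y ⟨k.1, subset_closure k.2⟩)).1)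
    rw [one_mul, sub_neg]
    refine ⟨fun g => not_le.1 fun i => i.lt_or_eq.elim (fun j => k _ j d b g) fun j => ?_,
      fun g => (lo c b g).1.2⟩
    obtain ⟨η, ⟨⟨l1, l2⟩, l3⟩, l4⟩ := ((ev 1 (inter_mem (inter_mem (hZ.mem_nhds (j ▸ g))
      (Metric.isOpen_ball.mem_nhds (gr c))) (continuous_snd.continuousAt.eventually_lt
        continuousAt_const (j ▸ d)))).and (eventually_mem_nhdsWithin.mono fun _ => mem_Ioi.1)).exists
    exact k _ (by linarith) l3 l2 l1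

/-- The one-sided implicit function theorem. -/
theorem cf_arc (hW : IsOpen W) (hZ : IsOpen Z) (a : Ad W Z w w₁ w₂)
    (h0 : ∀ p ∈ W, p ∈ closure Z → p ∉ Z → (w p).im = 0)
    (mx : ∀ p ∈ W, (∀ᶠ q in 𝓝 p, q ∈ closure Z) → p ∈ Z) (hx : x ∈ W) (xc : x ∈ closure Z)
    (xn : x ∉ Z) (h2 : (w₂ x).im ≠ 0) : ∃ σ h s, (s, h s) ∈ W ∧ Ar Z σ h s := by
  wlog h3 : 0 < (w₂ x).im generalizing w w₁ w₂
  · exact this (a.cmul (-1)) (fun p k l m => by simp [h0 p k l m]) (by simpa using h2)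
      (by simpa using (not_lt.1 h3).lt_of_ne h2)
  by_cases c : x ∈ closure {y | y ∈ Z ∧ (w y).im ≤ 0}
  · exact ⟨1, cf_low hW hZ a h0 mx hx c xn h3⟩
  have c' : x ∈ closure {y | y ∈ Z ∧ 0 ≤ (w y).im} :=
    (closure_union.subset (closure_mono (fun y b => (le_total (w y).im 0).imp (fun d => ⟨b, d⟩)
      fun d => ⟨b, d⟩) xc)).resolve_left c
  have n := (Homeomorph.neg P).preimage_closure
  have cn : Continuous fun p : P => -p := continuous_neg
  have m : MapsTo (fun p : P => -p) (-W ∩ closure (-Z)) (W ∩ closure Z) :=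
    fun p b => ⟨b.1, (n Z).superset b.2⟩
  obtain ⟨h, s, b, -, d, e⟩ := cf_low (x := -x) hW.neg hZ.neg (w := fun p => -w (-p))
    ⟨(a.c.comp cn.continuousOn m).neg, a.c1.comp cn.continuousOn m, a.c2.comp cn.continuousOn m,
      fun p b => ((a.d (-p) b).comp p (hasFDerivAt_id p).neg).neg.congr_fderiv (by ext <;> simp)⟩
    (fun p b d e => by simpa using h0 _ b (m ⟨b, d⟩).2 e)
    (fun p b d => mx _ b ((cn.tendsto' _ p (neg_neg p)).eventually d |>.mono fun q e => by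
      simpa using (n Z).superset e))
    (by simpa using hx) (closure_mono (fun y b => by simpa using b)
      ((n {y | y ∈ Z ∧ 0 ≤ (w y).im}).subset (by simpa using c')))
    (by simpa using xn) (by simpa using h3)
  refine ⟨-1, fun s => -h (-s), -s, by simpa using b, by simp,
    (ContDiffAt.comp (g := h) _ (by simpa using d) contDiffAt_id.neg).neg, ?_⟩
  filter_upwards [(cn.tendsto' _ (s, h s) (by simp)).eventually e] with p f
  simpa [add_comm, sub_eq_add_neg] using f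

theorem Ar.ct (a : Ar Z σ h s) : ContinuousAt (fun s => ((s, h s) : P)) s :=
  continuousAt_id.prodMk a.2.1.continuousAt

theorem Ar.ev (a : Ar Z σ h s) : ∀ᶠ r in 𝓝 s, Ar Z σ h r :=
  ((a.2.1.eventually (by simp)).and (a.ct.eventually a.2.2.eventually_nhds)).mono
    fun _ b => ⟨a.1, b⟩

theorem Ar.nm (a : Ar Z σ h s) : (s, h s) ∉ Z := fun b => by simpa using a.2.2.self_of_nhds.1 b

theorem Ar.tn (a : Ar Z σ h s) : Tendsto (fun n : ℝ × ℝ => ((n.2, h n.2 - σ * n.1) : P))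
    (𝓝[>] 0 ×ˢ 𝓝 s) (𝓝[Z] (s, h s)) := by
  have : Tendsto (fun n : ℝ × ℝ => ((n.2, h n.2 - σ * n.1) : P)) (𝓝[>] 0 ×ˢ 𝓝 s) (𝓝 (s, h s)) := by
    simpa using tendsto_snd.prodMk_nhds ((a.2.1.continuousAt.tendsto.comp tendsto_snd).sub
      (((tendsto_id.mono_left (nhdsWithin_le_nhds (a := 0) (s := Ioi 0))).comp
        tendsto_fst).const_mul σ))
  refine tendsto_nhdsWithin_iff.2 ⟨this, ?_⟩
  filter_upwards [this.eventually a.2.2, tendsto_fst.eventually
    (eventually_mem_nhdsWithin.mono fun _ => mem_Ioi.1)] with n b c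
  exact b.2 (by nlinarith [a.1])

theorem Ar.cl (a : Ar Z σ h s) : (s, h s) ∈ closure Z :=
  mem_closure_of_tendsto (a.tn.mono_right nhdsWithin_le_nhds)
    (a.tn.eventually self_mem_nhdsWithin)

/-- Near a point of the arc, the boundary of `Z` is the arc. -/
theorem Ar.bd (a : Ar Z σ h s) : ∀ᶠ p in 𝓝 ((s, h s) : P), p ∈ closure Z → p ∉ Z → p.2 = h p.1 := by
  filter_upwards [a.2.2.eventually_nhds, continuous_fst.continuousAt.eventually
    (show ∀ᶠ r in 𝓝 ((s, h s) : P).1, _ from a.ev)] with p b c d e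
  have := ((continuousAt_snd.sub (c.2.1.continuousAt.comp continuousAt_fst)).const_mul σ).eventually
    ∘ Ioi_mem_nhds (a := 0)
  have k : σ * (p.2 - h p.1) = 0 := le_antisymm (not_lt.1 fun f => by
    obtain ⟨y, g, i⟩ := mem_closure_iff_nhds.1 d _ (b.and (this f))
    exact (g.1.1 i).not_gt g.2) (not_lt.1 fun f => e (b.self_of_nhds.2 f))
  exact sub_eq_zero.1 ((mul_eq_zero.1 k).resolve_left fun f => by simpa [f] using a.1)

/-- The derivative along the arc. -/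
theorem Ar.td (a : Ar Z σ h s) (hW : IsOpen W) (b : Ad W Z w w₁ w₂) (m : (s, h s) ∈ W) :
    HasDerivAt (fun s => w (s, h s)) (w₁ (s, h s) + deriv h s * w₂ (s, h s)) s := by
  have t : ∀ {s}, Ar Z σ h s → (s, h s) ∈ W → Tendsto (fun n : ℝ × ℝ => ((n.2, h n.2 - σ * n.1) : P))
      (𝓝[>] 0 ×ˢ 𝓝 s) (𝓝[W ∩ closure Z] (s, h s)) := fun a m => a.tn.mono_right
    (nhdsWithin_le_iff.2 (inter_mem (nhdsWithin_le_nhds (hW.mem_nhds m))
      (mem_of_superset self_mem_nhdsWithin subset_closure)))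
  have cd : ContinuousAt (deriv h) s := (a.2.1.derivWithin (m := 0) le_rfl).continuousAt.congr
    (by simp [derivWithin_univ])
  refine hasDerivAt_of_tendstoUniformlyOnFilter (l := 𝓝[>] (0 : ℝ)) (g' := fun _ => _)
    (f := fun η s => w (s, h s - σ * η))
    (f' := fun η s => w₁ (s, h s - σ * η) + deriv h s * w₂ (s, h s - σ * η))
    (tendsto_prod_filter_iff.1 (((b.c1 _ ⟨m, a.cl⟩).tendsto.comp (t a m)).add
      (((Complex.continuous_ofReal.tendsto _).comp (cd.tendsto.comp tendsto_snd)).mul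
        ((b.c2 _ ⟨m, a.cl⟩).tendsto.comp (t a m))))) ?_ ?_
  · filter_upwards [(t a m).eventually self_mem_nhdsWithin, a.tn.eventually self_mem_nhdsWithin,
      tendsto_snd.eventually a.ev] with n c d e
    simpa [Function.comp_def] using (b.d _ ⟨c.1, d⟩).comp_hasDerivAt (f := fun s => ((s, h s - σ * n.1) : P)) n.2
      ((hasDerivAt_id _).prodMk ((e.2.1.differentiableAt (by simp)).hasDerivAt.sub_const _))
  · filter_upwards [a.ev, a.ct.eventually_mem (hW.mem_nhds m)] with r c d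
    exact (b.c _ ⟨d, c.cl⟩).tendsto.comp ((t c d).comp (tendsto_id.prodMk tendsto_const_nhds))

end Pool.Agent.MP_ed9623_an.R77
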