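import Pool.Agent.MP_ed9623_an.R77.Pot
import Pool.Agent.MP_ed9623_an.H52.JetEq

/-! The equations of the time derivatives at a fixed time, and interior bounds. -/

open MeasureTheory Filter Topology Set
open scoped ContDiff

namespace Pool.Agent.MP_ed9623_an.R77

open H64 H77

/-- Vector fields. -/
abbrev Vf : Type := Fin 2 → P → ℝ

/-- Gradients of vector fields. -/
abbrev Gf : Type := Fin 2 → Fin 2 → P → ℝ

/-- `f ∈ H^k(O)`. -/
def Hk (O : Set P) (k : ℕ) (f : P → ℝ) : Prop := M2 f ∧ ∃ R, 0 ≤ R ∧ HB O k f R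

/-- The form `T` is given by a field in `H^k(O)`. -/
def Nl (O : Set P) (k : ℕ) (T : Vf → ℝ) : Prop :=
  ∃ N : Vf, (∀ j, Hk O k (N j)) ∧ ∀ ζ, (∀ j, Test O (ζ j)) → T ζ = -ip N ζ

/-- The equations at a fixed time. -/
structure Eqs (O : Set P) (A W : ℕ → Vf) (dA dW : ℕ → Gf) : Prop where
  va : ∀ m, VF (fun _ => 0) (A m) (dA m)
  vw : ∀ m, VF (fun _ => 0) (W m) (dW m)
  p : ∀ c : ℝ, c ^ 2 = 1 → ∃ f : Vf, (∀ j, M2 (f j)) ∧ ∀ θ, Test O θ → E2 (fun _ => 0) 1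
    (fun j p => A 0 j p + c * W 0 j p) (fun j i p => dA 0 j i p + c * dW 0 j i p) f θ
  ew : ∀ m ζ, (∀ j, Test O (ζ j)) → di (fun _ => 0) (dW m) ζ + ip (W (m + 1)) ζ
    = ∑ i ∈ Finset.range (m + 1), (m.choose i : ℝ) *
      (tl (fun _ => 0) (A i) (W (m - i)) ζ + tl (fun _ => 0) (W (m - i)) (A i) ζ)
  ea : ∀ m θ, Test O θ → di (fun _ => 0) (dA (m + 1)) (perp (fun _ => 0) θ)
    + ip (A (m + 2)) (perp (fun _ => 0) θ)
    = ∑ i ∈ Finset.range (m + 1 + 1), ((m + 1).choose i : ℝ) *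
      (tl (fun _ => 0) (A i) (A (m + 1 - i)) (perp (fun _ => 0) θ)
        + tl (fun _ => 0) (W i) (W (m + 1 - i)) (perp (fun _ => 0) θ))

variable {O O' : Set P} {k k' : ℕ} {f g : P → ℝ} {T T' : Vf → ℝ} {u z a w : Vf} {du dz da dw : Gf}
  {ρ r' : ℝ}

theorem Hk.zero (h : M2 f) : Hk O 0 f := ⟨h, _, nm_nonneg f, HB.zero h le_rfl⟩

theorem Hk.mono (h : Hk O k f) (hO : O' ⊆ O) (hk : k' ≤ k) : Hk O' k' f :=
  ⟨h.1, h.2.imp fun _ a => ⟨a.1, a.2.mono hO hk le_rfl⟩⟩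

theorem Hk.add (h : Hk O k f) (h' : Hk O k g) : Hk O k fun p => f p + g p := by
  obtain ⟨m, R, a, b⟩ := h
  obtain ⟨m', R', a', b'⟩ := h'
  exact ⟨m.add m', _, add_nonneg a a', b.add b' m m'⟩

theorem Hk.cmul (h : Hk O k f) (c : ℝ) : Hk O k fun p => c * f p := by
  obtain ⟨m, R, a, b⟩ := h
  exact ⟨m.cmul c, _, mul_nonneg (abs_nonneg c) a, b.cmul c⟩

theorem Hk.big (h : Hk O k f) : ∀ᶠ R in atTop, nm f ≤ R ∧ HB O k f R := by
  obtain ⟨-, R, -, b⟩ := h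
  filter_upwards [eventually_ge_atTop R, eventually_ge_atTop (nm f)] with S c d
  exact ⟨d, b.mono Subset.rfl le_rfl c⟩

theorem Hk.succ {g : Vf} (m : M2 f) (hw : ∀ i, WD O (ee i) f (g i)) (h : ∀ i, Hk O k (g i)) :
    Hk O (k + 1) f := by
  obtain ⟨R, r0, a, b⟩ := ((eventually_ge_atTop 0).and ((Hk.zero (O := O) m).big.and
    (eventually_all.2 fun i => (h i).big))).exists
  exact ⟨m, R, r0, HB.succ a.2 hw fun i => (b i).2⟩

theorem Hk.der (h : Hk O (k + 1) f) : ∃ g : Vf, ∀ i, WD O (ee i) f (g i) ∧ Hk O k (g i) := by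
  obtain ⟨m, R, a, b⟩ := h
  obtain ⟨g, hg⟩ := wHb.1 O k f R m a b
  exact ⟨g, fun i => ⟨(hg i).2.2.1, (hg i).1, R, a, (hg i).2.2.2⟩⟩

theorem vf_w (h : VF (fun _ => 0) u du) (O : Set P) (j i : Fin 2) : WD O (ee i) (u j) (du j i) :=
  ((H1O.zero_iff.1 (h.h1 j)).2 i).2.mono (subset_univ O)

theorem vf_val (h : VF (fun _ => 0) u du) (h' : ∀ j i, Hk O k (du j i)) (j : Fin 2) :
    Hk O (k + 1) (u j) := Hk.succ (h.h1 j).m (vf_w h O j) (h' j)

theorem ip_add {ζ : Vf} (hz : ∀ j, M2 (z j)) (hu : ∀ j, M2 (u j)) (hζ : ∀ j, M2 (ζ j)) :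
    ip (fun j p => z j p + u j p) ζ = ip z ζ + ip u ζ := by
  simp only [ip, add_mul, ← Finset.sum_add_distrib]
  exact Finset.sum_congr rfl fun j _ => integral_add ((hz j).int_mul (hζ j)) ((hu j).int_mul (hζ j))

theorem ip_cmul (c : ℝ) (z ζ : Vf) : ip (fun j p => c * z j p) ζ = c * ip z ζ := by
  simp only [ip, mul_assoc, integral_const_mul, Finset.mul_sum]

theorem Nl.add (h : Nl O k T) (h' : Nl O k T') : Nl O k fun ζ => T ζ + T' ζ := by
  obtain ⟨N, a, b⟩ := h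
  obtain ⟨N', a', b'⟩ := h'
  refine ⟨_, fun j => (a j).add (a' j), fun ζ c => ?_⟩
  rw [ip_add (fun j => (a j).1) (fun j => (a' j).1) fun j => (c j).m2, neg_add, ← b ζ c, ← b' ζ c]

theorem Nl.cmul (h : Nl O k T) (c : ℝ) : Nl O k fun ζ => c * T ζ := by
  obtain ⟨N, a, b⟩ := h
  exact ⟨_, fun j => (a j).cmul c, fun ζ d => by rw [ip_cmul, ← mul_neg, ← b ζ d]⟩

theorem Nl.sum {s : Finset ℕ} {T : ℕ → Vf → ℝ} (h : ∀ i ∈ s, Nl O k (T i)) :
    Nl O k fun ζ => ∑ i ∈ s, T i ζ := by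
  induction s using Finset.induction_on with
  | empty => exact ⟨fun _ _ => 0, fun _ => ⟨M2.zero, 0, le_rfl, fun _ _ _ _ => by simp⟩,
      fun _ _ => by simp [ip]⟩
  | insert a s ha ih =>
    simp only [Finset.sum_insert ha]
    exact (h a (Finset.mem_insert_self a s)).add
      (ih fun i hi => h i (Finset.mem_insert_of_mem hi))

theorem nl_tl (ha : VF (fun _ => 0) a da) (hw : VF (fun _ => 0) w dw)
    (h : ∀ j i, Hk O k (O.indicator fun p => a i p * dw j i p)) :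
    Nl O k (tl (fun _ => 0) a w) := by
  refine ⟨_, fun j => (h j 0).add (h j 1), fun ζ c => ?_⟩
  rw [wPrd.2 _ _ _ _ _ _ Gam.zero ha hw.h1 fun j => (c j).top]
  refine congrArg _ (Finset.sum_congr rfl fun j _ => int_test_congr (fun _ => (c j).off)
    (Eventually.of_forall fun p hp => ?_))
  simp only [indicator_of_mem hp, Fin.sum_univ_two]

theorem hk_mul (h : Hk (Q ρ) (max k 2) f) (h' : Hk (Q ρ) k g) :
    Hk (Q ρ) k ((Q ρ).indicator fun p => f p * g p) := by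
  obtain ⟨m, R, a, b⟩ := h
  obtain ⟨m', R', a', b'⟩ := h'
  obtain ⟨C, c0, hC⟩ := wPrk (-ρ) ρ (-ρ) ρ k
  exact ⟨(hC f g R R' m m' a a' b b').1, _, by positivity, (hC f g R R' m m' a a' b b').2⟩

theorem nl0 (ha : VF (fun _ => 0) a da) (hw : VF (fun _ => 0) w dw)
    (h : (∀ j i, Hk (Q ρ) 1 (da j i)) ∨ ∀ j i, Hk (Q ρ) 1 (dw j i)) :
    Nl (Q ρ) 0 (tl (fun _ => 0) a w) := by
  refine nl_tl ha hw fun j i => h.elim (fun b => hk_mul (vf_val ha b i)
    (Hk.zero ((hw.h1 j).md i))) fun b => Hk.zero ?_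
  obtain ⟨g, hg⟩ := (b j i).der
  obtain ⟨C, -, -, hC, -⟩ := wMix (-ρ) ρ (-ρ) ρ
  exact (hC _ _ _ _ (b j i).1 (hg 0).2.1 (ha.h1 i).m ((ha.h1 i).md 1) (hg 0).1 (vf_w ha _ i 1)).1

theorem nl1 (ha : VF (fun _ => 0) a da) (hw : VF (fun _ => 0) w dw)
    (h : ∀ j i, Hk (Q ρ) 1 (da j i)) (h' : ∀ j i, Hk (Q ρ) 1 (dw j i)) :
    Nl (Q ρ) 1 (tl (fun _ => 0) a w) :=
  nl_tl ha hw fun j i => hk_mul (vf_val ha h i) (h' j i)

theorem st0 {ϑ : ℝ} {f : Vf} (h0 : 0 < r') (h1 : r' < ρ) (hϑ : |ϑ| ≤ 1) (hu : VF (fun _ => 0) u du)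
    (hf : ∀ j, M2 (f j)) (he : ∀ θ, Test (Q ρ) θ → E2 (fun _ => 0) ϑ u du f θ) (j i : Fin 2) :
    Hk (Q r') 1 (du j i) := by
  obtain ⟨R, a, b, c⟩ := ((eventually_all.2 fun j => eventually_ge_atTop (nm (u j))).and
    ((eventually_all.2 fun j => eventually_all.2 fun i => eventually_ge_atTop (nm (du j i))).and
      (eventually_all.2 fun j => eventually_ge_atTop (nm (f j))))).exists
  obtain ⟨C, c0, hC⟩ := wH2 ρ r' R h0 h1
  exact ⟨(hu.h1 j).md i, C, c0, hC ϑ u du f hϑ ⟨hu, fun j => ⟨a j, b j⟩, fun j => ⟨hf j, c j⟩,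
    fun j => Eventually.of_forall fun p hp => absurd hp.1 hp.2, he⟩ j i⟩

theorem st1 (h0 : 0 < r') (h1 : r' < ρ) (hu : VF (fun _ => 0) u du) (hz : ∀ j, M2 (z j))
    (hT : Nl (Q ρ) 0 T) (he : ∀ θ, Test (Q ρ) θ → di (fun _ => 0) du (perp (fun _ => 0) θ)
      + ip z (perp (fun _ => 0) θ) = T (perp (fun _ => 0) θ)) :
    ∀ j i, Hk (Q r') 1 (du j i) := by
  obtain ⟨N, a, b⟩ := hT
  refine st0 (ϑ := 0) h0 h1 (by simp) hu (fun j => ((hz j).add (a j).1).cmul (-1)) fun θ c => ?_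
  have d := c.perp Gam.zero
  rw [E2, ip_cmul, ip_add hz (fun j => (a j).1) fun j => (d j).m2]
  linarith [he θ c, b _ d]

theorem st2 (h0 : 0 < r') (h1 : r' < ρ) (hu : VF (fun _ => 0) u du) (hz : VF (fun _ => 0) z dz)
    (hd : ∀ j i, Hk (Q ρ) 1 (du j i))
    (hT : Nl (Q ρ) 1 T) (he : ∀ θ, Test (Q ρ) θ → di (fun _ => 0) du (perp (fun _ => 0) θ)
      + ip z (perp (fun _ => 0) θ) = T (perp (fun _ => 0) θ)) (j i : Fin 2) :
    Hk (Q r') 2 (du j i) := by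
  obtain ⟨N, a, b⟩ := hT
  obtain ⟨R, r0, c, d, e, e'⟩ := ((eventually_ge_atTop 0).and
    ((eventually_all.2 fun j => eventually_ge_atTop (nm (u j))).and
    ((eventually_all.2 fun j => eventually_all.2 fun i => (hd j i).big).and
    ((eventually_all.2 fun j => (a j).big).and (eventually_all.2 fun j => eventually_all.2 fun i =>
      (Hk.zero (O := Q ρ) ((hz.h1 j).md i)).big))))).exists
  obtain ⟨C, c0, hC⟩ := wBootS 0 ρ r' R h0 h1 r0
  refine ⟨(hu.h1 j).md i, C, c0, hC u z N du dz (fun _ => 0) hu hz.h1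
    (fun j => ⟨c j, fun i => (d j i).1⟩) M2.zero (HB.zero M2.zero (nm_zero.trans_le r0))
    (fun j => ⟨(a j).1, (e j).2, fun i => ⟨(d j i).2, (e' j i).2⟩⟩) (fun θ t => ?_) j i⟩
  simp only [zero_mul, integral_zero, neg_zero]
  linarith [he θ t, b _ (t.perp Gam.zero)]

variable {A W : ℕ → Vf} {dA dW : ℕ → Gf} {r : ℝ}

theorem Eqs.mono (h : Eqs O A W dA dW) (hO : O' ⊆ O) : Eqs O' A W dA dW :=
  ⟨h.va, h.vw, fun c d => (h.p c d).imp fun _ a => ⟨a.1, fun θ t => a.2 θ (t.mono hO)⟩,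
    fun m ζ t => h.ew m ζ fun j => (t j).mono hO, fun m θ t => h.ea m θ (t.mono hO)⟩

theorem Eqs.h1 (h : Eqs (Q r) A W dA dW) (m : ℕ) : ∀ r', 0 < r' → r' < r →
    (∀ j i, Hk (Q r') 1 (dA m j i)) ∧ ∀ j i, Hk (Q r') 1 (dW m j i) := by
  induction m using Nat.strong_induction_on with
  | _ m ih =>
  intro r' h0 h1
  obtain ⟨ρ, h3, h4⟩ := exists_between h1
  have h' := h.mono (Q_mono h4.le)
  have ih' := fun i a => ih i a ρ (h0.trans h3) h4
  cases m with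
  | zero =>
    have k : ∀ c : ℝ, c ^ 2 = 1 → ∀ j i, Hk (Q r') 1 fun p => dA 0 j i p + c * dW 0 j i p :=
      fun c e => by
        obtain ⟨f, a, b⟩ := h.p c e
        refine st0 (ϑ := 1) h0 h1 (by simp) ⟨fun j => ((h.va 0).h1 j).add (((h.vw 0).h1 j).cmul c)
          Gam.zero, ?_⟩ a b
        filter_upwards [(h.va 0).dv, (h.vw 0).dv] with p x y
        linear_combination x + c * y
    refine ⟨fun j i => ?_, fun j i => ?_⟩
    · convert ((k 1 (by simp) j i).add (k (-1) (by simp) j i)).cmul (1 / 2) using 2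
      ring
    · convert ((k 1 (by simp) j i).add ((k (-1) (by simp) j i).cmul (-1))).cmul (1 / 2) using 2
      ring
  | succ m =>
    have c : ∀ i ∈ Finset.range (m + 1 + 1), i < m + 1 ∨ m + 1 - i < m + 1 := fun i _ => by omega
    refine ⟨st1 h0 h3 (h.va _) (fun j => ((h.va _).h1 j).m) (Nl.sum fun i hi => Nl.cmul
      ((nl0 (h.va _) (h.va _) ((c i hi).imp (fun a => (ih' _ a).1) fun a => (ih' _ a).1)).add
        (nl0 (h.vw _) (h.vw _) ((c i hi).imp (fun a => (ih' _ a).2) fun a => (ih' _ a).2))) _)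
      (h'.ea m), st1 h0 h3 (h.vw _) (fun j => ((h.vw _).h1 j).m) (Nl.sum fun i hi => Nl.cmul
      ((nl0 (h.va _) (h.vw _) ((c i hi).imp (fun a => (ih' _ a).1) fun a => (ih' _ a).2)).add
        (nl0 (h.vw _) (h.va _) ((c i hi).symm.imp (fun a => (ih' _ a).2) fun a => (ih' _ a).1))) _)
      fun θ t => h'.ew _ _ (t.perp Gam.zero)⟩

theorem Eqs.h2 (h : Eqs (Q r) A W dA dW) (h0 : 0 < r') (h1 : r' < r) (m : ℕ) :
    (∀ j i, Hk (Q r') 2 (dA (m + 1) j i)) ∧ ∀ j i, Hk (Q r') 2 (dW m j i) := by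
  obtain ⟨ρ, h3, h4⟩ := exists_between h1
  have h' := h.mono (Q_mono h4.le)
  have k := fun i => h.h1 i ρ (h0.trans h3) h4
  exact ⟨st2 h0 h3 (h.va _) (h.va _) (k _).1 (Nl.sum fun i _ => Nl.cmul
      ((nl1 (h.va _) (h.va _) (k _).1 (k _).1).add (nl1 (h.vw _) (h.vw _) (k _).2 (k _).2)) _)
      (h'.ea m), st2 h0 h3 (h.vw _) (h.vw _) (k _).2 (Nl.sum fun i _ => Nl.cmul
      ((nl1 (h.va _) (h.vw _) (k _).1 (k _).2).add (nl1 (h.vw _) (h.va _) (k _).2 (k _).1)) _)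
      fun θ t => h'.ew _ _ (t.perp Gam.zero)⟩

/-- Invariance under rigid motions. -/
theorem Eqs.rot (h : Eqs O A W dA dW) (x : P) {τ : P} (hτ : τ.1 ^ 2 + τ.2 ^ 2 = 1) :
    Eqs (Th x τ (fun _ => 0) ⁻¹' O) (fun m => tv x τ (fun _ => 0) (A m))
      (fun m => tv x τ (fun _ => 0) (W m)) (fun m => td x τ (fun _ => 0) (dA m))
      fun m => td x τ (fun _ => 0) (dW m) := by
  obtain ⟨t1, t2, -, t4, t5, t6⟩ := wTrans x τ (fun _ => 0) hτ Gam.zero
  have s : Thi x τ (fun _ => 0) ⁻¹' (Th x τ (fun _ => 0) ⁻¹' O) ⊆ O := fun q a => by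
    rwa [mem_preimage, mem_preimage, Th_Thi hτ] at a
  have hθ := fun θ t => ((rowTh x τ (fun _ => 0) hτ Gam.zero).2.2.2.2.1 _ θ t).2.mono s
  have ma := fun m j => ((h.va m).h1 j).m
  have mw := fun m j => ((h.vw m).h1 j).m
  have da := fun m j => ((h.va m).h1 j).md
  have dw := fun m j => ((h.vw m).h1 j).md
  refine ⟨fun m => (t2 _ _ (h.va m)).1, fun m => (t2 _ _ (h.vw m)).1, fun c e => ?_,
    fun m ζ t => ?_, fun m θ t => ?_⟩
  · obtain ⟨f, a, b⟩ := h.p c e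
    refine ⟨_, fun j => ((t1 f).1 a j).1, fun θ t => ?_⟩
    obtain ⟨k1, k2, k3⟩ := t6 _ fun j => t.top.perp Gam.zero j
    have := b _ (hθ θ t)
    have mu := fun j => (ma 0 j).add ((mw 0 j).cmul c)
    rw [E2, ← (t5 θ t.1).1, ← k1 _ a, ← k2 _ fun j i => (da 0 j i).add ((dw 0 j i).cmul c),
      ← k3 _ _ mu mu] at this
    rw [E2, ← this]
    congr 3 <;> funext <;> simp only [tv, td, Fin.sum_univ_two] <;> ring
  · obtain ⟨k1, k2, k3⟩ := t6 _ fun j => (t j).top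
    simp only [k1 _ (mw _), k2 _ (dw _), k3 _ _ (ma _) (mw _), k3 _ _ (mw _) (ma _)]
    exact h.ew m _ fun j => ((t4 _ ζ t).1 j).mono s
  · obtain ⟨k1, k2, k3⟩ := t6 _ fun j => t.top.perp Gam.zero j
    simp only [k1 _ (ma _), k2 _ (da _), k3 _ _ (ma _) (ma _), k3 _ _ (mw _) (mw _), (t5 θ t.1).1]
    exact h.ea m _ (hθ θ t)

theorem eqs_of {Ω : Set P} {g : Vf} {R : ℝ} {a w : ℝ → E6} (h : Pv Ω g R a w) (t : ℝ) :
    Eqs Ω (fun m => vl (iteratedDeriv m a t)) (fun m => vl (iteratedDeriv m w t))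
      (fun m => gj (iteratedDeriv m a t)) fun m => gj (iteratedDeriv m w t) := by
  have sm := h.sa.prodMk h.sw
  have i1 : ∀ m, (iteratedDeriv m (fun t => (a t, w t)) t).1 = iteratedDeriv m a t := fun m =>
    (congrFun (iter_clm (ContinuousLinearMap.fst ℝ E6 E6) sm m) t).symm
  have i2 : ∀ m, (iteratedDeriv m (fun t => (a t, w t)) t).2 = iteratedDeriv m w t := fun m =>
    (congrFun (iter_clm (ContinuousLinearMap.snd ℝ E6 E6) sm m) t).symm
  have d : ∀ s, deriv (fun t => (a t, w t)) s = (deriv a s, deriv w s) := fun s =>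
    ((sm_hasDerivAt h.sa s).prodMk (sm_hasDerivAt h.sw s)).deriv
  let F := ContinuousLinearMap.fst ℝ E6 E6
  let S := ContinuousLinearMap.snd ℝ E6 E6
  refine ⟨fun m => (mem_VZ.1 (iter_mem (isClosed_VZ _) m (Eventually.of_forall h.ma))).1,
    fun m => (mem_VZ.1 (iter_mem (isClosed_VZ _) m (Eventually.of_forall h.mw))).1,
    fun c e => ?_, fun m ζ hζ => ?_, fun m θ hθ => ?_⟩
  · rcases sq_eq_one_iff.1 e with rfl | rfl
    · exact ⟨_, fun j => ((h.p1 t).mf j).1, by simpa using (h.p1 t).eq⟩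
    · exact ⟨_, fun j => ((h.p2 t).mf j).1, by simpa [sub_eq_add_neg] using (h.p2 t).eq⟩
  · have hp := fun j => (hζ j).top
    obtain ⟨l, hl⟩ := exists_di hp
    obtain ⟨l', hl'⟩ := exists_ip fun j => (hp j).m2
    obtain ⟨b, hb⟩ := exists_tl hp
    have := JetEq.leib sm (l ∘L S) (l' ∘L S) (b.bilinearComp F S + b.flip.bilinearComp F S) 0
      (fun s => by
        have := h.e1 s ζ hζ
        rw [E1, ← hl, ← hl', ← hb, ← hb] at this
        simp [F, S, d]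
        linarith) m t
    simp only [← hl, ← hl', ← hb]
    simpa [F, S, i1, i2] using this
  · have hp := fun j => (hθ.perp Gam.zero j).top
    obtain ⟨l, hl⟩ := exists_di hp
    obtain ⟨l', hl'⟩ := exists_ip fun j => (hp j).m2
    obtain ⟨b, hb⟩ := exists_tl hp
    have k : ∀ {U : ℝ → E6}, Sv Ω g R U → ∀ s, l (U s) + l' (deriv U s)
        = ip g (perp (fun _ => 0) θ) + b (U s) (U s) := fun {U} hU s => by
      have := (hU.2 s).eq θ hθ
      simp only [E2, sub_eq_add_neg] at this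
      rw [ip_add h.mg (fun j => (m2_vl _ j).neg) fun j => (hp j).m2] at this
      simp only [← neg_one_mul (vl _ _ _), ip_cmul] at this
      rw [hl, hl', hb]
      linarith
    have := JetEq.leib sm (l ∘L F) (l' ∘L F) (b.bilinearComp F F + b.bilinearComp S S)
      (ip g (perp (fun _ => 0) θ)) (fun s => by
        have k1 := k h.s1 s
        have k2 := k h.s2 s
        rw [((sm_hasDerivAt h.sa s).fun_add (sm_hasDerivAt h.sw s)).deriv] at k1
        rw [((sm_hasDerivAt h.sa s).fun_sub (sm_hasDerivAt h.sw s)).deriv] at k2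
        simp [F, S, d] at k1 k2 ⊢
        linarith) (m + 1) t
    simp only [← hl, ← hl', ← hb]
    simpa [F, S, i1, i2] using this

end Pool.Agent.MP_ed9623_an.R77
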