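import Pool.Agent.MP_ed9623_an.R77.Ucv
import Pool.Agent.MP_ed9623_an.R1.Defs

/-! Extension by zero, and unique continuation from the boundary of an open set. -/

open MeasureTheory Filter Topology Set

namespace Pool.Agent.MP_ed9623_an.R77

open H64 H77
open R1 (cd lapC)

section gen

variable {F : Type} [NormedAddCommGroup F] {U V : Set P} {f : P → F} {p : P}

theorem ind_in (hV : IsOpen V) (f : P → F) (h : p ∈ V) : V.indicator f =ᶠ[𝓝 p] f :=
  mem_of_superset (hV.mem_nhds h) fun _ a => indicator_of_mem a f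

theorem ind_out (f : P → F) (h : p ∉ closure V) : V.indicator f =ᶠ[𝓝 p] fun _ => 0 :=
  mem_of_superset (isClosed_closure.isOpen_compl.mem_nhds h) fun _ a =>
    indicator_of_notMem (fun b => a (subset_closure b)) f

theorem ext_ct (hV : IsOpen V) (h1 : p ∈ V → ContinuousAt f p)
    (h0 : p ∈ closure V → p ∉ V → Tendsto f (𝓝[V] p) (𝓝 0)) : ContinuousAt (V.indicator f) p := by
  by_cases a : p ∈ V
  · exact (h1 a).congr (ind_in hV f a).symm
  by_cases b : p ∈ closure V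
  · rw [ContinuousAt, indicator_of_notMem a, ← nhdsWithin_univ, ← union_compl_self V,
      nhdsWithin_union, tendsto_sup]
    exact ⟨(h0 b a).congr' (mem_of_superset self_mem_nhdsWithin fun _ c => (indicator_of_mem c f).symm),
      tendsto_const_nhds.congr' (mem_of_superset self_mem_nhdsWithin fun _ c =>
        (indicator_of_notMem c f).symm)⟩
  · exact continuousAt_const.congr (ind_out f b).symm

theorem ext_der [NormedSpace ℝ F] {f' : P → P →L[ℝ] F} (hU : IsOpen U) (hV : IsOpen V)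
    (hd : ∀ p ∈ U ∩ V, HasFDerivAt f (f' p) p) (h0 : ∀ p ∈ U, p ∈ closure V → p ∉ V →
      Tendsto f (𝓝[V] p) (𝓝 0) ∧ Tendsto f' (𝓝[V] p) (𝓝 0)) (hp : p ∈ U) :
    HasFDerivAt (V.indicator f) (V.indicator f' p) p := by
  by_cases a : p ∈ V
  · rw [indicator_of_mem a]
    exact (hd p ⟨hp, a⟩).congr_of_eventuallyEq (ind_in hV f a)
  rw [indicator_of_notMem a]
  by_cases b : p ∈ closure V
  swap
  · exact (hasFDerivAt_const 0 p).congr_of_eventuallyEq (ind_out f b)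
  refine hasFDerivAt_iff_isLittleO_nhds_zero.2 (Asymptotics.isLittleO_iff.2 fun c c0 => ?_)
  obtain ⟨δ, δ0, hδ⟩ := Metric.eventually_nhds_iff.1 ((eventually_nhdsWithin_iff.1
    (Metric.tendsto_nhds.1 (h0 p hp b a).2 c c0)).and (hU.mem_nhds hp))
  filter_upwards [Metric.ball_mem_nhds (0 : P) δ0] with v hv
  have cl : Continuous fun s : ℝ => p + v + s • -v := by fun_prop
  have m : ∀ s ∈ Icc (0 : ℝ) 1, dist (p + v + s • -v) p < δ := fun s hs => by
    rw [show p + v + s • -v = p + (1 - s) • v by module, dist_self_add_left, norm_smul,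
      Real.norm_of_nonneg (by linarith [hs.2])]
    exact (mul_le_of_le_one_left (norm_nonneg _) (by linarith [hs.1])).trans_lt
      (mem_ball_zero_iff.1 hv)
  set S := Icc (0 : ℝ) 1 ∩ (fun s : ℝ => p + v + s • -v) ⁻¹' Vᶜ
  have bd : BddBelow S := bddBelow_Icc.mono inter_subset_left
  obtain ⟨⟨s0, s1⟩, s2⟩ := (isClosed_Icc.inter (hV.isClosed_compl.preimage cl)).csInf_mem
    ⟨1, by simp, by simpa using a⟩ bd
  have sub : Icc 0 (sInf S) ⊆ Icc 0 1 := Icc_subset_Icc_right s1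
  have iv : ∀ s ∈ Ico 0 (sInf S), p + v + s • -v ∈ V := fun s hs => by_contra fun d =>
    (csInf_le bd ⟨sub (Ico_subset_Icc_self hs), d⟩).not_gt hs.2
  have := norm_image_sub_le_of_norm_deriv_right_le_segment (C := c * ‖v‖)
    (f := fun s : ℝ => V.indicator f (p + v + s • -v)) (f' := fun s => f' (p + v + s • -v) (-v))
    (fun s hs => have u := (hδ (m s (sub hs))).2
      (ContinuousAt.comp (f := fun s : ℝ => p + v + s • -v) (ext_ct hV
        (fun d => (hd _ ⟨u, d⟩).continuousAt) fun d e => (h0 _ u d e).1)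
        cl.continuousAt).continuousWithinAt)
    (fun s hs => (((hd _ ⟨(hδ (m s (sub (Ico_subset_Icc_self hs)))).2, iv s hs⟩).congr_of_eventuallyEq
      (ind_in hV f (iv s hs))).comp_hasDerivAt (f := fun s : ℝ => p + v + s • -v) s (by
        simpa using ((hasDerivAt_id s).smul_const (-v)).const_add (p + v))).hasDerivWithinAt)
    (fun s hs => (ContinuousLinearMap.le_opNorm _ _).trans (by
      rw [norm_neg]
      exact mul_le_mul_of_nonneg_right (by
        simpa using ((hδ (m s (sub (Ico_subset_Icc_self hs)))).1 (iv s hs)).le) (norm_nonneg _)))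
    _ ⟨s0, le_rfl⟩
  rw [indicator_of_notMem s2, zero_sub, norm_neg, zero_smul, add_zero, sub_zero] at this
  rw [indicator_of_notMem a, sub_zero, zero_apply, sub_zero]
  exact this.trans (mul_le_of_le_one_right (by positivity) s1)

end gen

/-- The complex valued linear form with coefficients `u`, `v`. -/
noncomputable def lc (u v : ℂ) : P →L[ℝ] ℂ :=
  (ContinuousLinearMap.fst ℝ ℝ ℝ).smulRight u + (ContinuousLinearMap.snd ℝ ℝ ℝ).smulRight v

@[simp] theorem lc_apply (u v : ℂ) (h : P) : lc u v h = h.1 * u + h.2 * v := by simp [lc]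

theorem eq_lc (L : P →L[ℝ] ℂ) : L = lc (L (ee 0)) (L (ee 1)) := by
  ext <;> simp [ee]

theorem cd_lc : ContDiff ℝ ⊤ fun q : ℂ × ℂ => lc q.1 q.2 :=
  ((ContinuousLinearMap.smulRightL ℝ P ℂ _).contDiff.comp contDiff_fst).add
    ((ContinuousLinearMap.smulRightL ℝ P ℂ _).contDiff.comp contDiff_snd)

variable {U V : Set P} {f : P → ℂ} {p : P}

theorem cd_congr {g : P → ℂ} (e : P) (h : f =ᶠ[𝓝 p] g) : cd e f =ᶠ[𝓝 p] cd e g :=
  h.fderiv.mono fun _ a => congrArg (fun L : P →L[ℝ] ℂ => L e) a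

theorem cd_cd {n : ℕ} (h : ContDiffAt ℝ (n + 1 : ℕ) f p) (e : P) : ContDiffAt ℝ n (cd e f) p :=
  (h.fderiv_right (by norm_cast)).clm_apply contDiffAt_const

theorem ext1 (hU : IsOpen U) (hV : IsOpen V) (hd : ∀ p ∈ U ∩ V, DifferentiableAt ℝ f p)
    (h0 : ∀ p ∈ U, p ∈ closure V → p ∉ V →
      Tendsto f (𝓝[V] p) (𝓝 0) ∧ ∀ a, Tendsto (cd (ee a) f) (𝓝[V] p) (𝓝 0)) (hp : p ∈ U) :
    HasFDerivAt (V.indicator f)
      (lc (V.indicator (cd (ee 0) f) p) (V.indicator (cd (ee 1) f) p)) p := by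
  have z : lc 0 0 = 0 := by ext <;> simp
  refine (ext_der (f' := fun p => lc (cd (ee 0) f p) (cd (ee 1) f p)) hU hV
    (fun p a => (hd p a).hasFDerivAt.congr_fderiv (eq_lc _)) (fun p a b c => ⟨(h0 p a b c).1,
      (cd_lc.continuous.tendsto' (0, 0) 0 z).comp (f := fun y => (cd (ee 0) f y, cd (ee 1) f y))
        (((h0 p a b c).2 0).prodMk_nhds ((h0 p a b c).2 1))⟩) hp).congr_fderiv ?_
  by_cases a : p ∈ V
  · simp only [indicator_of_mem a]
  · simp only [indicator_of_notMem a, z]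

theorem ext2 (hU : IsOpen U) (hV : IsOpen V) (h2 : ∀ p ∈ U ∩ V, ContDiffAt ℝ (2 : ℕ) f p)
    (h0 : ∀ p ∈ U, p ∈ closure V → p ∉ V → Tendsto f (𝓝[V] p) (𝓝 0) ∧ ∀ a,
      Tendsto (cd (ee a) f) (𝓝[V] p) (𝓝 0) ∧
        ∀ b, Tendsto (cd (ee b) (cd (ee a) f)) (𝓝[V] p) (𝓝 0)) (hp : p ∈ U) :
    ContDiffAt ℝ (2 : ℕ) (V.indicator f) p ∧ lapC (V.indicator f) p = V.indicator (lapC f) p ∧
      ∀ a, cd (ee a) (V.indicator f) p = V.indicator (cd (ee a) f) p := by
  have d0 := fun p => ext1 (p := p) hU hV (fun p a => (h2 p a).differentiableAt (by simp))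
    fun p a b c => ⟨(h0 p a b c).1, fun i => ((h0 p a b c).2 i).1⟩
  have d1 := fun i p => ext1 (p := p) hU hV
    (fun p a => (cd_cd (h2 p a) (ee i)).differentiableAt (by simp)) fun p a b c => (h0 p a b c).2 i
  have e0 : ∀ a, ∀ p ∈ U, cd (ee a) (V.indicator f) p = V.indicator (cd (ee a) f) p :=
    fun a p hp => by rw [cd, (d0 p hp).fderiv]; fin_cases a <;> simp [ee]
  have e1 : ∀ a, cd (ee a) (cd (ee a) (V.indicator f)) p
      = V.indicator (cd (ee a) (cd (ee a) f)) p := fun a => by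
    rw [(cd_congr _ (mem_of_superset (hU.mem_nhds hp) (e0 a))).eq_of_nhds, cd, (d1 a p hp).fderiv]
    fin_cases a <;> simp [ee]
  have c1 : ∀ i, ContDiffAt ℝ (1 : ℕ) (V.indicator (cd (ee i) f)) p := fun i =>
    contDiffAt_one_iff.2 ⟨_, U, hU.mem_nhds hp, fun y a =>
      have k := fun j => ext_ct hV
          (fun b => (cd_cd (cd_cd (h2 y ⟨a, b⟩) (ee i)) (ee j)).continuousAt)
          fun b c => ((h0 y a b c).2 i).2 j;
      ((cd_lc.continuous.continuousAt.comp ((k 0).prodMk (k 1)))).continuousWithinAt, d1 i⟩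
  refine ⟨(contDiffAt_succ_iff_hasFDerivAt (n := 1)).2 ⟨_, ⟨U, hU.mem_nhds hp, d0⟩,
    (cd_lc.of_le le_top).contDiffAt.comp p ((c1 0).prodMk (c1 1))⟩, ?_, fun a => e0 a p hp⟩
  rw [lapC, e1, e1]
  by_cases a : p ∈ V <;> simp [a, lapC]

theorem pd_lift (l : ℂ →L[ℝ] ℝ) {z : ST} (h : DifferentiableAt ℝ f z.2) (e : ST) :
    pd e (fun z : ST => l (f z.2)) z = l (cd e.2 f z.2) :=
  congrArg (fun L : ST →L[ℝ] ℝ => L e)
    (l.hasFDerivAt.comp z (h.hasFDerivAt.comp z hasFDerivAt_snd)).fderiv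

theorem lift2 (l : ℂ →L[ℝ] ℝ) {z : ST} (h : ContDiffAt ℝ (2 : ℕ) f z.2) :
    Lh (fun z : ST => l (f z.2)) z = l (lapC f z.2) ∧ gr (fun z : ST => l (f z.2)) z
      = l (cd (ee 0) f z.2) ^ 2 + l (cd (ee 1) f z.2) ^ 2 := by
  have d := h.differentiableAt (by simp)
  have e : ∀ e : ST, pd e (pd e fun z : ST => l (f z.2)) z = l (cd e.2 (cd e.2 f) z.2) := fun e => by
    rw [← pd_lift l ((cd_cd h _).differentiableAt (by simp))]
    exact pd_congr_pt e ((continuous_snd.continuousAt.eventually (h.eventually (by simp))).mono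
      fun y a => pd_lift l (a.differentiableAt (by simp)) e)
  simp only [Lh, gr, e, pd_lift l d, lapC, map_add]
  exact ⟨by rw [show cd e0.2 f z.2 = 0 from map_zero _, map_zero, sub_zero]; rfl, rfl⟩

/-- Unique continuation for complex valued systems. -/
theorem ucC {ι : Type} [Fintype ι] {f : ι → P → ℂ} {c : ℝ} (hU : IsOpen U) (hc : IsPreconnected U)
    (h2 : ∀ j, ∀ p ∈ U, ContDiffAt ℝ (2 : ℕ) (f j) p) (hL : ∀ j, ∀ p ∈ U, ‖lapC (f j) p‖
      ≤ c * ∑ k, (‖f k p‖ + ‖cd (ee 0) (f k) p‖ + ‖cd (ee 1) (f k) p‖))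
    {x : P} (hx : x ∈ U) (h0 : ∀ᶠ y in 𝓝 x, ∀ j, f j y = 0) : ∀ j, ∀ p ∈ U, f j p = 0 := by
  let l : Bool → ℂ →L[ℝ] ℝ := fun b => if b then Complex.reCLM else Complex.imCLM
  have n : ∀ w : ℂ, ∑ b, l b w ^ 2 = ‖w‖ ^ 2 := fun w => by
    rw [Complex.sq_norm, Complex.normSq_apply]
    simp [l, sq]
  have := ucV hU hc (C := Fintype.card ι * (c ^ 2 * (Fintype.card ι * 3))) (by positivity)
    (W := fun (i : ι × Bool) z => l i.2 (f i.1 z.2)) (fun z hz => ⟨fun i =>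
      (l i.2).contDiff.contDiffAt.comp z ((h2 _ _ hz).comp z contDiffAt_snd), ?_⟩) hx
    (h0.mono fun y a t i => by rw [a, map_zero])
  · exact fun j p hp => Complex.ext (this p hp 0 (j, true)) (this p hp 0 (j, false))
  simp only [(lift2 _ (h2 _ _ hz)).1, (lift2 _ (h2 _ _ hz)).2, Fintype.sum_prod_type,
    Finset.sum_add_distrib, n]
  rw [mul_assoc, ← nsmul_eq_mul]
  refine Finset.sum_le_card_nsmul _ _ _ fun j _ =>
    (pow_le_pow_left₀ (norm_nonneg _) (hL j _ hz) 2).trans ?_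
  rw [mul_pow, mul_assoc, mul_assoc]
  refine mul_le_mul_of_nonneg_left (sq_sum_le_card_mul_sum_sq.trans
    (mul_le_mul_of_nonneg_left ?_ (Nat.cast_nonneg _))) (sq_nonneg c)
  simp only [← Finset.sum_add_distrib, Finset.mul_sum]
  refine Finset.sum_le_sum fun k _ => ?_
  generalize ‖f k z.2‖ = u, ‖cd (ee 0) (f k) z.2‖ = v, ‖cd (ee 1) (f k) z.2‖ = w
  nlinarith [sq_nonneg (u - v), sq_nonneg (u - w), sq_nonneg (v - w)]

/-- Vanishing to second order on the boundary forces vanishing. -/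
theorem extV {ι : Type} [Fintype ι] {f : ι → P → ℂ} {c : ℝ} (hU : IsOpen U)
    (hc : IsPreconnected U) (hV : IsOpen V) (h2 : ∀ j, ∀ p ∈ U ∩ V, ContDiffAt ℝ (2 : ℕ) (f j) p)
    (h0 : ∀ j, ∀ p ∈ U, p ∈ closure V → p ∉ V → Tendsto (f j) (𝓝[V] p) (𝓝 0) ∧ ∀ a,
      Tendsto (cd (ee a) (f j)) (𝓝[V] p) (𝓝 0) ∧
        ∀ b, Tendsto (cd (ee b) (cd (ee a) (f j))) (𝓝[V] p) (𝓝 0))
    (hL : ∀ j, ∀ p ∈ U ∩ V, ‖lapC (f j) p‖
      ≤ c * ∑ k, (‖f k p‖ + ‖cd (ee 0) (f k) p‖ + ‖cd (ee 1) (f k) p‖))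
    (hx : ∃ x ∈ U, x ∉ closure V) : ∀ j, ∀ p ∈ U ∩ V, f j p = 0 := by
  obtain ⟨x, x1, x2⟩ := hx
  have e := fun j p => ext2 (p := p) hU hV (h2 j) (h0 j)
  refine fun j p hp => (indicator_of_mem hp.2 _).symm.trans (ucC (c := c) hU hc
    (fun j p a => (e j p a).1) (fun j p a => ?_) x1 (eventually_all.2 fun j => ind_out _ x2) j p hp.1)
  simp only [(e _ p a).2.1, (e _ p a).2.2]
  by_cases b : p ∈ V
  · simpa only [indicator_of_mem b] using hL j p ⟨a, b⟩
  · simp [b]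

end Pool.Agent.MP_ed9623_an.R77
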