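import Pool.Agent.MP_ed9623_an.H77.AllW
import Pool.Agent.MP_ed9623_an.H77.Def3

/-! Global jets of finite order, and the time jets of a rough pair. -/

open MeasureTheory Filter Topology Set
open scoped ContDiff

namespace Pool.Agent.MP_ed9623_an.R77

open H64 H77

/-- Families of partial derivatives: `f a b` stands for `∂₁^a ∂₂^b f`. -/
abbrev J2 : Type := ℕ → ℕ → P → ℝ

/-- The linear form with coefficients `u`, `v`. -/
noncomputable def lf (u v : ℝ) : P →L[ℝ] ℝ :=
  u • ContinuousLinearMap.fst ℝ ℝ ℝ + v • ContinuousLinearMap.snd ℝ ℝ ℝ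

/-- Bounded and Hoelder continuous with exponent one half. -/
def Hg (f : P → ℝ) : Prop := ∃ M : ℝ, 0 ≤ M ∧ ∀ p, |f p| ≤ M ∧ ∀ q, |f p - f q| ≤ M * √(dist p q)

/-- `f` is the jet of order `k` of a function in `H^k` of the plane. -/
structure Jt (k : ℕ) (f : J2) : Prop where
  m : ∀ a b, a + b ≤ k → M2 (f a b)
  x : ∀ a b, a + b < k → WD univ (ee 0) (f a b) (f (a + 1) b)
  y : ∀ a b, a + b < k → WD univ (ee 1) (f a b) (f a (b + 1))
  c : ∀ a b, a + b + 2 ≤ k → Hg (f a b)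
  d : ∀ a b, a + b + 3 ≤ k → ∀ p, HasFDerivAt (f a b) (lf (f (a + 1) b p) (f a (b + 1) p)) p

/-- The Laplacian of `f a b`. -/
def lp (f : J2) (a b : ℕ) (p : P) : ℝ := f (a + 2) b p + f a (b + 2) p

/-- The derivative of `g a b` along the field `(-f₂, f₁)`. -/
def br (f g : J2) (a b : ℕ) (p : P) : ℝ := f 1 0 p * g a (b + 1) p - f 0 1 p * g (a + 1) b p

/-- `cof D²f : D²g`. -/
def cf (f g : J2) (p : P) : ℝ :=
  f 0 2 p * g 2 0 p - 2 * (f 1 1 p * g 1 1 p) + f 2 0 p * g 0 2 p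

/-- The determinant of the Hessian. -/
def dt (f : J2) (p : P) : ℝ := f 2 0 p * f 0 2 p - f 1 1 p ^ 2

/-- The quadratic term of the differentiated equation of the half sum. -/
noncomputable def nl (ps al : ℕ → J2) (j a b : ℕ) (p : P) : ℝ :=
  ∑ i ∈ Finset.range (j + 1), (j.choose i : ℝ) *
    (br (al i) (al (j - i)) a b p + br (ps i) (ps (j - i)) a b p)

/-- Time jets at one time: `ps j`, `al j` are the stream functions of the time derivatives of order
`j` of the half difference and of the half sum, `pr j` is the time derivative of order `j + 1` of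
the pressure.  The equations hold on `O`. -/
structure Tj (O : Set P) (ps al pr : ℕ → J2) : Prop where
  jp : ∀ j, Jt 4 (ps j)
  j0 : Jt 3 (al 0)
  ja : ∀ j, Jt 4 (al (j + 1))
  jr : ∀ j, Jt 2 (pr j)
  e1 : ∀ j a b, a + b = 1 → ∀ᵐ p, p ∈ O → lp (ps j) a b p = ps (j + 1) a b p
    + ∑ i ∈ Finset.range (j + 1), (j.choose i : ℝ) *
      (br (al i) (ps (j - i)) a b p + br (ps (j - i)) (al i) a b p)
  e2 : ∀ j, ∀ᵐ p, p ∈ O →
    lp (al (j + 1)) 1 0 p = al (j + 2) 1 0 p + nl ps al (j + 1) 1 0 p + pr j 0 1 p ∧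
    lp (al (j + 1)) 0 1 p = al (j + 2) 0 1 p + nl ps al (j + 1) 0 1 p - pr j 1 0 p
  l : ∀ j, ∀ᵐ p, p ∈ O →
    ∑ i ∈ Finset.range (j + 1), (j.choose i : ℝ) * cf (ps (j - i)) (al i) p = 0

/-- On `O`, `f` is a stream function of the field `v`. -/
def St2 (O : Set P) (v : E6) (f : J2) : Prop :=
  ∀ᵐ p, p ∈ O → f 1 0 p = vl v 1 p ∧ f 0 1 p = -vl v 0 p

/-- The regularity layer, at the origin (use the invariance of `Pv` under rigid motions). -/
def RLS : Prop := ∀ (Ω : Set P) (g : Fin 2 → P → ℝ) (R r r' : ℝ) (a w : ℝ → E6), Pv Ω g R a w →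
  0 < r' → r' < r → Q r ⊆ Ω → ∀ t, ∃ ps al pr : ℕ → J2, Tj (Q r') ps al pr ∧
    ∀ j, St2 (Q r') (iteratedDeriv j w t) (ps j) ∧ St2 (Q r') (iteratedDeriv j a t) (al j)

/-- Invariance under rigid motions. -/
def PvRS : Prop := ∀ (Ω : Set P) (g : Fin 2 → P → ℝ) (R : ℝ) (a w : ℝ → E6) (x τ : P),
  τ.1 ^ 2 + τ.2 ^ 2 = 1 → Pv Ω g R a w → ∃ (T : E6 →L[ℝ] E6) (R' : ℝ),
    (∀ v j, vl (T v) j =ᵐ[volume] tv x τ (fun _ => 0) (vl v) j) ∧
    Pv (Th x τ (fun _ => 0) ⁻¹' Ω) (tv x τ (fun _ => 0) g) R' (fun t => T (a t)) fun t => T (w t)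

/-- The determinant of the Hessian of the stream function of the half difference is `C¹`. -/
def DetS : Prop := ∀ (r r' : ℝ) (ps al pr : ℕ → J2), r' < r → Tj (Q r) ps al pr →
  ∃ g₁ g₂ : P → ℝ, Hg g₁ ∧ Hg g₂ ∧ ∀ p ∈ Q r', HasFDerivAt (dt (ps 0)) (lf (g₁ p) (g₂ p)) p

section api

variable {f g : P → ℝ} {k k' : ℕ} {F G : J2}

@[simp] theorem lf_apply (u v : ℝ) (h : P) : lf u v h = u * h.1 + v * h.2 := by simp [lf]

theorem lf_add (u v u' v' : ℝ) : lf u v + lf u' v' = lf (u + u') (v + v') := by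
  ext <;> simp

theorem lf_smul (c u v : ℝ) : c • lf u v = lf (c * u) (c * v) := by
  ext <;> simp

theorem pd0_of {u v : ℝ} {p : P} (h : HasFDerivAt f (lf u v) p) : pd (ee 0) f p = u := by
  simp [pd, h.fderiv, ee]

theorem pd1_of {u v : ℝ} {p : P} (h : HasFDerivAt f (lf u v) p) : pd (ee 1) f p = v := by
  simp [pd, h.fderiv, ee]

theorem Hg.ct (h : Hg f) : Continuous f := by
  obtain ⟨M, -, hM⟩ := h
  refine continuous_iff_continuousAt.2 fun q => tendsto_iff_dist_tendsto_zero.2 ?_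
  have : Tendsto (fun p => M * √(dist p q)) (𝓝 q) (𝓝 (M * √(dist q q))) :=
    Continuous.tendsto (by fun_prop) q
  rw [dist_self, Real.sqrt_zero, mul_zero] at this
  exact squeeze_zero (fun _ => dist_nonneg) (fun p => (hM p).2 q) this

theorem Hg.meas (h : Hg f) : AEStronglyMeasurable f volume := h.ct.aestronglyMeasurable

theorem Hg.mul2 (h : Hg f) (hg : M2 g) : M2 fun p => f p * g p := by
  obtain ⟨M, -, hM⟩ := id h
  exact hg.bmul h.meas (Eventually.of_forall fun p => (hM p).1)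

theorem Hg.const (c : ℝ) : Hg fun _ => c := ⟨|c|, abs_nonneg c, fun _ => ⟨le_rfl, fun _ => by
  simp only [sub_self, abs_zero]; positivity⟩⟩

theorem Hg.add (h : Hg f) (h' : Hg g) : Hg fun p => f p + g p := by
  obtain ⟨M, m0, hM⟩ := h
  obtain ⟨N, n0, hN⟩ := h'
  refine ⟨M + N, by positivity, fun p => ⟨(abs_add_le _ _).trans (add_le_add (hM p).1 (hN p).1),
    fun q => ?_⟩⟩
  rw [add_sub_add_comm, add_mul]
  exact (abs_add_le _ _).trans (add_le_add ((hM p).2 q) ((hN p).2 q))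

theorem Hg.mul (h : Hg f) (h' : Hg g) : Hg fun p => f p * g p := by
  obtain ⟨M, m0, hM⟩ := h
  obtain ⟨N, n0, hN⟩ := h'
  refine ⟨2 * (M * N), by positivity, fun p => ⟨?_, fun q => ?_⟩⟩
  · rw [abs_mul]
    have := mul_le_mul (hM p).1 (hN p).1 (abs_nonneg _) m0
    nlinarith [mul_nonneg m0 n0]
  · rw [show f p * g p - f q * g q = f p * (g p - g q) + (f p - f q) * g q by ring]
    refine (abs_add_le _ _).trans ?_
    rw [abs_mul, abs_mul]
    have a := mul_le_mul (hM p).1 ((hN p).2 q) (abs_nonneg _) m0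
    have b := mul_le_mul ((hM p).2 q) (hN q).1 (abs_nonneg _) (by positivity)
    linarith

theorem Hg.cmul (h : Hg f) (c : ℝ) : Hg fun p => c * f p := (Hg.const c).mul h

theorem Hg.neg (h : Hg f) : Hg fun p => -f p := by simpa using h.cmul (-1)

theorem Hg.sub (h : Hg f) (h' : Hg g) : Hg fun p => f p - g p := by
  simpa only [sub_eq_add_neg] using h.add h'.neg

theorem Jt.mono (h : Jt k F) (hk : k' ≤ k) : Jt k' F :=
  ⟨fun a b c => h.m a b (by omega), fun a b c => h.x a b (by omega),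
    fun a b c => h.y a b (by omega), fun a b c => h.c a b (by omega),
    fun a b c => h.d a b (by omega)⟩

/-- The jet of a partial derivative. -/
theorem Jt.der (h : Jt k F) (i j : ℕ) (hk : k' + i + j ≤ k) :
    Jt k' fun a b => F (a + i) (b + j) :=
  ⟨fun a b c => h.m _ _ (by omega),
    fun a b c => by simpa only [Nat.add_right_comm a 1 i] using h.x (a + i) (b + j) (by omega),
    fun a b c => by simpa only [Nat.add_right_comm b 1 j] using h.y (a + i) (b + j) (by omega),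
    fun a b c => h.c _ _ (by omega), fun a b c => by
      simpa only [Nat.add_right_comm a 1 i, Nat.add_right_comm b 1 j] using
        h.d (a + i) (b + j) (by omega)⟩

theorem Jt.add (h : Jt k F) (h' : Jt k G) : Jt k fun a b p => F a b p + G a b p :=
  ⟨fun a b c => (h.m a b c).add (h'.m a b c),
    fun a b c => (h.x a b c).add (h'.x a b c) (h.m _ _ c.le) (h.m _ _ (by omega)) (h'.m _ _ c.le)
      (h'.m _ _ (by omega)),
    fun a b c => (h.y a b c).add (h'.y a b c) (h.m _ _ c.le) (h.m _ _ (by omega)) (h'.m _ _ c.le)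
      (h'.m _ _ (by omega)),
    fun a b c => (h.c a b c).add (h'.c a b c),
    fun a b c p => lf_add _ _ _ _ ▸ (h.d a b c p).add (h'.d a b c p)⟩

theorem Jt.cmul (h : Jt k F) (c : ℝ) : Jt k fun a b p => c * F a b p :=
  ⟨fun a b e => (h.m a b e).cmul c, fun a b e => (h.x a b e).cmul c,
    fun a b e => (h.y a b e).cmul c, fun a b e => (h.c a b e).cmul c,
    fun a b e p => lf_smul _ _ _ ▸ (h.d a b e p).const_mul c⟩

theorem Jt.neg (h : Jt k F) : Jt k fun a b p => -F a b p := by simpa using h.cmul (-1)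

theorem Jt.sub (h : Jt k F) (h' : Jt k G) : Jt k fun a b p => F a b p - G a b p := by
  simpa only [sub_eq_add_neg] using h.add h'.neg

theorem Jt.ct (h : Jt k F) {a b : ℕ} (e : a + b + 2 ≤ k) : Continuous (F a b) := (h.c a b e).ct

theorem Jt.h1 (h : Jt k F) {a b : ℕ} (e : a + b < k) :
    H1 (fun _ => 0) (F a b) ![F (a + 1) b, F a (b + 1)] :=
  H1O.zero_iff.2 ⟨h.m _ _ e.le, Fin.forall_fin_two.2
    ⟨⟨h.m _ _ (by omega), h.x _ _ e⟩, ⟨h.m _ _ (by omega), h.y _ _ e⟩⟩⟩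

/-- Products of two functions one level below the top are square integrable. -/
theorem Jt.mul2 (h : Jt k F) (h' : Jt k' G) {a b a' b' : ℕ} (e : a + b < k) (e' : a' + b' < k') :
    M2 fun p => F a b p * G a' b' p :=
  (wLad _ _ _ _ (h.m _ _ e.le) (h.m (a + 1) b (by omega)) (h'.m _ _ e'.le)
    (h'.m a' (b' + 1) (by omega)) (h.x _ _ e) (h'.y _ _ e')).1

theorem Jt.cd1 (h : Jt k F) {a b : ℕ} (e : a + b + 3 ≤ k) : ContDiff ℝ (1 : ℕ) (F a b) := by
  refine contDiff_one_iff_fderiv.2 ⟨fun p => (h.d a b e p).differentiableAt, ?_⟩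
  rw [funext fun p => (h.d a b e p).fderiv]
  have c1 := h.ct (a := a + 1) (b := b) (by omega)
  have c2 := h.ct (a := a) (b := b + 1) (by omega)
  unfold lf
  fun_prop

theorem Tj.ja3 {O : Set P} {ps al pr : ℕ → J2} (h : Tj O ps al pr) (j : ℕ) : Jt 3 (al j) := by
  cases j with
  | zero => exact h.j0
  | succ j => exact (h.ja j).mono (by omega)

theorem Tj.mono {O O' : Set P} {ps al pr : ℕ → J2} (h : Tj O ps al pr) (hO : O' ⊆ O) :
    Tj O' ps al pr :=
  ⟨h.jp, h.j0, h.ja, h.jr, fun j a b e => (h.e1 j a b e).mono fun _ c d => c (hO d),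
    fun j => (h.e2 j).mono fun _ c d => c (hO d), fun j => (h.l j).mono fun _ c d => c (hO d)⟩

end api

end Pool.Agent.MP_ed9623_an.R77
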