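import Pool.Agent.MP_ed9623_an.R77.Rot

/-! The local structure near the boundary of the periodic zone, for rough pairs. -/

open MeasureTheory Filter Topology Set
open scoped ContDiff

namespace Pool.Agent.MP_ed9623_an.R77

open H64 H77

/-- The Hessian as a bilinear form. -/
def hs (f : J2) (e e' : P) (p : P) : ℝ :=
  e.1 * e'.1 * f 2 0 p + (e.1 * e'.2 + e.2 * e'.1) * f 1 1 p + e.2 * e'.2 * f 0 2 p

/-- The gradient vanishes near `x`. -/
def G0 (f : J2) (x : P) : Prop := ∀ᶠ y in 𝓝 x, f 1 0 y = 0 ∧ f 0 1 y = 0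

/-- Time jets at all times on `O`, and the zone `Z`. -/
structure Lz (n : ℝ) (O Z : Set P) (ps al pr : ℝ → ℕ → J2) : Prop where
  n0 : 0 < n
  oO : IsOpen O
  oZ : IsOpen Z
  tj : ∀ t, Tj O (ps t) (al t) (pr t)
  za : ∀ t j a b, a + b = 1 → ∀ p ∈ O ∩ Z, al t j a b p = 0
  zp : ∀ t j a b, a + b = 1 → ∀ p ∈ O ∩ Z, ps t (j + 2) a b p = -n * ps t j a b p
  zt : ∀ t j a b, a + b = 1 → ∀ p ∈ O ∩ Z, ps t j a b p
    = Real.cos (√n * t) * ps 0 j a b p + Real.sin (√n * t) / √n * ps 0 (j + 1) a b p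
  wall : ∀ e : P, e ≠ 0 → ∀ p ∈ O ∩ Z, ¬ ∀ᶠ y in 𝓝 p, ∀ t, hs (ps t 0) e e y = 0
  max : ∀ x ∈ O ∩ closure Z, ∀ I : Set ℝ, IsOpen I → I.Nonempty →
    (∀ t ∈ I, G0 (al t 0) x) → x ∈ Z

/-- The determinant does not vanish identically on a piece of the boundary of the zone. -/
def RdS : Prop := ∀ (n : ℝ) (O Z : Set P) (ps al pr : ℝ → ℕ → J2), Lz n O Z ps al pr →
  ∀ x ∈ O ∩ closure Z, x ∉ Z → ∃ y ∈ O ∩ closure Z, y ∉ Z ∧ ∃ t, dt (ps t 0) y ≠ 0

section api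

variable {n : ℝ} {O O' Z : Set P} {ps al pr : ℝ → ℕ → J2} {x τ : P} {F : J2}

theorem one_cases {a b : ℕ} (e : a + b = 1) : (a = 1 ∧ b = 0) ∨ (a = 0 ∧ b = 1) := by omega

theorem hs_rot (e e' p : P) : hs (rot x τ F) e e' p = hs F (mo 0 τ e) (mo 0 τ e') (mo x τ p) := by
  simp only [hs, rot20, rot11, rot02, mo_apply 0 τ, Prod.fst_zero, Prod.snd_zero]
  ring

theorem G0_rot (h : τ.1 ^ 2 + τ.2 ^ 2 = 1) {p : P} : G0 (rot x τ F) p ↔ G0 F (mo x τ p) := by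
  rw [G0, G0, ← ev_mo h]
  refine eventually_congr (Eventually.of_forall fun y => ?_)
  rw [rot10, rot01]
  exact ⟨fun a => ⟨by linear_combination τ.1 * a.1 - τ.2 * a.2 - F 1 0 (mo x τ y) * h,
    by linear_combination τ.2 * a.1 + τ.1 * a.2 - F 0 1 (mo x τ y) * h⟩,
    fun a => by simp [a.1, a.2]⟩

theorem Lz.mono (h : Lz n O Z ps al pr) (o : IsOpen O') (hO : O' ⊆ O) : Lz n O' Z ps al pr :=
  have s : O' ∩ Z ⊆ O ∩ Z := inter_subset_inter_left _ hO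
  ⟨h.n0, o, h.oZ, fun t => (h.tj t).mono hO, fun t j a b e p c => h.za t j a b e p (s c),
    fun t j a b e p c => h.zp t j a b e p (s c), fun t j a b e p c => h.zt t j a b e p (s c),
    fun e c p d => h.wall e c p (s d), fun y c => h.max y ⟨hO c.1, c.2⟩⟩

theorem Lz.rot (h : Lz n O Z ps al pr) (x : P) (hτ : τ.1 ^ 2 + τ.2 ^ 2 = 1) :
    Lz n (mo x τ ⁻¹' O) (mo x τ ⁻¹' Z) (fun t j => rot x τ (ps t j)) (fun t j => rot x τ (al t j))
      fun t j => rot x τ (pr t j) := by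
  refine ⟨h.n0, h.oO.preimage (ct_mo x τ), h.oZ.preimage (ct_mo x τ), fun t => (h.tj t).rot x hτ,
    fun t j a b e p c => ?_, fun t j a b e p c => ?_, fun t j a b e p c => ?_,
    fun e c p d k => ?_, fun y c I o ne k => h.max _ ⟨c.1, (mo_closure hτ Z).subset c.2⟩ I o ne
      fun t ht => (G0_rot hτ).1 (k t ht)⟩
  · obtain ⟨rfl, rfl⟩ | ⟨rfl, rfl⟩ := one_cases e <;>
      simp [rot10, rot01, h.za t j 1 0 rfl _ c, h.za t j 0 1 rfl _ c]
  · obtain ⟨rfl, rfl⟩ | ⟨rfl, rfl⟩ := one_cases e <;>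
      simp only [rot10, rot01, h.zp t j 1 0 rfl _ c, h.zp t j 0 1 rfl _ c] <;> ring
  · obtain ⟨rfl, rfl⟩ | ⟨rfl, rfl⟩ := one_cases e <;>
      simp only [rot10, rot01, h.zt t j 1 0 rfl _ c, h.zt t j 0 1 rfl _ c] <;> ring
  · refine h.wall (mo 0 τ e) (fun z => c ?_) _ d ((ev_mo hτ).1 (by simpa only [hs_rot] using k))
    rw [← moi_mo (x := 0) hτ e, z, moi_apply]
    simp

/-- If the closure of the zone is a neighbourhood of a point, the point is in the zone. -/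
theorem Lz.mem (h : Lz n O Z ps al pr) (a : x ∈ O) (b : ∀ᶠ y in 𝓝 x, y ∈ closure Z) : x ∈ Z := by
  refine h.max x ⟨a, b.self_of_nhds⟩ univ isOpen_univ univ_nonempty fun t _ => ?_
  have k : ∀ i j, i + j = 1 → ∀ y ∈ O, y ∈ closure Z → al t 0 i j y = 0 := fun i j e y c d =>
    (isClosed_eq ((h.tj t).j0.ct (by omega)) continuous_const).closure_subset_iff.2
      (h.za t 0 i j e) (h.oO.inter_closure ⟨c, d⟩)
  filter_upwards [b, h.oO.mem_nhds a] with y c d using ⟨k 1 0 rfl y d c, k 0 1 rfl y d c⟩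

end api

end Pool.Agent.MP_ed9623_an.R77
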