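import Pool.Agent.MP_ed9623_an.R77.Rep

/-! Potentials and a Morrey bound. -/

open MeasureTheory Filter Topology Set
open scoped ContDiff

namespace Pool.Agent.MP_ed9623_an.R77

open H64 H77

variable {O : Set P} {f g : P → ℝ}

theorem pd_of_ev {χ : P → ℝ} {c : ℝ} {p : P} (h : ∀ᶠ q in 𝓝 p, χ q = c) (e : P) : pd e χ p = 0 := by
  rw [pd_congr_pt e (g := fun _ => c) h, pd_const]

/-- A product cut-off. -/
theorem prod_cut {r r' : ℝ} (h0 : 0 < r') (h : r' < r) : ∃ χ, Test (Q r) χ ∧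
    (∀ p ∈ Q r', χ p = 1) ∧ ∀ p : P, |p.1| < r' → pd (ee 0) χ p = 0 := by
  let β : ContDiffBump (0 : ℝ) := ⟨r', (r' + r) / 2, h0, by linarith⟩
  have b1 : ∀ s, |s| < r' → β s = 1 := fun s a => β.one_of_mem_closedBall (by simpa using a.le)
  have sm : ContDiff ℝ ∞ fun p : P => β p.1 * β p.2 :=
    (β.contDiff.comp contDiff_fst).mul (β.contDiff.comp contDiff_snd)
  have s : tsupport (fun p : P => β p.1 * β p.2) ⊆ Metric.closedBall 0 ((r' + r) / 2) :=
    closure_minimal (fun p hp => by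
      have a := β.support_eq.subset (left_ne_zero_of_mul hp)
      have b := β.support_eq.subset (right_ne_zero_of_mul hp)
      rw [mem_closedBall_zero_iff, Prod.norm_def, max_le_iff]
      exact ⟨(mem_ball_zero_iff.1 a).le, (mem_ball_zero_iff.1 b).le⟩) Metric.isClosed_closedBall
  refine ⟨_, ⟨sm, (isCompact_closedBall _ _).of_isClosed_subset (isClosed_tsupport _) s,
    s.trans (Q_eq_ball r ▸ Metric.closedBall_subset_ball (by linarith))⟩,
    fun p hp => by simp [b1 _ (mem_Q.1 hp).1, b1 _ (mem_Q.1 hp).2], fun p hp => ?_⟩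
  refine Eq.symm (HasDerivAt.unique ?_ (HD.of_diff (e := ee 0) (sm_diff sm p)))
  refine (hasDerivAt_const (0 : ℝ) (β p.2)).congr_of_eventuallyEq ?_
  have : ∀ᶠ s : ℝ in 𝓝 0, |p.1 + s| < r' :=
    (show Continuous fun s : ℝ => |p.1 + s| by fun_prop).continuousAt.eventually_lt
      continuousAt_const (by simpa using hp)
  filter_upwards [this] with s hs
  simp [ee, b1 _ hs]

/-- A curl-free field of class `H¹` is a gradient. -/
theorem pot {r r' : ℝ} {V W Vy Wx : P → ℝ} (h0 : 0 < r') (h : r' < r) (mV : M2 V) (mW : M2 W)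
    (mVy : M2 Vy) (mWx : M2 Wx) (wV : WD (Q r) (ee 1) V Vy) (wW : WD (Q r) (ee 0) W Wx)
    (hc : ∀ᵐ p, p ∈ Q r → Wx p = Vy p) :
    ∃ π, M2 π ∧ WD (Q r') (ee 0) π V ∧ WD (Q r') (ee 1) π W := by
  obtain ⟨s, s1, s2⟩ := exists_between h
  obtain ⟨χ, hχ, -, c1⟩ := exists_cut (isCompact_closedBall (0 : P) s) (isOpen_Q r)
    (Q_eq_ball r ▸ Metric.closedBall_subset_ball s2)
  have c2 : ∀ p ∈ Q s, ∀ᶠ q in 𝓝 p, χ q = 1 := fun p hp =>
    c1.filter_mono (nhds_le_nhdsSet (Metric.ball_subset_closedBall (Q_eq_ball s ▸ hp)))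
  have out : ∀ p ∈ Q s, ((p.1 + 2 * r, p.2) : P) ∉ Q r := fun p hp a => by
    linarith [(abs_lt.1 (mem_Q.1 a).1).2, (abs_lt.1 (mem_Q.1 hp).1).1]
  have mF := mV.tmul hχ
  have mFy := (mVy.tmul hχ).add (mV.tmul (hχ.pd (ee 1)))
  obtain ⟨⟨a1, -⟩, a2, a3, -⟩ := rowAv (2 * r) _ mF
  obtain ⟨⟨b1, -⟩, b2, -⟩ := rowAv (2 * r) _ mFy
  have a4 := a3 _ _ mFy (wV.cut mV mVy hχ)
  have mD := mW.add b1
  have sub := Q_mono s2.le
  have wD := ((wW.mono sub).add (b2.mono (subset_univ _)) mW mWx b1 (mFy.dl _)).congr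
    (g' := fun _ => 0) (Eventually.of_forall fun _ _ => rfl) (hc.mono fun p a hp => by
      simp only [dl, hχ.off (out p hp), (hχ.pd _).off (out p hp), (c2 p hp).self_of_nhds,
        pd_of_ev (c2 p hp), a (sub hp)]
      ring)
  obtain ⟨ξ, hξ, x1, x2⟩ := prod_cut h0 s1
  have mG := m2_swap (mD.tmul hξ)
  have mGx := m2_swap ((M2.zero.tmul hξ).add (mD.tmul (hξ.pd (ee 0))))
  obtain ⟨⟨d1, -⟩, d2, d3, -⟩ := rowAv (2 * r) _ mG
  obtain ⟨⟨e1, -⟩, -, -, -, e2⟩ := rowAv (2 * r) _ mGx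
  have d4 := wd_swap (d3 _ _ mGx (wd_swap (wD.cut mD M2.zero hξ)))
  have e3 := Ftc.mp_swap.quasiMeasurePreserving.ae (e2 (-r' - |2 * r|) (r' + |2 * r|) (-r') r'
    (Eventually.of_forall fun p hp => by
      simp [x2 p.swap (abs_lt.2 (mem_Bx.1 hp).2)]))
  have sub' := Q_mono s1.le
  refine ⟨_, (a1.add (m2_swap d1)).neg, ((a2.add d4 a1 (mF.dl _) (m2_swap d1)
    (m2_swap e1)).neg.mono (subset_univ _)).congr (Eventually.of_forall fun _ _ => rfl)
      (e3.mono fun p a hp => ?_), ((a4.add (wd_swap d2) a1 b1 (m2_swap d1)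
    (m2_swap (mG.dl _))).neg.mono (subset_univ _)).congr (Eventually.of_forall fun _ _ => rfl)
      (Eventually.of_forall fun p hp => ?_)⟩
  · rw [a (mem_Bx.2 (by simpa [and_comm] using mem_Bx.1 hp))]
    simp [dl, hχ.off (out p (sub' hp)), (c2 p (sub' hp)).self_of_nhds]
  · have : ((p.1, p.2 + 2 * r) : P) ∉ Q s := fun a => by
      linarith [(abs_lt.1 (mem_Q.1 a).2).2, (abs_lt.1 (mem_Q.1 hp).2).1]
    simp [dl, hξ.off this, x1 p hp]

theorem ball_eq_Bx (x : P) (s : ℝ) :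
    Metric.ball x s = Bx (x.1 - s) (x.1 + s) (x.2 - s) (x.2 + s) := by
  rw [Bx, ← Real.ball_eq_Ioo, ← Real.ball_eq_Ioo, ball_prod_same]

/-- A Morrey bound for `H¹`. -/
theorem mor {gx gy : P → ℝ} (m : M2 g) (mx : M2 gx) (my : M2 gy) (wx : WD univ (ee 0) g gx)
    (wy : WD univ (ee 1) g gy) : ∃ C : ℝ, 0 ≤ C ∧ ∀ (x : P) (s : ℝ), 0 < s → s ≤ 1 →
      ∫ p in Metric.ball x s, g p ^ 2 ≤ C * (s * √s) := by
  refine ⟨4 * (10 * (nm g ^ 2 + nm gx ^ 2) + nm gy ^ 2), by positivity, fun x s s0 s1 => ?_⟩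
  have q0 := Real.sqrt_pos.2 s0
  have q1 : √s ≤ 1 := Real.sqrt_le_one.2 s1
  have q2 := Real.mul_self_sqrt s0.le
  have i1 := (m.int_slS (x.2 - 1) (x.2 + 1)).integrableOn (s := Ioo (x.1 - s) (x.1 + s))
  have i2 := (my.int_slS (x.2 - 1) (x.2 + 1)).integrableOn (s := Ioo (x.1 - s) (x.1 + s))
  have v : ∀ z : ℝ, volume.real (Ioo (z - s) (z + s)) = 2 * s := fun z => by
    rw [Real.volume_real_Ioo_of_le (by linarith)]; ring
  have A : ∫ y in Ioo (x.1 - s) (x.1 + s), slS (x.2 - 1) (x.2 + 1) g y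
      ≤ 2 * s * (5 * (nm g ^ 2 + nm gx ^ 2)) := by
    rw [← v x.1, ← smul_eq_mul, ← setIntegral_const]
    refine integral_mono_ae i1 (integrable_const _) ((ae_restrict_iff' measurableSet_Ioo).2 ?_)
    filter_upwards [Mix.one wSlice (a := x.1 - 1) (b := x.1 + 1) (c := x.2 - 1) (d := x.2 + 1) m mx
      (wx.mono (subset_univ _))] with y a b
    exact K2 x.1 ▸ a ⟨by linarith [b.1], by linarith [b.2]⟩
  have B : ∫ y in Ioo (x.1 - s) (x.1 + s), slS (x.2 - 1) (x.2 + 1) gy y ≤ nm gy ^ 2 :=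
    my.slS_int _ _ _ _ ▸ my.set_le _
  rw [ball_eq_Bx, ← m.slS_int]
  refine (integral_mono_ae (m.int_slS _ _).integrableOn
    (((i1.div_const (√s)).add (i2.const_mul (√s))).const_mul (4 * s))
    ((ae_restrict_iff' measurableSet_Ioo).2 ?_)).trans ?_
  · filter_upwards [Measure.ae_ae_of_ae_prod ((wSlice (x.1 - 1) (x.1 + 1) (x.2 - 1) (x.2 + 1) g gy
      m my).2 (wy.mono (subset_univ _)))] with y a b
    refine (integral_mono_of_nonneg (Eventually.of_forall fun _ => sq_nonneg _)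
      (integrable_const (2 * (slS (x.2 - 1) (x.2 + 1) g y / √s
        + √s * slS (x.2 - 1) (x.2 + 1) gy y))) ((ae_restrict_iff' measurableSet_Ioo).2
      (a.mono fun z c d => c (mem_Bx.2 ⟨⟨by linarith [b.1], by linarith [b.2]⟩,
        by linarith [d.1], by linarith [d.2]⟩) _ q0 (by linarith)))).trans (le_of_eq ?_)
    rw [setIntegral_const, v, smul_eq_mul, Pi.add_apply]
    ring
  · simp only [Pi.add_apply]
    rw [integral_const_mul, integral_add (i1.div_const _) (i2.const_mul _), integral_div,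
      integral_const_mul]
    have C : (∫ y in Ioo (x.1 - s) (x.1 + s), slS (x.2 - 1) (x.2 + 1) g y) / √s
        ≤ √s * (10 * (nm g ^ 2 + nm gx ^ 2)) := by
      rw [div_le_iff₀ q0]
      refine A.trans (le_of_eq ?_)
      linear_combination (-10 * (nm g ^ 2 + nm gx ^ 2)) * q2
    have D := mul_le_mul_of_nonneg_left B q0.le
    nlinarith

end Pool.Agent.MP_ed9623_an.R77
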