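import Pool.Agent.MP_ed9623_an.R77.Cf
import Pool.Agent.MP_ed9623_an.R77.Det
import Pool.Agent.MP_ed9623_an.R1.Base

/-! Degenerate pieces of the boundary of the zone: preliminaries, and the case of zero trace. -/

open Filter Topology Set
open scoped ComplexConjugate

namespace Pool.Agent.MP_ed9623_an.R77

open H64 H77 R1

/-- The determinant vanishes on the boundary of the zone. -/
structure Bad (n : ℝ) (O Z : Set P) (ps al pr : ℝ → ℕ → J2) : Prop extends Lz n O Z ps al pr where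
  z : ∀ p ∈ O ∩ closure Z, p ∉ Z → ∀ t, dt (ps t 0) p = 0

variable {n : ℝ} {O W Z : Set P} {ps al pr : ℝ → ℕ → J2} {x p τ : P} {w w₁ w₂ : P → ℂ} {σ s : ℝ}
  {h : ℝ → ℝ}

theorem loc_const {E F : Type} [NormedAddCommGroup E] [NormedSpace ℝ E] [NormedAddCommGroup F]
    [NormedSpace ℝ F] {f : E → F} {x : E} (h : ∀ᶠ y in 𝓝 x, HasFDerivAt f (0 : E →L[ℝ] F) y) :
    ∀ᶠ y in 𝓝 x, f y = f x := by
  obtain ⟨r, r0, hr⟩ := Metric.mem_nhds_iff.1 h
  exact mem_of_superset (Metric.ball_mem_nhds x r0) fun y a =>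
    Metric.isOpen_ball.is_const_of_fderiv_eq_zero (𝕜 := ℝ) (convex_ball x r).isPreconnected
      (fun z b => (hr b).differentiableAt.differentiableWithinAt) (fun z b => (hr b).fderiv) a
      (Metric.mem_ball_self r0)

theorem loc_const' {F : Type} [NormedAddCommGroup F] [NormedSpace ℝ F] {f : ℝ → F}
    (h : ∀ᶠ y in 𝓝 s, HasDerivAt f 0 y) : ∀ᶠ y in 𝓝 s, f y = f s :=
  loc_const (h.mono fun _ a => by simpa using a.hasFDerivAt)

theorem Lz.j4 (h : Lz n O Z ps al pr) (t : ℝ) : Jt 4 (ps t 0) := (h.tj t).jp 0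

theorem Bad.mono (h : Bad n O Z ps al pr) (o : IsOpen W) (hW : W ⊆ O) : Bad n W Z ps al pr :=
  ⟨h.toLz.mono o hW, fun p a => h.z p ⟨hW a.1, a.2⟩⟩

theorem Bad.rot (h : Bad n O Z ps al pr) (x : P) (hτ : τ.1 ^ 2 + τ.2 ^ 2 = 1) :
    Bad n (mo x τ ⁻¹' O) (mo x τ ⁻¹' Z) (fun t j => rot x τ (ps t j)) (fun t j => rot x τ (al t j))
      fun t j => rot x τ (pr t j) :=
  ⟨h.toLz.rot x hτ, fun p a b t => (dt_rot hτ p).trans
    (h.z _ ⟨a.1, (mo_closure hτ Z).subset a.2⟩ b t)⟩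

theorem Ad.tz (a : ContinuousOn w (W ∩ closure Z)) (hW : IsOpen W) (m : p ∈ W ∩ closure Z)
    (e : w p = 0) : Tendsto w (𝓝[Z] p) (𝓝 0) := e ▸ (a p m).tendsto.mono_left
  (nhdsWithin_le_iff.2 (inter_mem (nhdsWithin_le_nhds (hW.mem_nhds m.1))
    (mem_of_superset self_mem_nhdsWithin subset_closure)))

theorem ad_real {f : P → ℝ} (c : ∀ p ∈ O, ContDiffAt ℝ (1 : ℕ) f p) :
    Ad O Z (fun p => f p) (fun p => pd (ee 0) f p) fun p => pd (ee 1) f p :=
  have k : ∀ e, ContinuousOn (fun p => (pd e f p : ℂ)) (O ∩ closure Z) := fun e p a =>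
    (Complex.continuous_ofReal.continuousAt.comp (((c p a.1).fderiv_right (m := 0)
      (by simp)).continuousAt.clm_apply continuousAt_const)).continuousWithinAt
  ⟨fun p a => (Complex.continuous_ofReal.continuousAt.comp
    (c p a.1).continuousAt).continuousWithinAt, k _, k _, fun p a =>
    (Complex.ofRealCLM.hasFDerivAt.comp p ((c p a.1).differentiableAt
      (by simp)).hasFDerivAt).congr_fderiv (by ext <;> simp [pd, ee])⟩

theorem Lz.ad (h : Lz n O Z ps al pr) (W : Set P) {a b : ℕ} (e : a + b ≤ 1) :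
    Ad W Z (cz n ps a b) (cz n ps (a + 1) b) (cz n ps a (b + 1)) :=
  ⟨(cz_ct h.j4 (by omega)).continuousOn, (cz_ct h.j4 (by omega)).continuousOn,
    (cz_ct h.j4 (by omega)).continuousOn, fun p _ => cz_hasF h.j4 e p⟩

theorem Lz.adE (h : Lz n O Z ps al pr) (ha : AnZS) :
    Ad O Z (fun p => cz n ps 2 0 p + cz n ps 0 2 p) (fun p => Complex.I * √n * cz n ps 1 0 p)
      fun p => Complex.I * √n * cz n ps 0 1 p :=
  ⟨((cz_ct h.j4 le_rfl).add (cz_ct h.j4 le_rfl)).continuousOn,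
    (continuous_const.mul (cz_ct h.j4 one_le_two)).continuousOn,
    (continuous_const.mul (cz_ct h.j4 one_le_two)).continuousOn, fun p a => by
    obtain ⟨b, c⟩ := ha n O Z ps al pr h.l0 p a
    refine ((b 2 0 (Or.inr rfl)).1.add
      (b 0 2 (Or.inr rfl)).1).differentiableAt.hasFDerivAt.congr_fderiv (ContinuousLinearMap.ext
        fun e => (c e).trans ?_)
    rw [lc_apply]; ring⟩

theorem Lz.c0 (h : Lz n O Z ps al pr) : Complex.I * √n ≠ 0 :=
  mul_ne_zero Complex.I_ne_zero (Complex.ofReal_ne_zero.2 (Real.sqrt_pos.2 h.n0).ne')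

theorem Lz.wl (h : Lz n O Z ps al pr) (hz' : CzS) {e : P} (he : e ≠ 0) (hp : p ∈ O ∩ Z) :
    ¬ ∀ᶠ y in 𝓝 p, hz n ps e e y = 0 := fun a => h.wall e he p hp (by
  filter_upwards [a, (h.oO.inter h.oZ).mem_nhds hp] with y b c t
  rw [hs_eq hz' h.l0 ⟨c.1, subset_closure c.2⟩, b, mul_zero, Complex.zero_re])

theorem Lz.out (h : Lz n O Z ps al pr) (hx : x ∈ O) (xn : x ∉ Z) {N : Set P} (hN : N ∈ 𝓝 x) :
    ∃ y ∈ N, y ∉ closure Z :=
  ((not_eventually.1 fun b => xn (h.mem hx b)).and_eventually hN).exists.imp fun _ a => a.symm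

/-- The determinant at all times, and the complex determinant, from three times. -/
theorem Lz.dt3 (h : Lz n O Z ps al pr) (hz' : CzS) (hp : p ∈ O ∩ closure Z) :
    (∀ t, dt (ps t 0) p = Real.cos (√n * t) ^ 2 * dt (ps 0 0) p
      + Real.sin (√n * t) ^ 2 * dt (ps (Real.pi / (2 * √n)) 0) p
      - Real.sin (√n * t) * Real.cos (√n * t) * (dt (ps 0 0) p + dt (ps (Real.pi / (2 * √n)) 0) p
        - 2 * dt (ps (Real.pi / (4 * √n)) 0) p)) ∧
    cz n ps 2 0 p * cz n ps 0 2 p - cz n ps 1 1 p * cz n ps 1 1 p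
      = dt (ps 0 0) p - dt (ps (Real.pi / (2 * √n)) 0) p + Complex.I * (dt (ps 0 0) p
        + dt (ps (Real.pi / (2 * √n)) 0) p - 2 * dt (ps (Real.pi / (4 * √n)) 0) p) := by
  have k : ∀ t a b, a + b = 2 → ps t 0 a b p = Real.cos (√n * t) * ps 0 0 a b p
      + Real.sin (√n * t) * ps (Real.pi / (2 * √n)) 0 a b p := fun t a b e => by
    rw [hz' n O Z ps al pr h.l0 t 0 a b (Or.inr e) p hp, ex_re]
    simp [cz]
  have q : 2 * dt (ps (Real.pi / (4 * √n)) 0) p = (ps 0 0 2 0 p + ps (Real.pi / (2 * √n)) 0 2 0 p)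
      * (ps 0 0 0 2 p + ps (Real.pi / (2 * √n)) 0 0 2 p)
      - (ps 0 0 1 1 p + ps (Real.pi / (2 * √n)) 0 1 1 p) ^ 2 := by
    have := (Real.sqrt_pos.2 h.n0).ne'
    rw [dt, k _ 2 0 rfl, k _ 0 2 rfl, k _ 1 1 rfl, show √n * (Real.pi / (4 * √n)) = Real.pi / 4 by
      field_simp, Real.cos_pi_div_four, Real.sin_pi_div_four]
    linear_combination ((ps 0 0 2 0 p + ps (Real.pi / (2 * √n)) 0 2 0 p)
      * (ps 0 0 0 2 p + ps (Real.pi / (2 * √n)) 0 0 2 p)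
      - (ps 0 0 1 1 p + ps (Real.pi / (2 * √n)) 0 1 1 p) ^ 2) / 2 * Real.sq_sqrt zero_le_two
  refine ⟨fun t => ?_, ?_⟩
  · rw [q, dt, k t 2 0 rfl, k t 0 2 rfl, k t 1 1 rfl, dt, dt]
    ring
  · have := congrArg Complex.ofReal q
    push_cast at this
    rw [this]
    simp only [dt, cz]
    push_cast
    linear_combination (ps (Real.pi / (2 * √n)) 0 2 0 p * ps (Real.pi / (2 * √n)) 0 0 2 p
      - (ps (Real.pi / (2 * √n)) 0 1 1 p : ℂ) ^ 2) * Complex.I_sq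

theorem Bad.del (h : Bad n O Z ps al pr) (hz' : CzS) (hp : p ∈ O ∩ closure Z) (pn : p ∉ Z) :
    cz n ps 2 0 p * cz n ps 0 2 p = cz n ps 1 1 p * cz n ps 1 1 p :=
  sub_eq_zero.1 ((h.dt3 hz' hp).2.trans (by simp [h.z p hp pn]))

theorem Bad.lam (h : Bad n O Z ps al pr) (hz' : CzS) (hp : p ∈ O ∩ closure Z) (pn : p ∉ Z)
    (u : cz n ps 0 2 p ≠ 0) :
    ∃ l : ℝ, cz n ps 1 1 p = l * cz n ps 0 2 p ∧ cz n ps 2 0 p = l ^ 2 * cz n ps 0 2 p := by
  have a := h.z p hp pn 0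
  have b := h.z p hp pn (Real.pi / (2 * √n))
  have d := h.del hz' hp pn
  have c := congrArg Complex.im d
  have e : (cz n ps 1 1 p / cz n ps 0 2 p).im = 0 := by
    rw [Complex.div_im, ← sub_div, div_eq_zero_iff]
    refine Or.inl (mul_self_eq_zero.1 ?_)
    simp only [cz, dt, Complex.mul_im, Complex.sub_re, Complex.sub_im, Complex.ofReal_re,
      Complex.ofReal_im, Complex.I_mul_re, Complex.I_re, Complex.I_im] at a b c ⊢
    linear_combination -(ps 0 0 0 2 p) ^ 2 * b - (ps (Real.pi / (2 * √n)) 0 0 2 p) ^ 2 * a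
      - ps 0 0 0 2 p * ps (Real.pi / (2 * √n)) 0 0 2 p * c
  have f : cz n ps 1 1 p = (cz n ps 1 1 p / cz n ps 0 2 p).re * cz n ps 0 2 p := by
    rw [← div_eq_iff u]
    exact Complex.ext rfl (by simpa using e)
  refine ⟨_, f, mul_right_cancel₀ u ?_⟩
  rw [d]
  linear_combination (cz n ps 1 1 p + (cz n ps 1 1 p / cz n ps 0 2 p).re * cz n ps 0 2 p) * f

theorem Bad.tr (h : Bad n O Z ps al pr) (hz' : CzS) (hp : p ∈ O ∩ closure Z) (pn : p ∉ Z)
    (u : cz n ps 0 2 p ≠ 0) : cz n ps 2 0 p + cz n ps 0 2 p ≠ 0 := by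
  obtain ⟨l, -, b⟩ := h.lam hz' hp pn u
  rw [b, ← add_one_mul]
  exact mul_ne_zero (by exact_mod_cast (by positivity : l ^ 2 + 1 ≠ 0)) u

theorem Bad.tr0 (h : Bad n O Z ps al pr) (hz' : CzS) (hp : p ∈ O ∩ closure Z) (pn : p ∉ Z)
    (e : cz n ps 2 0 p + cz n ps 0 2 p = 0) :
    cz n ps 2 0 p = 0 ∧ cz n ps 1 1 p = 0 ∧ cz n ps 0 2 p = 0 := by
  have u : cz n ps 0 2 p = 0 := by_contra fun u => h.tr hz' hp pn u e
  exact ⟨by simpa [u] using e, by simpa [u] using (h.del hz' hp pn).symm, u⟩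

/-- A straight arc in a null direction is impossible. -/
theorem Lz.str (b : Lz n O Z ps al pr) (hw : ZwS) (a : Ar Z σ h s) (m : (s, h s) ∈ O) {k : ℝ}
    (e : ∀ᶠ r in 𝓝 s, deriv h r = k ∧ cz n ps 2 0 (r, h r) + k * cz n ps 1 1 (r, h r) = 0 ∧
      cz n ps 1 1 (r, h r) + k * cz n ps 0 2 (r, h r) = 0) : False := by
  have l := loc_const' (f := fun r => h r - k * r) (s := s) (by
    filter_upwards [e, a.ev] with r c d
    exact ((d.2.1.differentiableAt (by simp)).hasDerivAt.fun_sub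
      ((hasDerivAt_id r).const_mul k)).congr_deriv (by simp [c.1]))
  obtain ⟨c, c0, hc⟩ : ∃ c : ℝ, 0 < c ∧ c ^ 2 * (1 + k ^ 2) = 1 :=
    ⟨(√(1 + k ^ 2))⁻¹, by positivity, by
      rw [inv_pow, Real.sq_sqrt (by positivity), inv_mul_cancel₀ (by positivity)]⟩
  have u : ((σ * c, σ * c * k) : P).1 ^ 2 + ((σ * c, σ * c * k) : P).2 ^ 2 = 1 := by
    linear_combination hc + c ^ 2 * (1 + k ^ 2) * a.1
  have t : Tendsto (mo (s, h s) (σ * c, σ * c * k)) (𝓝 0) (𝓝 (s, h s)) :=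
    (ct_mo _ _).tendsto' _ _ (mo_zero _ _)
  have t1 := (continuous_fst.tendsto _).comp t
  have v : ∀ᶠ r in 𝓝 (0 : ℝ), ∀ e' : P, hz n ps (σ * c, σ * c * k) e'
      (mo (s, h s) (σ * c, σ * c * k) (r, 0)) = 0 := by
    filter_upwards [((Continuous.prodMk_left (0 : ℝ)).tendsto 0).eventually
      ((t1.eventually l).and (t1.eventually e))] with r d e'
    have : mo (s, h s) (σ * c, σ * c * k) (r, 0) = ((mo (s, h s) (σ * c, σ * c * k) (r, 0)).1,
        h (mo (s, h s) (σ * c, σ * c * k) (r, 0)).1) := Prod.ext rfl (by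
      have := d.1
      simp only [Function.comp_apply, mo_apply] at this ⊢
      linarith)
    rw [this, hz]
    simp only [Function.comp_apply] at d
    push_cast
    linear_combination σ * c * (e'.1 * d.2.2.1 + e'.2 * d.2.2.2)
  refine hw n _ _ _ _ _ 0 (b.rot (s, h s) u) (by simpa [mo_zero] using m) ⟨rfl, ?_⟩
    (v.mono fun r c => cz_rot20.trans (c _)) (v.eventually_nhds.mono fun r c =>
      (hasDerivAt_const r (0 : ℂ)).congr_of_eventuallyEq (c.mono fun _ d => cz_rot11.trans (d _)))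
  filter_upwards [t.eventually a.2.2, t1.eventually l] with y d f g
  refine d.2 ?_
  simp only [Function.comp_apply, mo_apply] at f ⊢
  rw [eq_add_of_sub_eq f]
  have : y.2 < 0 := g
  have : c * (1 + k ^ 2) * y.2 < 0 := mul_neg_of_pos_of_neg (by positivity) this
  linear_combination this + c * (1 + k ^ 2) * y.2 * a.1

theorem Ar.td0 (a : Ar Z σ h s) (hW : IsOpen W) (b : Ad W Z w w₁ w₂) (m : (s, h s) ∈ W) {k : ℂ}
    (e : ∀ᶠ r in 𝓝 s, w (r, h r) = k) : w₁ (s, h s) + deriv h s * w₂ (s, h s) = 0 :=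
  (a.td hW b m).unique ((hasDerivAt_const s k).congr_of_eventuallyEq e)

/-- Zero trace, and a nonzero gradient. -/
theorem Bad.c0b (b : Bad n O Z ps al pr) (hz' : CzS) (ha : AnZS) (hw : ZwS)
    (e : ∀ p ∈ O ∩ closure Z, p ∉ Z → cz n ps 2 0 p + cz n ps 0 2 p = 0)
    (hx : x ∈ O ∩ closure Z) (xn : x ∉ Z) : cz n ps 0 1 x = 0 := by
  by_contra q
  have o : IsOpen {p | cz n ps 0 1 p ≠ 0} := isOpen_ne_fun (cz_ct b.j4 one_le_two) continuous_const
  have oW := b.oO.inter o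
  have aE := (b.adE ha).mono (W' := O ∩ {p | cz n ps 0 1 p ≠ 0}) inter_subset_left
  obtain ⟨σ, h, s, m, a⟩ := cf_arc oW b.oZ (aE.cmul (Complex.I / (Complex.I * √n * cz n ps 0 1 x)))
    (fun p c d f => by simp [e p ⟨c.1, d⟩ f]) (fun p c => b.mem c.1) ⟨hx.1, q⟩ hx.2 xn
    (by rw [div_mul_cancel₀ _ (mul_ne_zero b.c0 q)]; simp)
  have v : ∀ᶠ r in 𝓝 s, Ar Z σ h r ∧ (r, h r) ∈ O ∩ {p | cz n ps 0 1 p ≠ 0} :=
    a.ev.and (a.ct.eventually_mem (oW.mem_nhds m))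
  have z := fun {r} (c : Ar Z σ h r ∧ (r, h r) ∈ O ∩ {p | cz n ps 0 1 p ≠ 0}) =>
    b.tr0 hz' ⟨c.2.1, c.1.cl⟩ c.1.nm (e _ ⟨c.2.1, c.1.cl⟩ c.1.nm)
  have k : ∀ i j, i + j = 1 → ∀ᶠ r in 𝓝 s, cz n ps i j (r, h r) = cz n ps i j (s, h s) :=
    fun i j c => loc_const' (v.mono fun r d => (d.1.td oW (b.ad _ c.le) d.2).congr_deriv (by
      obtain ⟨rfl, rfl⟩ | ⟨rfl, rfl⟩ := one_cases c <;> simp [(z d).1, (z d).2]))
  have t : ∀ᶠ r in 𝓝 s, cz n ps 1 0 (r, h r) + deriv h r * cz n ps 0 1 (r, h r) = 0 :=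
    v.eventually_nhds.mono fun r d => mul_left_cancel₀ b.c0 (by
      linear_combination d.self_of_nhds.1.td0 oW aE d.self_of_nhds.2
        (d.mono fun _ f => e _ ⟨f.2.1, f.1.cl⟩ f.1.nm))
  refine b.str hw a m.1 (k := deriv h s) ?_
  filter_upwards [v, k 1 0 rfl, k 0 1 rfl, t] with r c d f g
  refine ⟨Complex.ofReal_injective (mul_right_cancel₀ m.2 ?_), by simp [(z c).1, (z c).2],
    by simp [(z c).2]⟩
  rw [d, f] at g
  linear_combination g - t.self_of_nhds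

/-- Zero trace. -/
theorem Bad.c0 (b : Bad n O Z ps al pr) (hz' : CzS) (ha : AnZS) (hw : ZwS)
    (e : ∀ p ∈ O ∩ closure Z, p ∉ Z → cz n ps 2 0 p + cz n ps 0 2 p = 0)
    (hx : x ∈ O ∩ closure Z) (xn : x ∉ Z) : False := by
  have q1 : ∀ p ∈ O ∩ closure Z, p ∉ Z → cz n ps 1 0 p = 0 := fun p c d => by
    have u : ((0, 1) : P).1 ^ 2 + ((0, 1) : P).2 ^ 2 = 1 := by simp
    have := (b.rot p u).c0b hz' ha hw (x := 0) (fun y f g => by
      simpa [cz_rot20, cz_rot02, hz, add_comm] using e _ ⟨f.1, (mo_closure u Z).subset f.2⟩ g)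
      (by simpa [mo_closure u, mo_zero] using c) (by simpa [mo_zero] using d)
    simpa [cz_rot01, mo_zero] using this
  obtain ⟨r, r0, hr⟩ := Metric.isOpen_iff.1 b.oO x hx.1
  have aE := b.adE ha
  have oZ := b.oO.inter b.oZ
  have an := fun p c => ((ha n O Z ps al pr b.l0 p c).1 2 0 (Or.inr rfl)).1.add
    ((ha n O Z ps al pr b.l0 p c).1 0 2 (Or.inr rfl)).1
  have d1 : ∀ i, ∀ p ∈ O ∩ Z, cd (ee i) (fun p => cz n ps 2 0 p + cz n ps 0 2 p) p
      = Complex.I * √n * ![cz n ps 1 0, cz n ps 0 1] i p := Fin.forall_fin_two.2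
    ⟨fun p c => cd0_of (aE.d p c), fun p c => cd1_of (aE.d p c)⟩
  have d2 : ∀ i j, ∀ p ∈ O ∩ Z, cd (ee j) (cd (ee i) fun p => cz n ps 2 0 p + cz n ps 0 2 p) p
      = Complex.I * √n * ![![cz n ps 2 0, cz n ps 1 1], ![cz n ps 1 1, cz n ps 0 2]] i j p :=
    fun i j p c => by
      rw [(cd_congr _ (mem_of_superset (oZ.mem_nhds c) (d1 i))).eq_of_nhds]
      fin_cases i <;> fin_cases j
      exacts [cd0_of (((b.ad O le_rfl).cmul _).d p c), cd1_of (((b.ad O le_rfl).cmul _).d p c),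
        cd0_of (((b.ad O le_rfl).cmul _).d p c), cd1_of (((b.ad O le_rfl).cmul _).d p c)]
  have z := extV (ι := Unit) (f := fun _ p => cz n ps 2 0 p + cz n ps 0 2 p)
    (c := ‖Complex.I * √n‖) Metric.isOpen_ball (convex_ball x r).isPreconnected b.oZ
    (fun _ p c => (an p ⟨hr c.1, c.2⟩).contDiffAt) (fun _ p c d f => ?_) (fun _ p c => ?_)
    (b.out hx.1 xn (Metric.ball_mem_nhds x r0)) ()
  · obtain ⟨y, c⟩ := mem_closure_iff_nhds.1 hx.2 _ (Metric.ball_mem_nhds x r0)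
    have v : ∀ᶠ p in 𝓝 y, p ∈ Metric.ball x r ∩ Z := (Metric.isOpen_ball.inter b.oZ).mem_nhds c
    refine b.wl hz' (e := (1, 0)) (by simp) ⟨hr c.1, c.2⟩ (v.eventually_nhds.mono fun p d => ?_)
    have := d2 0 0 p ⟨hr d.self_of_nhds.1, d.self_of_nhds.2⟩
    rw [(cd_congr _ (cd_congr _ (g := fun _ => 0) (d.mono z))).eq_of_nhds,
      show cd (ee 0) (fun _ => 0) = fun _ => 0 from funext fun _ => by simp [cd]] at this
    simpa [cd, hz, b.c0, (Real.sqrt_pos.2 b.n0).ne'] using this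
  · have m : p ∈ O ∩ closure Z := ⟨hr c, d⟩
    have v : ∀ᶠ y in 𝓝[Z] p, y ∈ O ∩ Z :=
      inter_mem (nhdsWithin_le_nhds (b.oO.mem_nhds m.1)) self_mem_nhdsWithin
    obtain ⟨z1, z2, z3⟩ := b.tr0 hz' m f (e p m f)
    have k : ∀ i j, i + j ≤ 2 → cz n ps i j p = 0 → Tendsto (fun y => Complex.I * √n * cz n ps i j y)
        (𝓝[Z] p) (𝓝 0) := fun i j g l =>
      Ad.tz (continuous_const.mul (cz_ct b.j4 g)).continuousOn b.oO m (by simp [l])
    refine ⟨Ad.tz aE.c b.oO m (e p m f), fun i => ⟨Tendsto.congr' (v.mono fun y g => (d1 i y g).symm) ?_,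
      fun j => Tendsto.congr' (v.mono fun y g => (d2 i j y g).symm) ?_⟩⟩
    · fin_cases i
      exacts [k 1 0 one_le_two (q1 p m f), k 0 1 one_le_two (b.c0b hz' ha hw e m f)]
    · fin_cases i <;> fin_cases j
      exacts [k 2 0 le_rfl z1, k 1 1 le_rfl z2, k 1 1 le_rfl z2, k 0 2 le_rfl z3]
  · rw [lapC, d2 0 0 p ⟨hr c.1, c.2⟩, d2 1 1 p ⟨hr c.1, c.2⟩, ← mul_add, norm_mul, Fintype.sum_unique,
      add_assoc]
    exact mul_le_mul_of_nonneg_left (le_add_of_nonneg_right (by positivity)) (norm_nonneg _)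

end Pool.Agent.MP_ed9623_an.R77
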