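import Pool.Agent.MP_ed9623_an.R77.Rd1

/-! Degenerate pieces of the boundary of the zone: the determinant has a nonzero gradient. -/

open Filter Topology Set

namespace Pool.Agent.MP_ed9623_an.R77

open H64 H77 R1

variable {n : ℝ} {O W Z : Set P} {ps al pr : ℝ → ℕ → J2} {x p : P} {σ s : ℝ} {h : ℝ → ℝ}

theorem pd_lf {f : P → ℝ} {u v : ℝ} (h : HasFDerivAt f (lf u v) p) (e : P) :
    pd e f p = u * e.1 + v * e.2 := by simp [pd, h.fderiv]

theorem hasF_pd {f : P → ℝ} (h : DifferentiableAt ℝ f p) :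
    HasFDerivAt f (lf (pd (ee 0) f p) (pd (ee 1) f p)) p :=
  h.hasFDerivAt.congr_fderiv (by ext <;> simp [pd, ee])

theorem Lz.dc (b : Lz n O Z ps al pr) (t : ℝ) : ∀ p ∈ O, ContDiffAt ℝ (1 : ℕ) (dt (ps t 0)) p :=
  fun _ => dt_c1 (b.tj t) b.oO

theorem Lz.pdc (b : Lz n O Z ps al pr) (hz' : CzS) (hp : p ∈ O ∩ closure Z) (e : P) :
    Continuous fun t => pd e (dt (ps t 0)) p := by
  have c := fun t => ((b.dc t p hp.1).fderiv_right (m := 0) (by simp)).continuousAt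
  have k := fun t => tendsto_nhds_unique_of_frequently_eq (c t)
    ((((c 0).const_smul (Real.cos (√n * t) ^ 2)).add ((c (Real.pi / (2 * √n))).const_smul
      (Real.sin (√n * t) ^ 2))).sub ((((c 0).add (c (Real.pi / (2 * √n)))).sub
        ((c (Real.pi / (4 * √n))).const_smul (2 : ℝ))).const_smul
          (Real.sin (√n * t) * Real.cos (√n * t))))
    ((mem_closure_iff_frequently.1 (b.oO.inter_closure hp)).mono fun y a => by
      have d := fun t => ((b.dc t y a.1).differentiableAt (by simp)).hasFDerivAt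
      exact (((((d _).const_mul _).add ((d _).const_mul _)).sub ((((d _).add (d _)).sub
        ((d _).const_mul _)).const_mul _)).congr_of_eventuallyEq (mem_of_superset
          ((b.oO.inter b.oZ).mem_nhds a) fun q g => (b.dt3 hz' ⟨g.1, subset_closure g.2⟩).1 t)).fderiv)
  refine Continuous.clm_apply (funext k ▸ ?_) continuous_const
  simp only [Pi.add_apply, Pi.sub_apply, Pi.smul_apply]
  fun_prop

theorem Bad.chart (b : Bad n O Z ps al pr) (a : Ar Z σ h s) (m : (s, h s) ∈ O) (t : ℝ)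
    {q : ℝ → Prop} (hq : ∀ᶠ r in 𝓝 s, q r) : ∃ U G f ρ,
    U81.Jet U ![ps t 0 1 0, ps t 0 0 1] (al t 0 0 0) G f ∧ (s, h s) ∈ U ∧ U81.C1 ρ ∧
    ρ (s, h s) = 0 ∧ HasFDerivAt ρ (lf (-σ * deriv h s) σ) (s, h s) ∧
    (∀ y ∈ U, ρ y < 0 → fderiv ℝ (al t 0 0 0) y = 0) ∧
    (∀ y ∈ U, ρ y = 0 → (y = (y.1, h y.1) ∧ q y.1) ∧ f y = 0) ∧
    HasFDerivAt f (lf (-deriv h s * pd (ee 1) (dt (ps t 0)) (s, h s))
      (pd (ee 1) (dt (ps t 0)) (s, h s))) (s, h s) := by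
  obtain ⟨U, G, f, xU, UO, J⟩ := rowJetS O _ _ _ _ b.oO m (b.tj t)
  obtain ⟨V, hV, oV, xV⟩ := eventually_nhds_iff.1 (a.2.2.and (continuous_fst.continuousAt.eventually
    (show ∀ᶠ r in 𝓝 ((s, h s) : P).1, _ from a.ev.and hq)))
  obtain ⟨r, r0, hr, hc⟩ := cutC (E := ℝ) oV xV
  obtain ⟨ρ, ρ1, ρ2⟩ := hc 1 (fun y => σ * (y.2 - h y.1)) fun y c =>
    contDiffAt_const.mul (contDiffAt_snd.sub ((hV y c).2.1.2.1.comp y contDiffAt_fst))
  have fe : ∀ y ∈ U, f y = dt (ps t 0) y := fun y c => by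
    rw [J.fe y c]
    simp only [U81.Jc, Matrix.cons_val_zero, Matrix.cons_val_one, pd0_of ((b.j4 t).d 1 0 le_rfl y),
      pd1_of ((b.j4 t).d 1 0 le_rfl y), pd0_of ((b.j4 t).d 0 1 le_rfl y),
      pd1_of ((b.j4 t).d 0 1 le_rfl y), dt, sq]
  have xr := Metric.mem_ball_self (x := ((s, h s) : P)) r0
  refine ⟨U ∩ Metric.ball (s, h s) r, G, f, ρ, ⟨J.op.inter Metric.isOpen_ball, J.cp, J.ca, J.cg, J.cf,
    fun y c => J.sy y c.1, fun y c => J.fe y c.1, fun y c => J.eq y c.1⟩, ⟨xU, xr⟩, ρ1,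
    by simp [ρ2 _ xr], ?_, fun y c d => ?_, fun y c d => ?_, ?_⟩
  · refine (((hasFDerivAt_snd.sub ((a.2.1.differentiableAt (by simp)).hasDerivAt.hasFDerivAt.comp
      ((s, h s) : P) hasFDerivAt_fst)).const_mul σ).congr_fderiv (by ext <;> simp)).congr_of_eventuallyEq
      (mem_of_superset (Metric.ball_mem_nhds _ r0) ρ2)
  · have z : y ∈ O ∩ Z := ⟨UO c.1, (hV y (hr c.2)).1.2 (ρ2 y c.2 ▸ d)⟩
    rw [((b.tj t).j0.d 0 0 le_rfl y).fderiv]
    ext <;> simp [b.za t 0 1 0 rfl y z, b.za t 0 0 1 rfl y z]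
  · have e : y = (y.1, h y.1) := Prod.ext rfl (sub_eq_zero.1 ((mul_eq_zero.1
      ((ρ2 y c.2).symm.trans d)).resolve_left fun g => by simpa [g] using a.1))
    obtain ⟨-, g, k⟩ := hV y (hr c.2)
    exact ⟨⟨e, k⟩, (fe y c.1).trans (b.z y ⟨UO c.1, e ▸ g.cl⟩ (e ▸ g.nm) t)⟩
  · have := a.td0 b.oO (ad_real (b.dc t)) m (k := 0) ((a.ev.and (a.ct.eventually_mem
      (b.oO.mem_nhds m))).mono fun r c => by rw [b.z _ ⟨c.2, c.1.cl⟩ c.1.nm, Complex.ofReal_zero])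
    rw [neg_mul, ← eq_neg_of_add_eq_zero_left (show pd (ee 0) (dt (ps t 0)) (s, h s) + deriv h s
      * pd (ee 1) (dt (ps t 0)) (s, h s) = 0 by exact_mod_cast this)]
    exact (hasF_pd ((b.dc t _ m).differentiableAt (by simp))).congr_of_eventuallyEq
      (mem_of_superset (J.op.mem_nhds xU) fe)

theorem g0_of (j : Jt 3 (al s 0)) (e : ∀ᶠ y in 𝓝 x, fderiv ℝ (al s 0 0 0) y = 0) : G0 (al s 0) x :=
  e.mono fun y a => ⟨(pd0_of (j.d 0 0 le_rfl y)).symm.trans (by simp [pd, a]),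
    (pd1_of (j.d 0 0 le_rfl y)).symm.trans (by simp [pd, a])⟩

theorem Bad.c1a (b : Bad n O Z ps al pr) (hz' : CzS) (hv : U81.VtS) (hk : U81.VkS)
    (a : Ar Z σ h s) (m : (s, h s) ∈ O) (u : cz n ps 0 2 (s, h s) ≠ 0) {t : ℝ}
    (d : pd (ee 1) (dt (ps t 0)) (s, h s) ≠ 0)
    (e : cz n ps 1 1 (s, h s) + deriv h s * cz n ps 0 2 (s, h s) ≠ 0 ∨
      ∀ᶠ r in 𝓝 s, cz n ps 0 1 (r, h r) = cz n ps 0 1 (s, h s)) : False := by
  have cl : (s, h s) ∈ O ∩ closure Z := ⟨m, a.cl⟩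
  have z := hz' n O Z ps al pr b.l0
  have c1 := b.pdc hz' cl (ee 1)
  have c2 : Continuous fun r => ps r 0 0 2 (s, h s) := by
    rw [funext fun r => z r 0 0 2 (Or.inr rfl) _ cl]; exact ex_re_ct _ _ _
  have σ0 : σ ≠ 0 := fun g => by simpa [g] using a.1
  obtain ⟨t', g1, g2⟩ := ((ex_freq b.n0 u t).and_eventually (c1.continuousAt.eventually_ne d)).exists
  refine a.nm (b.max _ cl _ ((isOpen_ne_fun c1 continuous_const).inter
    (isOpen_ne_fun c2 continuous_const)) ⟨t', g2, (z t' 0 0 2 (Or.inr rfl) _ cl).symm ▸ g1⟩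
    fun t ⟨g1, g2⟩ => g0_of (b.tj t).j0 ?_)
  have d10 := (b.j4 t).d 1 0 le_rfl (s, h s)
  have d01 := (b.j4 t).d 0 1 le_rfl (s, h s)
  have nn : U81.hs ![ps t 0 1 0, ps t 0 0 1] (U81.nv (1, 0)) (U81.nv (1, 0)) (s, h s) ≠ 0 := by
    simpa [U81.hs, U81.nv, pd_lf d01] using g2
  rcases e with e | e
  · obtain ⟨U, G, f, ρ, J, xU, ρ1, ρ0, dρ, z1, z2, df⟩ := b.chart a m t (Eventually.of_forall fun _ => trivial)
    obtain ⟨l, l1, -⟩ := b.lam hz' cl a.nm u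
    have : ps t 0 1 1 (s, h s) + deriv h s * ps t 0 0 2 (s, h s) ≠ 0 := by
      rw [z t 0 1 1 (Or.inr rfl) _ cl, l1, mul_left_comm, Complex.re_ofReal_mul,
        ← z t 0 0 2 (Or.inr rfl) _ cl, ← add_mul]
      rw [l1, ← add_mul] at e
      exact mul_ne_zero (by exact_mod_cast left_ne_zero_of_mul e) g2
    refine hv U _ (1, 0) _ _ G f ρ J xU (by simp) nn ρ1 ρ0 (fun k => mul_ne_zero σ0 this ?_) z1
      (Or.inr (Or.inr ⟨fun y c d => (z2 y c d).2, fun k => mul_ne_zero g1 this ?_⟩)) <;>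
    · simp only [U81.XJ, U81.hs, U81.nv, pd_lf d10, pd_lf d01, pd_lf dρ, pd_lf df,
        Matrix.cons_val_zero, Matrix.cons_val_one] at k
      linear_combination -k
  · obtain ⟨U, G, f, ρ, J, xU, ρ1, ρ0, dρ, z1, z2, df⟩ := b.chart a m t
      (e.and (a.ev.and (a.ct.eventually_mem (b.oO.mem_nhds m))))
    obtain ⟨M, M0, hM⟩ := (b.tj t).j0.c 1 0 le_rfl
    obtain ⟨N, N0, hN⟩ := (b.tj t).j0.c 0 1 le_rfl
    have da := (b.tj t).j0.d 0 0 le_rfl
    refine hk U _ (1, 0) _ _ G f ρ (M + N) J xU (by simp) nn (fun y _ y' _ => Fin.forall_fin_two.2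
      ⟨?_, ?_⟩) ρ1 ρ0 (by simpa [pd_lf dρ, U81.nv] using σ0) z1 (fun y c d => ⟨?_, (z2 y c d).2⟩)
      (by simpa [pd_lf df, U81.nv] using g1)
    · rw [pd0_of (da y), pd0_of (da y')]
      exact ((hM y).2 y').trans (by gcongr; linarith)
    · rw [pd1_of (da y), pd1_of (da y')]
      exact ((hN y).2 y').trans (by gcongr; linarith)
    · obtain ⟨⟨k1, k2, k3, k4⟩, -⟩ := z2 y c d
      rw [k1]
      simp [U81.dir, U81.nv, z t 0 0 1 (Or.inl rfl) _ cl, z t 0 0 1 (Or.inl rfl) _ ⟨k4, k3.cl⟩, k2]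

/-- The gradient of the determinant vanishes in a direction which is not null. -/
theorem Bad.c1 (b : Bad n O Z ps al pr) (hz' : CzS) (hv : U81.VtS) (hk : U81.VkS)
    (hx : x ∈ O ∩ closure Z) (xn : x ∉ Z) (u : cz n ps 0 2 x ≠ 0) (t : ℝ) :
    pd (ee 1) (dt (ps t 0)) x = 0 := by
  by_contra d
  obtain ⟨W, hW, oW, xW⟩ := eventually_nhds_iff.1 ((((cz_ct b.j4 le_rfl).continuousAt.eventually_ne
    u).and ((((b.dc t x hx.1).fderiv_right (m := 0) (by simp)).continuousAt.clm_apply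
      continuousAt_const).eventually_ne d)).and (b.oO.mem_nhds hx.1))
  obtain ⟨σ, h, s, m, a⟩ := cf_arc oW b.oZ ((ad_real fun p c => b.dc t p (hW p c).2).cmul Complex.I)
    (fun p c d f => by simp [b.z p ⟨(hW p c).2, d⟩ f]) (fun p c => b.mem (hW p c).2) xW hx.2 xn
    (by simpa using d)
  have v := a.ev.and (a.ct.eventually_mem (oW.mem_nhds m))
  by_cases e : ∀ᶠ r in 𝓝 s, cz n ps 1 1 (r, h r) + deriv h r * cz n ps 0 2 (r, h r) = 0
  · exact b.c1a hz' hv hk a (hW _ m).2 (hW _ m).1.1 (hW _ m).1.2 (Or.inr (loc_const'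
      ((v.and e).mono fun r c => (c.1.1.td oW (b.ad _ le_rfl) c.1.2).congr_deriv c.2)))
  · obtain ⟨r, c, f, g⟩ := ((not_eventually.1 e).and_eventually v).exists
    exact b.c1a hz' hv hk f (hW _ g).2 (hW _ g).1.1 (hW _ g).1.2 (Or.inl c)

end Pool.Agent.MP_ed9623_an.R77
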