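import Pool.Agent.MP_ed9623_an.R77.Jt

/-! Rigid motions act on jets. -/

open MeasureTheory Filter Topology Set
open scoped ContDiff

namespace Pool.Agent.MP_ed9623_an.R77

open H64 H77

/-- The rigid motion `p ↦ x + p₁ τ + p₂ τ^⊥`. -/
def mo (x τ : P) : P → P := Th x τ fun _ => 0

/-- Its inverse. -/
def moi (x τ : P) : P → P := Thi x τ fun _ => 0

/-- The jet of the derivative along `τ`. -/
def dT (τ : P) (F : J2) : J2 := fun a b p => τ.1 * F (a + 1) b p + τ.2 * F a (b + 1) p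

/-- The jet read in the moved frame. -/
def rot (x τ : P) (F : J2) : J2 :=
  fun a b p => (dT τ)^[a] ((dT (-τ.2, τ.1))^[b] F) 0 0 (mo x τ p)

variable {x τ : P} {k : ℕ} {F G : J2} {f : P → ℝ}

theorem mo_apply (x τ p : P) :
    mo x τ p = (x.1 + τ.1 * p.1 - τ.2 * p.2, x.2 + τ.2 * p.1 + τ.1 * p.2) := by simp [mo, Th]

theorem moi_apply (x τ q : P) : moi x τ q = (τ.1 * (q.1 - x.1) + τ.2 * (q.2 - x.2),
    τ.1 * (q.2 - x.2) - τ.2 * (q.1 - x.1)) := by simp [moi, Thi]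

theorem mo_zero (x τ : P) : mo x τ 0 = x := Th_zero rfl x τ

theorem moi_mo (h : τ.1 ^ 2 + τ.2 ^ 2 = 1) (p : P) : moi x τ (mo x τ p) = p := Thi_Th h p

theorem mo_moi (h : τ.1 ^ 2 + τ.2 ^ 2 = 1) (p : P) : mo x τ (moi x τ p) = p := Th_Thi h p

theorem ct_mo (x τ : P) : Continuous (mo x τ) := (sm_Th Gam.zero x τ).continuous

theorem ct_moi (x τ : P) : Continuous (moi x τ) := (sm_Thi Gam.zero x τ).continuous

/-- The rigid motion as a homeomorphism. -/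
def moH (x : P) (h : τ.1 ^ 2 + τ.2 ^ 2 = 1) : P ≃ₜ P :=
  ⟨⟨mo x τ, moi x τ, moi_mo h, mo_moi h⟩, ct_mo x τ, ct_moi x τ⟩

theorem mo_closure (h : τ.1 ^ 2 + τ.2 ^ 2 = 1) (Z : Set P) :
    closure (mo x τ ⁻¹' Z) = mo x τ ⁻¹' closure Z := ((moH x h).preimage_closure Z).symm

theorem mp_mo (h : τ.1 ^ 2 + τ.2 ^ 2 = 1) : MeasurePreserving (mo x τ) volume volume :=
  (rowTh x τ _ h Gam.zero).1

theorem ae_mo (h : τ.1 ^ 2 + τ.2 ^ 2 = 1) {q : P → Prop} (hq : ∀ᵐ p, q p) :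
    ∀ᵐ p, q (mo x τ p) := (mp_mo h).quasiMeasurePreserving.ae hq

theorem map_mo (h : τ.1 ^ 2 + τ.2 ^ 2 = 1) (p : P) : map (mo x τ) (𝓝 p) = 𝓝 (mo x τ p) :=
  (moH x h).map_nhds_eq p

theorem ev_mo (h : τ.1 ^ 2 + τ.2 ^ 2 = 1) {p : P} {q : P → Prop} :
    (∀ᶠ y in 𝓝 p, q (mo x τ y)) ↔ ∀ᶠ y in 𝓝 (mo x τ p), q y := by
  rw [← map_mo h, eventually_map]

theorem dist_mo (h : τ.1 ^ 2 + τ.2 ^ 2 = 1) (p q : P) :
    dist (mo x τ p) (mo x τ q) ≤ 4 * dist p q := by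
  have a1 : |τ.1| ≤ 1 := abs_le_one_iff_mul_self_le_one.2 (by nlinarith [sq_nonneg τ.2])
  have a2 : |τ.2| ≤ 1 := abs_le_one_iff_mul_self_le_one.2 (by nlinarith [sq_nonneg τ.1])
  have b1 : |p.1 - q.1| ≤ dist p q := by
    rw [Prod.dist_eq, ← Real.dist_eq]; exact le_max_left _ _
  have b2 : |p.2 - q.2| ≤ dist p q := by
    rw [Prod.dist_eq, ← Real.dist_eq]; exact le_max_right _ _
  have c : ∀ {u v : ℝ}, |u| ≤ 1 → |v| ≤ dist p q → |u * v| ≤ dist p q := fun c d => by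
    rw [abs_mul]; exact (mul_le_of_le_one_left (abs_nonneg _) c).trans d
  have d0 := dist_nonneg (x := p) (y := q)
  rw [mo_apply, mo_apply, Prod.dist_eq, max_le_iff, Real.dist_eq, Real.dist_eq]
  constructor
  · have := abs_sub (τ.1 * (p.1 - q.1)) (τ.2 * (p.2 - q.2))
    refine le_trans (le_of_eq (congrArg _ (by ring))) (this.trans ?_)
    linarith [c a1 b1, c a2 b2]
  · have := abs_add_le (τ.2 * (p.1 - q.1)) (τ.1 * (p.2 - q.2))
    refine le_trans (le_of_eq (congrArg _ (by ring))) (this.trans ?_)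
    linarith [c a2 b1, c a1 b2]

theorem Hg.mo (h : τ.1 ^ 2 + τ.2 ^ 2 = 1) (hf : Hg f) : Hg fun p => f (mo x τ p) := by
  obtain ⟨M, m0, hM⟩ := hf
  refine ⟨2 * M, by positivity, fun p => ⟨(hM _).1.trans (by linarith), fun q =>
    ((hM _).2 _).trans ?_⟩⟩
  have : √(dist (R77.mo x τ p) (R77.mo x τ q)) ≤ 2 * √(dist p q) := by
    refine (Real.sqrt_le_sqrt (dist_mo h p q)).trans (le_of_eq ?_)
    rw [Real.sqrt_mul (by norm_num), show (4 : ℝ) = 2 ^ 2 by norm_num, Real.sqrt_sq (by norm_num)]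
  nlinarith

/-- The chain rule, for functions with values in any normed space. -/
theorem hasF_mo (x τ p : P) : HasFDerivAt (mo x τ) ((lf τ.1 (-τ.2)).prod (lf τ.2 τ.1)) p := by
  have a := hasFDerivAt_fst (𝕜 := ℝ) (p := p)
  have b := hasFDerivAt_snd (𝕜 := ℝ) (p := p)
  rw [funext (mo_apply x τ)]
  refine ((((a.const_mul τ.1).const_add x.1).sub (b.const_mul τ.2)).prodMk
    (((a.const_mul τ.2).const_add x.2).add (b.const_mul τ.1))).congr_fderiv ?_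
  ext <;> simp

theorem hasF_comp {u v : ℝ} {p : P} (h : HasFDerivAt f (lf u v) (mo x τ p)) :
    HasFDerivAt (fun q => f (mo x τ q)) (lf (τ.1 * u + τ.2 * v) (-τ.2 * u + τ.1 * v)) p := by
  refine (h.comp p (hasF_mo x τ p)).congr_fderiv ?_
  ext <;> simp <;> ring

theorem dT_comm (τ σ : P) : Function.Commute (dT τ) (dT σ) := fun F => by
  funext a b p
  simp only [dT]
  ring

theorem Jt.dT (h : Jt (k + 1) F) (τ : P) : Jt k (dT τ F) :=
  ((h.der 1 0 le_rfl).cmul τ.1).add ((h.der 0 1 le_rfl).cmul τ.2)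

theorem Jt.iter (τ : P) (a : ℕ) : ∀ {F : J2}, Jt (k + a) F → Jt k ((R77.dT τ)^[a] F) := by
  induction a with
  | zero => exact id
  | succ a ih => exact fun h => ih (Jt.dT (k := k + a) h τ)

theorem rot_x (x τ : P) (F : J2) (a b : ℕ) : rot x τ F (a + 1) b = fun p =>
    dT τ ((dT τ)^[a] ((dT (-τ.2, τ.1))^[b] F)) 0 0 (mo x τ p) := by
  funext p; rw [rot, Function.iterate_succ_apply']

theorem rot_y (x τ : P) (F : J2) (a b : ℕ) : rot x τ F a (b + 1) = fun p =>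
    dT (-τ.2, τ.1) ((dT τ)^[a] ((dT (-τ.2, τ.1))^[b] F)) 0 0 (mo x τ p) := by
  funext p; rw [rot, Function.iterate_succ_apply', ((dT_comm τ _).iterate_left a).eq]

theorem Jt.rot (h : Jt k F) (x : P) (hτ : τ.1 ^ 2 + τ.2 ^ 2 = 1) : Jt k (rot x τ F) := by
  have j : ∀ a b m, a + b + m ≤ k → Jt m ((R77.dT τ)^[a] ((R77.dT (-τ.2, τ.1))^[b] F)) :=
    fun a b m e => Jt.iter τ a (Jt.iter _ b (h.mono (by omega)))
  have w := fun a b (e : a + b < k) => H1O.zero_iff.1 ((rowTh x τ _ hτ Gam.zero).2.2.2.2.2 _ _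
    ((j a b 1 e).h1 (a := 0) (b := 0) one_pos))
  refine ⟨fun a b e => ((j a b 0 e).m 0 0 le_rfl).comp_measurePreserving (mp_mo hτ),
    fun a b e => ?_, fun a b e => ?_, fun a b e => ((j a b 2 e).c 0 0 le_rfl).mo hτ,
    fun a b e p => ?_⟩
  · refine ((w a b e).2 0).2.congr (Eventually.of_forall fun _ _ => rfl)
      (Eventually.of_forall fun p _ => ?_)
    rw [rot_x]; simp [tv, Rm, R77.dT, mo]
  · refine ((w a b e).2 1).2.congr (Eventually.of_forall fun _ _ => rfl)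
      (Eventually.of_forall fun p _ => ?_)
    rw [rot_y]; simp [tv, Rm, R77.dT, mo]
  · rw [rot_x, rot_y]
    exact hasF_comp ((j a b 3 e).d 0 0 le_rfl _)

theorem rot00 (p : P) : rot x τ F 0 0 p = F 0 0 (mo x τ p) := rfl

theorem rot10 (p : P) : rot x τ F 1 0 p = τ.1 * F 1 0 (mo x τ p) + τ.2 * F 0 1 (mo x τ p) := rfl

theorem rot01 (p : P) : rot x τ F 0 1 p = -τ.2 * F 1 0 (mo x τ p) + τ.1 * F 0 1 (mo x τ p) := rfl

theorem rot20 (p : P) : rot x τ F 2 0 p = τ.1 ^ 2 * F 2 0 (mo x τ p)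
    + 2 * (τ.1 * τ.2) * F 1 1 (mo x τ p) + τ.2 ^ 2 * F 0 2 (mo x τ p) := by
  simp [rot, dT]; ring

theorem rot11 (p : P) : rot x τ F 1 1 p = -(τ.1 * τ.2) * F 2 0 (mo x τ p)
    + (τ.1 ^ 2 - τ.2 ^ 2) * F 1 1 (mo x τ p) + τ.1 * τ.2 * F 0 2 (mo x τ p) := by
  simp [rot, dT]; ring

theorem rot02 (p : P) : rot x τ F 0 2 p = τ.2 ^ 2 * F 2 0 (mo x τ p)
    - 2 * (τ.1 * τ.2) * F 1 1 (mo x τ p) + τ.1 ^ 2 * F 0 2 (mo x τ p) := by
  simp [rot, dT]; ring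

theorem lp_rot10 (h : τ.1 ^ 2 + τ.2 ^ 2 = 1) (p : P) : lp (rot x τ F) 1 0 p
    = τ.1 * lp F 1 0 (mo x τ p) + τ.2 * lp F 0 1 (mo x τ p) := by
  simp [lp, rot, dT]
  linear_combination (τ.1 * F 3 0 (mo x τ p) + τ.2 * F 2 1 (mo x τ p) + τ.1 * F 1 2 (mo x τ p)
    + τ.2 * F 0 3 (mo x τ p)) * h

theorem lp_rot01 (h : τ.1 ^ 2 + τ.2 ^ 2 = 1) (p : P) : lp (rot x τ F) 0 1 p
    = -τ.2 * lp F 1 0 (mo x τ p) + τ.1 * lp F 0 1 (mo x τ p) := by
  simp [lp, rot, dT]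
  linear_combination (-τ.2 * F 3 0 (mo x τ p) + τ.1 * F 2 1 (mo x τ p) - τ.2 * F 1 2 (mo x τ p)
    + τ.1 * F 0 3 (mo x τ p)) * h

theorem br_rot10 (h : τ.1 ^ 2 + τ.2 ^ 2 = 1) (p : P) : br (rot x τ F) (rot x τ G) 1 0 p
    = τ.1 * br F G 1 0 (mo x τ p) + τ.2 * br F G 0 1 (mo x τ p) := by
  simp only [br, zero_add, Nat.reduceAdd, rot10, rot01, rot20, rot11]
  linear_combination (F 1 0 (mo x τ p) * (τ.1 * G 1 1 (mo x τ p) + τ.2 * G 0 2 (mo x τ p))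
    - F 0 1 (mo x τ p) * (τ.1 * G 2 0 (mo x τ p) + τ.2 * G 1 1 (mo x τ p))) * h

theorem br_rot01 (h : τ.1 ^ 2 + τ.2 ^ 2 = 1) (p : P) : br (rot x τ F) (rot x τ G) 0 1 p
    = -τ.2 * br F G 1 0 (mo x τ p) + τ.1 * br F G 0 1 (mo x τ p) := by
  simp only [br, zero_add, Nat.reduceAdd, rot10, rot01, rot02, rot11]
  linear_combination (F 1 0 (mo x τ p) * (-τ.2 * G 1 1 (mo x τ p) + τ.1 * G 0 2 (mo x τ p))
    - F 0 1 (mo x τ p) * (-τ.2 * G 2 0 (mo x τ p) + τ.1 * G 1 1 (mo x τ p))) * h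

theorem cf_rot (h : τ.1 ^ 2 + τ.2 ^ 2 = 1) (p : P) :
    cf (rot x τ F) (rot x τ G) p = cf F G (mo x τ p) := by
  simp only [cf, rot20, rot11, rot02]
  linear_combination (τ.1 ^ 2 + τ.2 ^ 2 + 1) * (F 0 2 (mo x τ p) * G 2 0 (mo x τ p)
    - 2 * (F 1 1 (mo x τ p) * G 1 1 (mo x τ p)) + F 2 0 (mo x τ p) * G 0 2 (mo x τ p)) * h

theorem dt_rot (h : τ.1 ^ 2 + τ.2 ^ 2 = 1) (p : P) : dt (rot x τ F) p = dt F (mo x τ p) := by
  simp only [dt, rot20, rot11, rot02]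
  linear_combination (τ.1 ^ 2 + τ.2 ^ 2 + 1) * (F 2 0 (mo x τ p) * F 0 2 (mo x τ p)
    - F 1 1 (mo x τ p) ^ 2) * h

theorem nl_rot10 (h : τ.1 ^ 2 + τ.2 ^ 2 = 1) (ps al : ℕ → J2) (j : ℕ) (p : P) :
    nl (fun j => rot x τ (ps j)) (fun j => rot x τ (al j)) j 1 0 p
      = τ.1 * nl ps al j 1 0 (mo x τ p) + τ.2 * nl ps al j 0 1 (mo x τ p) := by
  simp only [nl, br_rot10 h, Finset.mul_sum, ← Finset.sum_add_distrib]
  exact Finset.sum_congr rfl fun _ _ => by ring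

theorem nl_rot01 (h : τ.1 ^ 2 + τ.2 ^ 2 = 1) (ps al : ℕ → J2) (j : ℕ) (p : P) :
    nl (fun j => rot x τ (ps j)) (fun j => rot x τ (al j)) j 0 1 p
      = -τ.2 * nl ps al j 1 0 (mo x τ p) + τ.1 * nl ps al j 0 1 (mo x τ p) := by
  simp only [nl, br_rot01 h, Finset.mul_sum, ← Finset.sum_add_distrib]
  exact Finset.sum_congr rfl fun _ _ => by ring

theorem Tj.rot {O : Set P} {ps al pr : ℕ → J2} (h : Tj O ps al pr) (x : P)
    (hτ : τ.1 ^ 2 + τ.2 ^ 2 = 1) : Tj (mo x τ ⁻¹' O) (fun j => rot x τ (ps j))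
      (fun j => rot x τ (al j)) fun j => rot x τ (pr j) := by
  refine ⟨fun j => (h.jp j).rot x hτ, h.j0.rot x hτ, fun j => (h.ja j).rot x hτ,
    fun j => (h.jr j).rot x hτ, fun j a b e => ?_, fun j => ?_, fun j => ?_⟩
  · filter_upwards [ae_mo (x := x) hτ (h.e1 j 1 0 rfl), ae_mo (x := x) hτ (h.e1 j 0 1 rfl)]
      with p c d hp
    obtain ⟨rfl, rfl⟩ | ⟨rfl, rfl⟩ : (a = 1 ∧ b = 0) ∨ (a = 0 ∧ b = 1) := by omega
    · rw [lp_rot10 hτ, c hp, d hp, rot10, mul_add, mul_add, add_add_add_comm]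
      simp only [br_rot10 hτ, Finset.mul_sum, ← Finset.sum_add_distrib]
      exact congrArg _ (Finset.sum_congr rfl fun _ _ => by ring)
    · rw [lp_rot01 hτ, c hp, d hp, rot01, mul_add, mul_add, add_add_add_comm]
      simp only [br_rot01 hτ, Finset.mul_sum, ← Finset.sum_add_distrib]
      exact congrArg _ (Finset.sum_congr rfl fun _ _ => by ring)
  · filter_upwards [ae_mo (x := x) hτ (h.e2 j)] with p c hp
    rw [lp_rot10 hτ, lp_rot01 hτ, nl_rot10 hτ, nl_rot01 hτ, (c hp).1, (c hp).2]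
    simp only [rot10, rot01]
    constructor <;> ring
  · filter_upwards [ae_mo (x := x) hτ (h.l j)] with p c hp
    simpa only [cf_rot hτ] using c hp

end Pool.Agent.MP_ed9623_an.R77
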