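import Pool.Agent.MP_ed9623_an.H64.Carl3

/-! Unique continuation for systems of parabolic differential inequalities. -/

open Filter Topology MeasureTheory Set

namespace Pool.Agent.MP_ed9623_an.R77

open H64

variable {ι : Type} [Fintype ι]

theorem absorbV (c : ℝ × ℝ) {s β t K C a : ℝ} (hs : 0 < s) (hC : 0 ≤ C) {f : ι → ST → ℝ}
    (hf : ∀ i, ContDiff ℝ (2 : ℕ) (f i)) (hcf : ∀ i, HasCompactSupport (f i))
    (sf : ∀ i, ∀ z ∈ tsupport (f i), s ≤ qq c z ∧ qq c z ≤ 13 / 10 * s ∧
      (6 * s - 2 * β * (z.1 - t)) ^ 2 ≤ K)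
    (hb : ∀ z, wt c s β t z ≤ a ∨
      ∑ i, Lh (f i) z ^ 2 ≤ C * (∑ i, f i z ^ 2 + ∑ i, gr (f i) z))
    {z₀ : ST} (hz₀ : a < wt c s β t z₀) (j : ι) : f j z₀ = 0 := by
  haveI := haar3
  have cf := fun i => (hf i).continuous
  have cL := fun i => ct_Lh (hf i)
  have cg := fun i => ct_gr (hf i)
  have I : ∀ u v w : ST → ℝ, Continuous u → Continuous v → Continuous w → ∀ i, Integrable
      fun z => u z * gr (f i) z + v z * f i z ^ 2 + w z * Lh (f i) z ^ 2 := fun u v w a b d i =>
    integrable_of_supp (hcf i) (by fun_prop) fun z hz => by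
      rw [gr_zero hz, (zero_off_supp hz).1, Lh_zero hz]; ring
  let m : ST → ℝ := fun z => min 1 (max 0 (wt c s β t z - a))
  have cm : Continuous m := by simp only [m]; fun_prop
  have m0 : ∀ z, 0 ≤ m z := fun z => le_min zero_le_one (le_max_left _ _)
  have iψ : Integrable fun z => m z * f j z ^ 2 := by
    simpa using I (fun _ => 0) m (fun _ => 0) continuous_const cm continuous_const j
  have iB : Integrable fun z => ∑ i, Lh (f i) z ^ 2 := integrable_finsetSum _ fun i _ => by
    simpa using I (fun _ => 0) (fun _ => 0) (fun _ => 1) continuous_const continuous_const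
      continuous_const i
  have ψ0 : ∀ z, 0 ≤ m z * f j z ^ 2 := fun z => mul_nonneg (m0 z) (sq_nonneg _)
  have main : ∀ τ : ℝ, 0 ≤ τ → 2 * C ≤ τ * s / 4 →
      2 * C + τ ≤ 4 * τ ^ 3 * s ^ 4 - 64 * τ - 2 * τ ^ 2 * K →
      τ * ∫ z, m z * f j z ^ 2 ≤ 2 * ∫ z, ∑ i, Lh (f i) z ^ 2 := by
    intro τ hτ t1 t2
    have m1 := fun i => carleman_f c (β := β) (t := t) hs hτ (hf i) (hcf i) (sf i)
    generalize 4 * τ ^ 3 * s ^ 4 - 64 * τ - 2 * τ ^ 2 * K = P at *
    set E : ST → ℝ := fun z => Real.exp (τ * wt c s β t z) ^ 2 with hE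
    have cE : Continuous E := by simp only [E]; fun_prop
    have i1 := fun i => I (fun z => E z * (τ * s / 4)) (fun z => E z * P) (fun z => E z * -2)
      (by fun_prop) (by fun_prop) (by fun_prop) i
    have m2 : ∫ z, ∑ i, (E z * (τ * s / 4) * gr (f i) z + E z * P * f i z ^ 2
        + E z * -2 * Lh (f i) z ^ 2) ≤ 0 := by
      rw [integral_finsetSum _ fun i _ => i1 i]
      refine Finset.sum_nonpos fun i _ => (le_of_eq ?_).trans (sub_nonpos.2 (m1 i))
      rw [← integral_sub]
      · exact integral_congr_ae (Eventually.of_forall fun z => by simp only [E]; ring)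
      · exact (I (fun z => E z * (τ * s / 4)) (fun z => E z * P) (fun _ => 0) (by fun_prop)
          (by fun_prop) (by fun_prop) i).congr (Eventually.of_forall fun z => by
            simp only [E]; ring)
      · exact (I (fun _ => 0) (fun _ => 0) (fun z => E z * 2) (by fun_prop)
          (by fun_prop) (by fun_prop) i).congr (Eventually.of_forall fun z => by
            simp only [E]; ring)
    set A := Real.exp (τ * a) ^ 2 with hA
    have hpos : 0 < A := by positivity
    have key : ∀ z, A * τ * (m z * f j z ^ 2) ≤ ∑ i, (E z * (τ * s / 4) * gr (f i) z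
        + E z * P * f i z ^ 2 + E z * -2 * Lh (f i) z ^ 2) + A * 2 * ∑ i, Lh (f i) z ^ 2 := by
      intro z
      simp only [Finset.sum_add_distrib, ← Finset.mul_sum]
      have n1 : 0 ≤ ∑ i, gr (f i) z := Finset.sum_nonneg fun i _ => gr_nonneg _ z
      have hN : 0 ≤ ∑ i, f i z ^ 2 := by positivity
      have hL : 0 ≤ ∑ i, Lh (f i) z ^ 2 := by positivity
      have hE : 0 ≤ E z := by positivity
      by_cases h : wt c s β t z ≤ a
      · have hψ : m z = 0 := by
          simp only [m]
          rw [max_eq_left (by linarith), min_eq_right zero_le_one]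
        have hle : E z ≤ A := pow_le_pow_left₀ (Real.exp_pos _).le
          (Real.exp_le_exp.2 (mul_le_mul_of_nonneg_left h hτ)) 2
        rw [hψ]
        nlinarith [mul_le_mul_of_nonneg_right hle hL, mul_nonneg hE (add_nonneg
          (mul_nonneg (by linarith : 0 ≤ τ * s / 4) n1) (mul_nonneg (by linarith : 0 ≤ P) hN))]
      · have hle : A ≤ E z := pow_le_pow_left₀ (Real.exp_pos _).le
          (Real.exp_le_exp.2 (mul_le_mul_of_nonneg_left (not_le.1 h).le hτ)) 2
        have hψ : m z * f j z ^ 2 ≤ ∑ i, f i z ^ 2 :=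
          (mul_le_of_le_one_left (sq_nonneg _) (min_le_left _ _)).trans
            (Finset.single_le_sum (f := fun i => f i z ^ 2) (fun i _ => sq_nonneg _)
              (Finset.mem_univ j))
        nlinarith [mul_le_mul_of_nonneg_left (mul_le_mul hle hψ (ψ0 z) hE) hτ,
          mul_le_mul_of_nonneg_left ((hb z).resolve_left h) hE, mul_nonneg hpos.le hL,
          mul_nonneg hE (mul_nonneg (sub_nonneg.2 t1) n1),
          mul_nonneg hE (mul_nonneg (sub_nonneg.2 t2) hN)]
    have i2 := integrable_finsetSum Finset.univ fun i _ => i1 i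
    have := integral_mono (iψ.const_mul (A * τ)) (i2.add (iB.const_mul (A * 2))) key
    simp only [Pi.add_apply] at this
    rw [integral_add i2 (iB.const_mul _), integral_const_mul, integral_const_mul] at this
    exact le_of_mul_le_mul_left (a := A) (by linarith) hpos
  have hz : ∫ z, m z * f j z ^ 2 = 0 := by
    refine le_antisymm ?_ (integral_nonneg ψ0)
    by_contra! hne
    have hs4 : 0 < s ^ 4 := by positivity
    obtain ⟨τ, ⟨h1, h2⟩, h3, h4⟩ := (((eventually_ge_atTop 1).and
      (eventually_ge_atTop (8 * C / s))).and ((eventually_ge_atTop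
        ((2 * C + 65 + 2 * |K|) / s ^ 4)).and (eventually_gt_atTop
          ((2 * ∫ z, ∑ i, Lh (f i) z ^ 2) / ∫ z, m z * f j z ^ 2)))).exists
    rw [div_le_iff₀ hs] at h2
    rw [div_le_iff₀ hs4] at h3
    rw [div_lt_iff₀ hne] at h4
    have := main τ (by linarith) (by linarith) (by
      have hK := le_abs_self K
      have hK0 := abs_nonneg K
      have t2 : τ ≤ τ ^ 2 := by nlinarith
      have t3 : 1 ≤ τ ^ 2 := by nlinarith
      have u1 := mul_le_mul_of_nonneg_left h3 (sq_nonneg τ)
      have u2 := mul_le_mul_of_nonneg_left hK (sq_nonneg τ)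
      have u3 := mul_le_mul_of_nonneg_left t3 hC
      have u4 : 0 ≤ τ ^ 3 * s ^ 4 := by positivity
      nlinarith)
    linarith
  have h0 : m z₀ * f j z₀ ^ 2 = 0 := congrFun ((Continuous.ae_eq_iff_eq volume (by fun_prop)
    continuous_zero).1 ((integral_eq_zero_iff_of_nonneg ψ0 iψ).1 hz)) z₀
  have hp : 0 < m z₀ := lt_min one_pos (lt_max_of_lt_right (by linarith))
  exact pow_eq_zero_iff two_ne_zero |>.1 ((mul_eq_zero.1 h0).resolve_left hp.ne')

theorem uc_ballV (c : ℝ × ℝ) {s C : ℝ} (hs : 0 < s) (hC : 0 ≤ C) {W : ι → ST → ℝ}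
    (hW : ∀ z : ST, qq c z < 3 / 2 * s → (∀ i, ContDiffAt ℝ (2 : ℕ) (W i) z) ∧
      ∑ i, Lh (W i) z ^ 2 ≤ C * (∑ i, W i z ^ 2 + ∑ i, gr (W i) z))
    (h0 : ∀ z : ST, qq c z < s → ∀ i, W i z = 0)
    (z₀ : ST) (hq₀ : qq c z₀ < 11 / 10 * s) (j : ι) : W j z₀ = 0 := by
  set t := z₀.1 with ht
  let T : ST → ℝ := fun z => (z.1 - t) * (z.1 - t)
  have cT : Continuous T := by simp only [T]; fun_prop
  let χ : ST → ℝ := fun z => Real.smoothTransition ((13 / 10 * s - qq c z) / (s / 10))
    * Real.smoothTransition ((4 - T z) / 3)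
  have hχ : ContDiff ℝ (2 : ℕ) χ := by
    simp only [χ, T]
    refine ContDiff.mul (Real.smoothTransition.contDiff.comp ?_)
      (Real.smoothTransition.contDiff.comp ?_) <;> fun_prop
  let K : Set ST := {z | qq c z ≤ 13 / 10 * s ∧ T z ≤ 4}
  have hKc : IsClosed K :=
    (isClosed_le (ct_qq c) continuous_const).inter (isClosed_le cT continuous_const)
  have hK : IsCompact K := by
    refine Metric.isCompact_of_isClosed_isBounded hKc ?_
    refine (Metric.isBounded_closedBall (x := ((t, c) : ST)) (r := 2 * s + 2)).subset ?_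
    intro z hz
    have a1 : |z.1 - t| ≤ 2 :=
      abs_le.2 (abs_le_of_sq_le_sq' (by have := hz.2; simp only [T] at this; nlinarith) two_pos.le)
    have a2 := dist_lt_of_qq (c := c) (z := z) (r := 2 * s + 2) (by positivity)
      (by nlinarith [hz.1])
    rw [Metric.mem_closedBall, Prod.dist_eq, Real.dist_eq]
    exact max_le (by linarith) a2.le
  have χ0 : ∀ z, z ∉ K → χ z = 0 := by
    intro z hz
    simp only [K, mem_setOf_eq, not_and_or, not_le] at hz
    rcases hz with h | h
    · simp only [χ]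
      rw [Real.smoothTransition.zero_of_nonpos
        (div_nonpos_of_nonpos_of_nonneg (by linarith) (by positivity)), zero_mul]
    · simp only [χ]
      rw [Real.smoothTransition.zero_of_nonpos (x := (4 - T z) / 3) (by linarith), mul_zero]
  have χ1 : ∀ z, qq c z < 12 / 10 * s → T z < 1 → χ z = 1 := by
    intro z h1 h2
    simp only [χ]
    rw [Real.smoothTransition.one_of_one_le, Real.smoothTransition.one_of_one_le, one_mul]
    · linarith
    · rw [le_div_iff₀ (by positivity)]; linarith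
  have off : ∀ i z, z ∉ K → (fun z => χ z * W i z) =ᶠ[𝓝 z] fun _ => 0 := fun i z hz => by
    filter_upwards [hKc.isOpen_compl.mem_nhds hz] with y hy
    rw [χ0 y hy, zero_mul]
  have s1 : ∀ i, ∀ z ∈ tsupport (fun z => χ z * W i z), z ∈ K ∧ s ≤ qq c z := fun i z hz => by
    refine ⟨by_contra fun h => notMem_tsupport_iff_eventuallyEq.2 (off i z h) hz,
      by_contra fun h => notMem_tsupport_iff_eventuallyEq.2 ?_ hz⟩
    filter_upwards [(isOpen_lt (ct_qq c) continuous_const).mem_nhds (not_le.1 h)] with y hy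
    rw [h0 y hy]; simp
  obtain ⟨K', hK'⟩ := hK.exists_bound_of_continuousOn
    (f := fun z : ST => (6 * s - 2 * s ^ 2 * (z.1 - t)) ^ 2) (by fun_prop)
  have hT₀ : T z₀ = 0 := by simp only [T, ht]; ring
  have res := absorbV c (β := s ^ 2) (t := t) (K := K') (a := 9 / 100 * s ^ 2) hs hC
    (f := fun i z => χ z * W i z) (fun i => contDiff_iff_contDiffAt.2 fun z => ?_)
    (fun i => HasCompactSupport.intro hK fun z hz => (off i z hz).eq_of_nhds)
    (fun i z hz => ⟨(s1 i z hz).2, (s1 i z hz).1.1, (le_abs_self _).trans (hK' z (s1 i z hz).1)⟩)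
    (fun z => ?_) (z₀ := z₀) ?_ j
  · simpa [χ1 z₀ (by linarith) (by rw [hT₀]; positivity)] using res
  · by_cases hz : z ∈ K
    · exact hχ.contDiffAt.mul ((hW z (by linarith [hz.1])).1 i)
    · exact contDiffAt_const.congr_of_eventuallyEq (off i z hz)
  · by_cases hz : z ∈ K ∧ s ≤ qq c z
    swap
    · right
      rw [Finset.sum_eq_zero fun i _ => by rw [Lh_zero fun h => hz (s1 i z h)]; simp]
      exact mul_nonneg hC (add_nonneg (by positivity) (Finset.sum_nonneg fun i _ => gr_nonneg _ z))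
    obtain ⟨hzK, hzs⟩ := hz
    by_cases hin : qq c z < 12 / 10 * s ∧ T z < 1
    · right
      have ev : ∀ᶠ y in 𝓝 z, χ y = 1 := by
        filter_upwards [(isOpen_lt (ct_qq c) continuous_const).mem_nhds hin.1,
          (isOpen_lt cT continuous_const).mem_nhds hin.2] with y hy1 hy2 using χ1 y hy1 hy2
      have e1 : ∀ i, (fun z => χ z * W i z) =ᶠ[𝓝 z] W i := fun i => by
        filter_upwards [ev] with y hy; rw [hy, one_mul]
      simp only [Lh_congr (e1 _), gr_congr (e1 _), ev.self_of_nhds, one_mul]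
      exact (hW z (by linarith [hzK.1])).2
    · left
      have hq := hzK.1
      have hT0 : 0 ≤ T z := mul_self_nonneg _
      change mm c s z * mm c s z - s ^ 2 * T z ≤ _
      unfold mm
      rcases not_and_or.1 hin with h | h
      · nlinarith [not_lt.1 h, mul_nonneg (sq_nonneg s) hT0]
      · nlinarith [mul_le_mul_of_nonneg_left (not_lt.1 h) (sq_nonneg s)]
  · unfold wt mm
    rw [← ht, sub_self]
    nlinarith

/-- Unique continuation from an open set. -/
theorem ucV {U : Set (ℝ × ℝ)} (hU : IsOpen U) (hUc : IsPreconnected U) {C : ℝ} (hC : 0 ≤ C)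
    {W : ι → ST → ℝ} (hW : ∀ z : ST, z.2 ∈ U → (∀ i, ContDiffAt ℝ (2 : ℕ) (W i) z) ∧
      ∑ i, Lh (W i) z ^ 2 ≤ C * (∑ i, W i z ^ 2 + ∑ i, gr (W i) z))
    {x₀ : ℝ × ℝ} (hx₀ : x₀ ∈ U) (h0 : ∀ᶠ x in 𝓝 x₀, ∀ t i, W i (t, x) = 0) :
    ∀ x ∈ U, ∀ t i, W i (t, x) = 0 := by
  refine fun x hx => interior_subset (s := {x | ∀ t i, W i (t, x) = 0})
    (hUc.subset_of_closure_inter_subset isOpen_interior
      ⟨x₀, hx₀, mem_interior_iff_mem_nhds.2 h0⟩ ?_ hx)
  rintro x ⟨hxc, hxU⟩
  obtain ⟨ε, hε, hεU⟩ := Metric.isOpen_iff.1 hU x hxU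
  obtain ⟨c, hcZ, hcx⟩ := Metric.mem_closure_iff.1 hxc (ε / 8) (by positivity)
  obtain ⟨r, hr, hrZ⟩ := Metric.isOpen_iff.1 isOpen_interior c hcZ
  have ind : ∀ n : ℕ, ∀ s : ℝ, 0 < s → s ≤ (ε / 2) ^ 2 → s ≤ r ^ 2 * (11 / 10) ^ n →
      ∀ z : ST, qq c z < s → ∀ i, W i z = 0 := by
    intro n
    induction n with
    | zero => exact fun s _ _ h z hq =>
        interior_subset (hrZ (dist_lt_of_qq hr.le (by simpa using hq.trans_le h))) z.1
    | succ n ih =>
      intro s hs h1 h2 z hq
      refine uc_ballV c (s := s / (11 / 10)) (by positivity) hC (fun y hyq => hW y (hεU ?_))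
        (ih _ (by positivity) (by linarith) ?_) z (by linarith)
      · have : dist y.2 c < 3 / 4 * ε := dist_lt_of_qq (by positivity) (by nlinarith)
        rw [Metric.mem_ball]
        linarith [dist_triangle y.2 c x, dist_comm x c]
      · rw [pow_succ (11 / 10 : ℝ) n] at h2
        rw [div_le_iff₀ (by norm_num)]
        linarith
  obtain ⟨n, hn⟩ := pow_unbounded_of_one_lt ((ε / 2) ^ 2 / r ^ 2) (by norm_num : (1 : ℝ) < 11 / 10)
  rw [div_lt_iff₀ (by positivity)] at hn
  refine mem_interior_iff_mem_nhds.2 ?_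
  filter_upwards [Metric.ball_mem_nhds x (by positivity : 0 < ε / 8)] with y hy t
  refine ind n _ (by positivity) le_rfl (by linarith) (t, y) ?_
  have : dist y c < ε / 4 := by
    rw [Metric.mem_ball] at hy
    linarith [dist_triangle y x c]
  nlinarith [qq_lt_of_dist t this]

end Pool.Agent.MP_ed9623_an.R77
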